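import Pool.Agent.Lib.MP_06b9d2_tls.An.CoreEx

/-!
The analytic package for `Γ(3)`: the final theorem.
-/

namespace Pool.Agent.Lib.MP_06b9d2_tls

open PowerSeries

theorem core_ex : ∃ A Y : ℂ⟦X⟧, Core A Y := An.core_ex

end Pool.Agent.Lib.MP_06b9d2_tls
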