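import Pool.Agent.Lib.MP_06b9d2_tls.Defs

/-!
TLS-A (MP_06b9d2_nt), the analytic package: modular forms for `Γ(3)`. Definitions.

`x = exp (2 π i τ / 3)`. A function `f` on the upper half plane has the expansion `F` (`Ser f F`) if
`f(τ) = ∑ F_n x ^ n` for all `τ`. `MF k f`: every `f ∣ g`, `g ∈ SL(2, ℤ)`, has an expansion
(this means: `f` is a modular form of weight `k` for `Γ(3)`).
-/

namespace Pool.Agent.Lib.MP_06b9d2_tls.An

open UpperHalfPlane hiding I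
open Complex ModularForm PowerSeries Filter
open scoped Real MatrixGroups Manifold Topology

/-- the parameter `x = exp (2 π i τ / 3)` -/
noncomputable def xq (τ : ℍ) : ℂ := Function.Periodic.qParam 3 (τ : ℂ)

/-- `f(τ) = ∑ F_n x ^ n` for all `τ` -/
def Ser (f : ℍ → ℂ) (F : ℂ⟦X⟧) : Prop :=
  ∀ τ : ℍ, HasSum (fun n : ℕ => coeff n F * xq τ ^ n) (f τ)

/-- the point `r τ + t` (for `r > 0`) -/
noncomputable def pt (r t : ℝ) (τ : ℍ) : ℍ :=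
  if h : 0 < r then ⟨(r : ℂ) * (τ : ℂ) + (t : ℂ), by
    have := τ.im_pos
    simpa using mul_pos h this⟩ else τ

/-- modular forms of weight `k` for `Γ(3)` -/
def MF (k : ℤ) (f : ℍ → ℂ) : Prop := ∀ g : SL(2, ℤ), ∃ F : ℂ⟦X⟧, Ser (f ∣[k] g) F

/-- `X = η(τ/3) ^ 3 / η(τ)` -/
noncomputable def Xf (τ : ℍ) : ℂ := ModularForm.eta ((τ : ℂ) / 3) ^ 3 / ModularForm.eta (τ : ℂ)

/-- `Y = 3 η(3τ) ^ 3 / η(τ)` -/
noncomputable def Yf (τ : ℍ) : ℂ := 3 * ModularForm.eta (3 * (τ : ℂ)) ^ 3 / ModularForm.eta (τ : ℂ)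

/-- `a = X + Y` -/
noncomputable def Af (τ : ℍ) : ℂ := Xf τ + Yf τ

/-- `P(x) = ∏ (1 - x ^ n)` -/
noncomputable def Pz : ℤ⟦X⟧ := PowerSeries.pentagonalSeries ℤ

/-- `f (x ^ n)` over `ℤ` -/
noncomputable def Vz (n : ℕ) (f : ℤ⟦X⟧) : ℤ⟦X⟧ :=
  PowerSeries.mk fun m => if n ∣ m then PowerSeries.coeff (m / n) f else 0

/-- `1 / P(x ^ 3)` -/
noncomputable def Rz : ℤ⟦X⟧ := PowerSeries.invOfUnit (Vz 3 Pz) 1

/-- the expansion of `X` -/
noncomputable def Xz : ℤ⟦X⟧ := Pz ^ 3 * Rz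

/-- a third of the expansion of `Y` -/
noncomputable def Kz : ℤ⟦X⟧ := PowerSeries.X * Vz 9 Pz ^ 3 * Rz

/-- the expansion of `a` -/
noncomputable def Aq : ℂ⟦X⟧ := PowerSeries.map (Int.castRingHom ℂ) (Xz + 3 * Kz)

/-- the expansion of `Y` -/
noncomputable def Yq : ℂ⟦X⟧ := PowerSeries.map (Int.castRingHom ℂ) (3 * Kz)

/-- `l` times the Hecke operator on functions (`e = χ(l)`) -/
noncomputable def THf (l : ℕ) (e : ℂ) (w : ℕ) (f : ℍ → ℂ) (τ : ℍ) : ℂ :=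
  ∑ b ∈ Finset.range l, f (pt (1 / l) (3 * b / l) τ) + (e * l) ^ w * f (pt l 0 τ)

/-- the normal closure of `T ^ 3` in `SL(2, ℤ)` -/
def Nn : Subgroup SL(2, ℤ) := Subgroup.normalClosure {ModularGroup.T ^ 3}

/-- the value at `τ` of the homogeneous polynomial `P` in `a`, `Y` -/
noncomputable def ev (P : MvPolynomial (Fin 2) ℂ) (τ : ℍ) : ℂ := MvPolynomial.aeval ![Af τ, Yf τ] P

end Pool.Agent.Lib.MP_06b9d2_tls.An
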