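import Pool.Agent.Lib.MP_06b9d2_tls.An.ADef

/-!
Module TLS-A-Pent: the product `∏ (1 - z ^ n)` is the sum of the pentagonal series.

PROOF. Mathlib's `Pentagonal.tprod_one_sub_pow` for the topological ring `ℂ` and `x = z`; its
hypotheses are dominated by geometric series. The right side is rearranged from `ℕ` (absolutely
summable, coefficients `0, ±1`) to `ℤ` and to the pairs of terms.
-/

namespace Pool.Agent.Lib.MP_06b9d2_tls.An

open UpperHalfPlane hiding I
open Complex ModularForm PowerSeries Filter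
open scoped Real MatrixGroups Manifold Topology

private theorem pent_coeff_norm (n : ℕ) :
    ‖coeff n (PowerSeries.map (Int.castRingHom ℂ) Pz)‖ ≤ 1 := by
  rw [coeff_map]
  unfold Pz
  by_cases h : n ∈ Set.range pentagonal
  · obtain ⟨k, rfl⟩ := h
    rw [coeff_pentagonalSeries_pentagonal]
    rcases Int.units_eq_one_or (Int.negOnePow k) with h1 | h1 <;> simp [h1]
  · rw [coeff_pentagonalSeries_eq_zero ℤ h]
    simp

private theorem pent_coeff (k : ℤ) :
    coeff (pentagonal k) (PowerSeries.map (Int.castRingHom ℂ) Pz) =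
      ((Int.negOnePow k : ℤ) : ℂ) := by
  rw [coeff_map]
  unfold Pz
  rw [coeff_pentagonalSeries_pentagonal]
  simp

private theorem pent_summable (z : ℂ) (hz : ‖z‖ < 1) :
    Summable (fun n : ℕ => coeff n (PowerSeries.map (Int.castRingHom ℂ) Pz) * z ^ n) := by
  refine Summable.of_norm_bounded (summable_geometric_of_lt_one (norm_nonneg z) hz) fun n => ?_
  rw [norm_mul, norm_pow]
  exact mul_le_of_le_one_left (pow_nonneg (norm_nonneg _) _) (pent_coeff_norm n)

private theorem pent_pairs (z : ℂ) (hz : ‖z‖ < 1) :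
    HasSum (fun k : ℕ => (-1 : ℂ) ^ k * (z ^ pentagonal (-k) - z ^ pentagonal (k + 1)))
      (∑' n : ℕ, coeff n (PowerSeries.map (Int.castRingHom ℂ) Pz) * z ^ n) := by
  have h0 := (pent_summable z hz).hasSum
  rw [← pentagonal_injective.hasSum_iff] at h0
  · have h1 : HasSum (fun k : ℤ => ((Int.negOnePow k : ℤ) : ℂ) * z ^ pentagonal k)
        (∑' n : ℕ, coeff n (PowerSeries.map (Int.castRingHom ℂ) Pz) * z ^ n) := by
      convert h0 using 2 with k
      rw [Function.comp_apply, pent_coeff]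
    rw [← neg_injective.hasSum_iff (fun x hx ↦ by absurd hx; use -x; simp)] at h1
    convert h1.nat_add_neg_add_one using 2 with k
    simp_rw [Function.comp_apply, neg_neg, Int.negOnePow_add]
    simp
    ring
  · intro n hn
    rw [coeff_map]
    unfold Pz
    rw [coeff_pentagonalSeries_eq_zero ℤ hn]
    simp

private theorem pent_prod_norm (z : ℂ) (hz : ‖z‖ < 1) (k n : ℕ) :
    ‖∏ i ∈ Finset.range n, (1 - z ^ (k + i + 1))‖ ≤ Real.exp (1 - ‖z‖)⁻¹ := by
  rw [norm_prod]
  have h1 : ∀ i ∈ Finset.range n, ‖1 - z ^ (k + i + 1)‖ ≤ Real.exp (‖z‖ ^ i) := by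
    intro i _
    have h2 : ‖1 - z ^ (k + i + 1)‖ ≤ 1 + ‖z‖ ^ (k + i + 1) := by
      refine (norm_sub_le _ _).trans ?_
      rw [norm_one, norm_pow]
    have h3 : ‖z‖ ^ (k + i + 1) ≤ ‖z‖ ^ i :=
      pow_le_pow_of_le_one (norm_nonneg _) hz.le (by omega)
    linarith [Real.add_one_le_exp (‖z‖ ^ i)]
  refine (Finset.prod_le_prod (fun i _ => norm_nonneg _) h1).trans ?_
  rw [← Real.exp_sum]
  refine Real.exp_le_exp.2 ?_
  rw [← tsum_geometric_of_lt_one (norm_nonneg z) hz]
  exact (summable_geometric_of_lt_one (norm_nonneg z) hz).sum_le_tsum _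
    (fun i _ => pow_nonneg (norm_nonneg _) _)

private theorem pent_term_norm (z : ℂ) (hz : ‖z‖ < 1) (k n : ℕ) :
    ‖z ^ ((k + 1) * n) * ∏ i ∈ Finset.range (n + 1), (1 - z ^ (k + i + 1))‖ ≤
      Real.exp (1 - ‖z‖)⁻¹ * ‖z‖ ^ n := by
  rw [norm_mul, norm_pow, mul_comm]
  refine mul_le_mul (pent_prod_norm z hz k (n + 1)) ?_ (pow_nonneg (norm_nonneg _) _)
    (Real.exp_pos _).le
  exact pow_le_pow_of_le_one (norm_nonneg _) hz.le (Nat.le_mul_of_pos_left n (Nat.succ_pos k))

theorem pent_hasSum (z : ℂ) (hz : ‖z‖ < 1) :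
    HasSum (fun n : ℕ => coeff n (PowerSeries.map (Int.castRingHom ℂ) Pz) * z ^ n)
      (∏' n : ℕ, (1 - z ^ (n + 1))) := by
  have hgeo := summable_geometric_of_lt_one (norm_nonneg z) hz
  have hp := pent_pairs z hz
  have key := Pentagonal.tprod_one_sub_pow (x := z)
    (tendsto_pow_atTop_nhds_zero_of_norm_lt_one hz) ?_ ?_ hp.summable ?_
  · rw [key, hp.tsum_eq]
    exact (pent_summable z hz).hasSum
  · intro k
    exact Summable.of_norm_bounded (hgeo.mul_left _) fun n => pent_term_norm z hz k n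
  · intro k
    simp only [sub_eq_add_neg]
    apply multipliable_one_add_of_summable
    have : Summable fun n : ℕ => ‖z‖ ^ (n + (k + 1)) := (summable_nat_add_iff (k + 1)).2 hgeo
    simpa [norm_pow, add_assoc] using this
  · have hb : ∀ k : ℕ, ‖∑' n : ℕ, z ^ ((k + 1) * n) *
        ∏ i ∈ Finset.range (n + 1), (1 - z ^ (k + i + 1))‖ ≤
        Real.exp (1 - ‖z‖)⁻¹ * (1 - ‖z‖)⁻¹ := fun k =>
      tsum_of_norm_bounded ((hasSum_geometric_of_lt_one (norm_nonneg z) hz).mul_left _)
        fun n => pent_term_norm z hz k n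
    have hlim : Tendsto (fun k : ℕ => ‖z‖ ^ k * (Real.exp (1 - ‖z‖)⁻¹ * (1 - ‖z‖)⁻¹)) atTop
        (𝓝 0) := by
      have := (tendsto_pow_atTop_nhds_zero_of_lt_one (norm_nonneg z) hz).mul_const
        (Real.exp (1 - ‖z‖)⁻¹ * (1 - ‖z‖)⁻¹)
      simpa using this
    refine squeeze_zero_norm (fun k => ?_) hlim
    rw [norm_mul, norm_mul, norm_pow, norm_neg, norm_one, one_pow, one_mul, norm_pow]
    refine mul_le_mul ?_ (hb k) (norm_nonneg _) (pow_nonneg (norm_nonneg _) _)
    refine pow_le_pow_of_le_one (norm_nonneg _) hz.le ?_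
    rw [Nat.le_div_iff_mul_le (by norm_num)]
    nlinarith

end Pool.Agent.Lib.MP_06b9d2_tls.An
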