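import Pool.Agent.Lib.MP_06b9d2_tls.An.W0

/-!
Module TLS-A-Str: every form is a homogeneous polynomial in `a`, `Y`.

PROOFS. `mf_div`: let `g ∈ SL(2,ℤ)`; `(h / Y) ∣[w] g = (h ∣[w+1] g) / (Y ∣[1] g)` (from `SL_slash_apply`). By `sl2_cases` `g = n r`, and `MF.inv` gives `h ∣ g = h ∣ r`, `Y ∣ g = Y ∣ r`.
`r = ± T^a`: `h ∣ r = ± h(pt 1 a τ)`, expansion `rescale`, constant coefficient 0; `Y ∣ r = ± Y(pt 1 a τ)`, coefficient of x is `3 ω^a ≠ 0`, no zeros: `Ser.div0`.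
`r = ± T^a S T^b`: `Y ∣ r = ± ω^a th⁻¹ (X ∣ T^b)`, `X(pt 1 b τ)` has no zeros and constant coefficient 1: `Ser.div1`.
`str`: induction on `w`, generalizing `f`. `w = 0`: `mf_zero`, `P = C c`. `w + 1`: `f` has the expansion `F`; `h = f - c • Xf^(w+1)`, `c = constantCoeff F`, is in `MF (w+1)`
(`Xf = Af - Yf`), constant coefficient 0; `h / Yf = ev P'` by `mf_div` and induction; `P = C c * (X 0 - X 1)^(w+1) + P' * X 1`.
-/

namespace Pool.Agent.Lib.MP_06b9d2_tls.An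

open UpperHalfPlane hiding I
open Complex ModularForm PowerSeries Filter
open scoped Real MatrixGroups Manifold Topology

private theorem Yf_T_pow (a : ℕ) : Yf ∣[(1 : ℤ)] (ModularGroup.T ^ a) = (om ^ a) • Yf := by
  induction a with
  | zero => rw [pow_zero, pow_zero, SlashAction.slash_one, one_smul]
  | succ a ih =>
    rw [pow_succ, SlashAction.slash_mul, ih, ModularForm.SL_smul_slash, Y_T, smul_smul, pow_succ]

private theorem const_Xz :
    constantCoeff (PowerSeries.map (Int.castRingHom ℂ) Xz) = 1 := by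
  obtain ⟨B, hB, hB0⟩ := Xz_int
  have h1 : constantCoeff Xz = 1 := by
    rw [hB]
    simp [hB0]
  rw [← PowerSeries.coeff_zero_eq_constantCoeff_apply, PowerSeries.coeff_map,
    PowerSeries.coeff_zero_eq_constantCoeff_apply, h1]
  simp

private theorem coeff_Yq : coeff 1 Yq = 3 := by
  unfold Yq
  rw [PowerSeries.coeff_map]
  have h1 : coeff 1 (3 * Kz) = 3 := by
    have h2 : (3 : ℤ⟦X⟧) = PowerSeries.C 3 := by simp
    rw [h2, PowerSeries.coeff_C_mul, Kz_one]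
    norm_num
  rw [h1]
  simp

private theorem const_rescale (c : ℂ) (F : ℂ⟦X⟧) :
    constantCoeff (PowerSeries.rescale c F) = constantCoeff F := by
  rw [← PowerSeries.coeff_zero_eq_constantCoeff_apply, PowerSeries.coeff_rescale, pow_zero,
    one_mul, PowerSeries.coeff_zero_eq_constantCoeff_apply]

private theorem const_smul (c : ℂ) (F : ℂ⟦X⟧) :
    constantCoeff (c • F) = c * constantCoeff F := by
  rw [← PowerSeries.coeff_zero_eq_constantCoeff_apply, PowerSeries.coeff_smul,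
    PowerSeries.coeff_zero_eq_constantCoeff_apply]
  rfl

private theorem om_ne : om ≠ 0 := by
  intro h
  have h1 : th = 1 := by
    have h2 : th - 1 = 0 := by
      have h3 : (th - 1) / 2 = 0 := h
      simpa using h3
    linear_combination h2
  have h4 : th.re = 0 := by
    unfold th
    simp
  rw [h1] at h4
  simp at h4

private theorem th_ne : th ≠ 0 := by
  unfold th
  apply mul_ne_zero Complex.I_ne_zero
  have : (Real.sqrt 3 : ℝ) ≠ 0 := by positivity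
  exact_mod_cast this

private theorem mf_Xf : MF 1 Xf := by
  have h1 : Xf = Af + (-1 : ℂ) • Yf := by
    funext τ
    show Xf τ = Af τ + (-1 : ℂ) * Yf τ
    unfold Af
    ring
  rw [h1]
  exact mf_A.add (mf_Y.smul (-1))

/-- the representatives `T ^ a` -/
private theorem rep1 {w : ℕ} {h : ℍ → ℂ} {H : ℂ⟦X⟧} (hH : Ser h H)
    (h0 : constantCoeff H = 0) (a : ℕ) :
    ∃ G : ℂ⟦X⟧, Ser ((h ∣[(w : ℤ) + 1] (ModularGroup.T ^ a)) /
      (Yf ∣[(1 : ℤ)] (ModularGroup.T ^ a))) G := by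
  have e1 : (h ∣[(w : ℤ) + 1] (ModularGroup.T ^ a)) = fun τ => h (pt 1 ((a : ℤ) : ℝ) τ) := by
    rw [← zpow_natCast, slash_T]
  have s1 := hH.shift ((a : ℤ) : ℝ)
  rw [← e1] at s1
  have s2 : Ser (Yf ∣[(1 : ℤ)] (ModularGroup.T ^ a)) ((om ^ a) • Yq) := by
    rw [Yf_T_pow]
    exact ser_Y.smul _
  refine s1.div0 ?_ s2 ?_ ?_
  · rw [const_rescale, h0]
  · intro τ
    rw [Yf_T_pow]
    exact mul_ne_zero (pow_ne_zero _ om_ne) (Yf_ne τ)
  · rw [PowerSeries.coeff_smul, coeff_Yq]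
    exact mul_ne_zero (pow_ne_zero _ om_ne) (by norm_num)

/-- the representatives `T ^ a S T ^ b` -/
private theorem rep2 {w : ℕ} {h : ℍ → ℂ} (hh : MF ((w : ℤ) + 1) h) (a b : ℕ) :
    ∃ G : ℂ⟦X⟧, Ser ((h ∣[(w : ℤ) + 1] (ModularGroup.T ^ a * ModularGroup.S * ModularGroup.T ^ b)) /
      (Yf ∣[(1 : ℤ)] (ModularGroup.T ^ a * ModularGroup.S * ModularGroup.T ^ b))) G := by
  obtain ⟨F, hF⟩ := hh (ModularGroup.T ^ a * ModularGroup.S * ModularGroup.T ^ b)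
  have e1 : Yf ∣[(1 : ℤ)] (ModularGroup.T ^ a * ModularGroup.S * ModularGroup.T ^ b)
      = (om ^ a * th⁻¹) • (fun τ => Xf (pt 1 ((b : ℤ) : ℝ) τ)) := by
    rw [SlashAction.slash_mul, SlashAction.slash_mul, Yf_T_pow, ModularForm.SL_smul_slash, Y_S,
      smul_smul, ModularForm.SL_smul_slash, ← zpow_natCast ModularGroup.T b, slash_T]
  have s2 := (ser_X.shift ((b : ℤ) : ℝ)).smul (om ^ a * th⁻¹)
  rw [← e1] at s2
  have hc : om ^ a * th⁻¹ ≠ 0 := mul_ne_zero (pow_ne_zero _ om_ne) (inv_ne_zero th_ne)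
  refine hF.div1 s2 ?_ ?_
  · intro τ
    rw [e1]
    exact mul_ne_zero hc (Xf_ne _)
  · rw [const_smul, const_rescale, const_Xz, mul_one]
    exact hc

private theorem neg_div_neg {w : ℕ} {h : ℍ → ℂ} (r : SL(2, ℤ))
    (hr : ∃ G : ℂ⟦X⟧, Ser ((h ∣[(w : ℤ) + 1] r) / (Yf ∣[(1 : ℤ)] r)) G) :
    ∃ G : ℂ⟦X⟧, Ser ((h ∣[(w : ℤ) + 1] (-r)) / (Yf ∣[(1 : ℤ)] (-r))) G := by
  obtain ⟨G, hG⟩ := hr
  refine ⟨((-1 : ℂ) ^ (w : ℤ)) • G, ?_⟩
  have e : (h ∣[(w : ℤ) + 1] (-r)) / (Yf ∣[(1 : ℤ)] (-r))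
      = ((-1 : ℂ) ^ (w : ℤ)) • ((h ∣[(w : ℤ) + 1] r) / (Yf ∣[(1 : ℤ)] r)) := by
    rw [slash_neg, slash_neg]
    funext τ
    show ((-1 : ℂ) ^ ((w : ℤ) + 1) * (h ∣[(w : ℤ) + 1] r) τ) / ((-1 : ℂ) ^ (1 : ℤ) * (Yf ∣[(1 : ℤ)] r) τ)
      = (-1 : ℂ) ^ (w : ℤ) * ((h ∣[(w : ℤ) + 1] r) τ / (Yf ∣[(1 : ℤ)] r) τ)
    rw [zpow_add₀ (by norm_num), zpow_one]
    by_cases hy : (Yf ∣[(1 : ℤ)] r) τ = 0
    · rw [hy]; simp
    · field_simp
  rw [e]
  exact hG.smul _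

theorem mf_div {w : ℕ} {h : ℍ → ℂ} {H : ℂ⟦X⟧} (hh : MF ((w : ℤ) + 1) h) (hH : Ser h H)
    (h0 : constantCoeff H = 0) : MF (w : ℤ) (h / Yf) := by
  intro g
  have e0 : (h / Yf) ∣[(w : ℤ)] g = (h ∣[(w : ℤ) + 1] g) / (Yf ∣[(1 : ℤ)] g) := by
    have h1 := ModularForm.div_slash_SL2 ((w : ℤ) + 1) 1 g h Yf
    rwa [add_sub_cancel_right] at h1
  rw [e0]
  obtain ⟨n, hn, a, b, -, -, hg⟩ := sl2_cases g
  have e1 : ∀ r : SL(2, ℤ), g = n * r → (h ∣[(w : ℤ) + 1] g) / (Yf ∣[(1 : ℤ)] g)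
      = (h ∣[(w : ℤ) + 1] r) / (Yf ∣[(1 : ℤ)] r) := by
    intro r hr
    rw [hr, SlashAction.slash_mul, SlashAction.slash_mul, hh.inv n hn, mf_Y.inv n hn]
  rcases hg with hg | hg | hg | hg
  · rw [e1 _ hg]
    exact rep1 hH h0 a
  · rw [e1 _ hg]
    exact neg_div_neg _ (rep1 hH h0 a)
  · rw [e1 _ hg]
    exact rep2 hh a b
  · rw [e1 _ hg]
    exact neg_div_neg _ (rep2 hh a b)

theorem str (w : ℕ) {f : ℍ → ℂ} (hf : MF w f) :
    ∃ P : MvPolynomial (Fin 2) ℂ, P.IsHomogeneous w ∧ f = ev P := by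
  induction w generalizing f with
  | zero =>
    have hf' : MF 0 f := by simpa using hf
    obtain ⟨c, rfl⟩ := mf_zero hf'
    refine ⟨MvPolynomial.C c, MvPolynomial.isHomogeneous_C _ _, ?_⟩
    funext τ
    unfold ev
    rw [MvPolynomial.aeval_C]
    rfl
  | succ w ih =>
    obtain ⟨F, hF⟩ := hf.ser
    have hcast : ((w + 1 : ℕ) : ℤ) = (w : ℤ) + 1 := by push_cast; ring
    have hX : MF ((w : ℤ) + 1) (Xf ^ (w + 1)) := by
      have h1 := mf_Xf.pow (w + 1)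
      rwa [mul_one, hcast] at h1
    rw [hcast] at hf
    have hh : MF ((w : ℤ) + 1) (f + (-(constantCoeff F)) • Xf ^ (w + 1)) := hf.add (hX.smul _)
    have hS : Ser (f + (-(constantCoeff F)) • Xf ^ (w + 1))
        (F + (-(constantCoeff F)) • (PowerSeries.map (Int.castRingHom ℂ) Xz) ^ (w + 1)) :=
      hF.add ((ser_X.pow (w + 1)).smul _)
    have h0 : constantCoeff (F + (-(constantCoeff F)) •
        (PowerSeries.map (Int.castRingHom ℂ) Xz) ^ (w + 1)) = 0 := by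
      rw [map_add, const_smul, map_pow, const_Xz]
      ring
    obtain ⟨P, hP, hPe⟩ := ih (mf_div hh hS h0)
    refine ⟨MvPolynomial.C (constantCoeff F) * (MvPolynomial.X 0 - MvPolynomial.X 1) ^ (w + 1)
      + P * MvPolynomial.X 1, ?_, ?_⟩
    · apply MvPolynomial.IsHomogeneous.add
      · have h1 := (MvPolynomial.isHomogeneous_C (Fin 2) (constantCoeff F)).mul
          (((MvPolynomial.isHomogeneous_X ℂ (0 : Fin 2)).sub
            (MvPolynomial.isHomogeneous_X ℂ (1 : Fin 2))).pow (w + 1))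
        rwa [zero_add, one_mul] at h1
      · exact hP.mul (MvPolynomial.isHomogeneous_X ℂ (1 : Fin 2))
    · funext τ
      have h1 : (f τ + -(constantCoeff F) * Xf τ ^ (w + 1)) / Yf τ = ev P τ := congrFun hPe τ
      rw [div_eq_iff (Yf_ne τ)] at h1
      have h2 : ev P τ = MvPolynomial.aeval ![Af τ, Yf τ] P := rfl
      have h3 : Xf τ = Af τ - Yf τ := by
        unfold Af
        ring
      show f τ = MvPolynomial.aeval ![Af τ, Yf τ] (MvPolynomial.C (constantCoeff F) *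
        (MvPolynomial.X 0 - MvPolynomial.X 1) ^ (w + 1) + P * MvPolynomial.X 1)
      rw [map_add, map_mul, map_mul, map_pow, map_sub, MvPolynomial.aeval_C, MvPolynomial.aeval_X,
        MvPolynomial.aeval_X, ← h2]
      show f τ = constantCoeff F * (Af τ - Yf τ) ^ (w + 1) + ev P τ * Yf τ
      rw [← h1, h3]
      ring

end Pool.Agent.Lib.MP_06b9d2_tls.An
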