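import Pool.Agent.Lib.MP_06b9d2_tls.An.Th3
import Pool.Agent.Lib.MP_06b9d2_tls.An.Str

/-!
Module TLS-A-Bb: the fields `b1`, `b2` of `Core`.

PROOFS. `b1`: `f(τ) = Af(τ/3)` is in `MF 1` (`mf_third`, `A_T`), so `= α a + β Y` (`str`: a homogeneous polynomial of degree 1). By `Az_gr` `Aq = V 3 A'` for a series `A'`
(coefficients `coeff m A' = coeff (3 m) Aq`), `Ser.unscale`: `f` has the expansion `A'`; `Ser.unique`: `A' = α Aq + β Yq`: constant coefficient: `α = 1` (`Az_zero`), coefficient of `x`: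
`6 = 3 β` (`Az_three`, `Kz_one`, `Az_gr 1`), so `A' = Aq + 2 Yq`. `b2`: `γ = Yf^3` is T-invariant (`Y_T`, `om^3 = 1`), `γ(τ/3)` is in `MF 3`, hence `= c0 a^3 + c1 a^2 Y + c2 a Y^2 + c3 Y^3`;
`Yq^3 = V 3 G'`, coefficients of `G'` at 0, 1, 2, 3 = coefficients of `Yq^3` at 0, 3, 6, 9 = 0, 27, 81, 243 (`Yq = 3x + 3x^4 + 6x^7 + ...`), and compare with the right side
(`Aq = 1 + 6x^3 + ...`): `c0 = 0`, `3 c1 = 27`, `9 c2 = 81`, `3 c1 * 12*0 ...`: the coefficient of `x^3` on the right is `18 c0 + 27 c3`, so `c3 = 9`.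
-/

namespace Pool.Agent.Lib.MP_06b9d2_tls.An

open UpperHalfPlane hiding I
open Complex ModularForm PowerSeries Filter
open scoped Real MatrixGroups Manifold Topology

/-- a homogeneous polynomial in two variables -/
private theorem Bb_hom2 {w : ℕ} {P : MvPolynomial (Fin 2) ℂ} (hP : P.IsHomogeneous w) :
    ∃ c : ℕ → ℂ, ∀ F : Fin 2 → ℂ⟦X⟧, MvPolynomial.aeval F P =
      ∑ i ∈ Finset.range (w + 1), c i • (F 0 ^ (w - i) * F 1 ^ i) := by
  refine ⟨fun i => ∑ d ∈ P.support.filter (fun d => d 1 = i), P.coeff d, fun F => ?_⟩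
  rw [MvPolynomial.aeval_def, MvPolynomial.eval₂_eq']
  have hdeg : ∀ d ∈ P.support, d 0 + d 1 = w := by
    intro d hd
    have := hP (MvPolynomial.mem_support_iff.1 hd)
    rw [Finsupp.weight_apply] at this
    simpa [Finsupp.sum_fintype] using this
  rw [← Finset.sum_fiberwise_of_maps_to (s := P.support) (t := Finset.range (w + 1)) (g := fun d => d 1)
    (fun d hd => Finset.mem_range.2 (by have := hdeg d hd; omega))]
  refine Finset.sum_congr rfl fun i _ => ?_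
  rw [Finset.sum_smul]
  refine Finset.sum_congr rfl fun d hd => ?_
  rw [Finset.mem_filter] at hd
  have h1 := hdeg d hd.1
  have h2 := hd.2
  rw [Fin.prod_univ_two, ← h2, show w - d 1 = d 0 by omega, Algebra.smul_def]

private theorem Bb_expand {w : ℕ} {f : ℍ → ℂ} {F : ℂ⟦X⟧} (hf : MF w f) (hF : Ser f F) :
    ∃ c : ℕ → ℂ, F = ∑ i ∈ Finset.range (w + 1), c i • (Aq ^ (w - i) * Yq ^ i) := by
  obtain ⟨P, hP, hfP⟩ := str w hf
  obtain ⟨c, hc⟩ := Bb_hom2 hP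
  refine ⟨c, ?_⟩
  have h1 : Ser f (MvPolynomial.aeval ![Aq, Yq] P) := by
    have := Ser.aeval (f := ![Af, Yf]) (F := ![Aq, Yq]) (fun i => by
      fin_cases i
      · exact ser_A
      · exact ser_Y) P
    rw [hfP]
    convert this using 1
    funext τ
    unfold ev
    congr 2
    funext i
    fin_cases i <;> rfl
  rw [Ser.unique hF h1, hc]
  rfl

private theorem Bb_retract {F : ℂ⟦X⟧} (hF : ∀ n, n % 3 ≠ 0 → coeff n F = 0) : V 3 (U 3 F) = F := by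
  ext n
  rw [coeff_V]
  unfold U
  split_ifs with h
  · rw [PowerSeries.coeff_mk, Nat.mul_div_cancel' h]
  · rw [hF n (fun h0 => h (Nat.dvd_of_mod_eq_zero h0))]

private theorem Bb_U (F : ℂ⟦X⟧) (n : ℕ) : coeff n (U 3 F) = coeff (3 * n) F := by
  unfold U
  rw [PowerSeries.coeff_mk]

private theorem Bb_A (n : ℕ) : coeff n Aq = ((coeff n (Xz + 3 * Kz) : ℤ) : ℂ) := by
  rw [Aq, PowerSeries.coeff_map]
  simp

private theorem Bb_Y (n : ℕ) : coeff n Yq = 3 * ((coeff n Kz : ℤ) : ℂ) := by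
  rw [Yq, PowerSeries.coeff_map, show (3 : ℤ⟦X⟧) = PowerSeries.C (3 : ℤ) by simp, PowerSeries.coeff_C_mul]
  simp

private theorem Bb_grA (n : ℕ) (hn : n % 3 ≠ 0) : coeff n Aq = 0 := by
  rw [Bb_A, Az_gr n hn]
  simp

private theorem Bb_grY (n : ℕ) (hn : n % 3 ≠ 1) : coeff n Yq = 0 := by
  rw [Bb_Y, Kz_gr n hn]
  simp

private theorem Bb_A0 : coeff 0 Aq = 1 := by rw [Bb_A, Az_zero]; simp
private theorem Bb_A1 : coeff 1 Aq = 0 := Bb_grA 1 (by norm_num)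
private theorem Bb_A2 : coeff 2 Aq = 0 := Bb_grA 2 (by norm_num)
private theorem Bb_A3 : coeff 3 Aq = 6 := by rw [Bb_A, Az_three]; simp
private theorem Bb_Y0 : coeff 0 Yq = 0 := Bb_grY 0 (by norm_num)
private theorem Bb_Y1 : coeff 1 Yq = 3 := by rw [Bb_Y, Kz_one]; simp
private theorem Bb_Y2 : coeff 2 Yq = 0 := Bb_grY 2 (by norm_num)
private theorem Bb_Y3 : coeff 3 Yq = 0 := Bb_grY 3 (by norm_num)
private theorem Bb_Y4 : coeff 4 Yq = 3 := by rw [Bb_Y, Kz_four]; simp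
private theorem Bb_Y7 : coeff 7 Yq = 6 := by rw [Bb_Y, Kz_seven]; norm_num

/-- the form `f(τ / 3)` for a form invariant under `T` -/
private theorem Bb_third {w : ℕ} {f : ℍ → ℂ} {F : ℂ⟦X⟧} (hf : MF w f)
    (hT : f ∣[(w : ℤ)] ModularGroup.T = f) (hF : Ser f F) (hg : ∀ n, n % 3 ≠ 0 → coeff n F = 0) :
    ∃ c : ℕ → ℂ, U 3 F = ∑ i ∈ Finset.range (w + 1), c i • (Aq ^ (w - i) * Yq ^ i) := by
  have h1 := mf_third hf hT
  have h2 : Ser f (V 3 (U 3 F)) := by rwa [Bb_retract hg]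
  have h3 := h2.unscale 3 (by norm_num)
  have e3 : ((3 : ℕ) : ℝ) = 3 := by norm_num
  rw [e3] at h3
  exact Bb_expand h1 h3

theorem b1 : Aq = V 3 (Aq + 2 * Yq) := by
  have hA : MF ((1 : ℕ) : ℤ) Af := by simpa using mf_A
  have hT : Af ∣[((1 : ℕ) : ℤ)] ModularGroup.T = Af := by simpa using A_T
  obtain ⟨c, hc⟩ := Bb_third hA hT ser_A Bb_grA
  have hc' : U 3 Aq = c 0 • Aq + c 1 • Yq := by
    rw [hc]
    simp only [Finset.sum_range_succ, Finset.sum_range_zero]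
    norm_num
  have e0 := congrArg (coeff 0) hc'
  have e1 := congrArg (coeff 1) hc'
  have t0 : coeff (3 * 0) Aq = 1 := Bb_A0
  have t1 : coeff (3 * 1) Aq = 6 := Bb_A3
  rw [Bb_U, t0, map_add, map_smul, map_smul, Bb_A0, Bb_Y0] at e0
  rw [Bb_U, t1, map_add, map_smul, map_smul, Bb_A1, Bb_Y1] at e1
  simp only [smul_eq_mul] at e0 e1
  have k0 : c 0 = 1 := by linear_combination -e0
  have k1 : c 1 = 2 := by linear_combination (-1 / 3 : ℂ) * e1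
  rw [k0, k1] at hc'
  conv_lhs => rw [← Bb_retract Bb_grA, hc']
  congr 1
  rw [one_smul, PowerSeries.smul_eq_C_mul, map_ofNat]

private theorem Bb_gr_mul {F G : ℂ⟦X⟧} {a b d : ℕ} (hF : ∀ n, n % 3 ≠ a → coeff n F = 0)
    (hG : ∀ n, n % 3 ≠ b → coeff n G = 0) (hd : (a + b) % 3 = d) :
    ∀ n, n % 3 ≠ d → coeff n (F * G) = 0 := by
  intro n hn
  rw [PowerSeries.coeff_mul]
  refine Finset.sum_eq_zero fun p hp => ?_
  have h1 : p.1 + p.2 = n := Finset.HasAntidiagonal.mem_antidiagonal.mp hp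
  by_cases h2 : p.1 % 3 = a
  · by_cases h3 : p.2 % 3 = b
    · exfalso
      apply hn
      omega
    · rw [hG _ h3, mul_zero]
  · rw [hF _ h2, zero_mul]

private theorem Bb_grY2 : ∀ n, n % 3 ≠ 2 → coeff n (Yq ^ 2) = 0 := by
  rw [pow_two]
  exact Bb_gr_mul Bb_grY Bb_grY (by norm_num)

private theorem Bb_grY3 : ∀ n, n % 3 ≠ 0 → coeff n (Yq ^ 3) = 0 := by
  rw [pow_succ]
  exact Bb_gr_mul Bb_grY2 Bb_grY (by norm_num)

private theorem Bb_grA2 : ∀ n, n % 3 ≠ 0 → coeff n (Aq ^ 2) = 0 := by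
  rw [pow_two]
  exact Bb_gr_mul Bb_grA Bb_grA (by norm_num)

private theorem Bb_grA3 : ∀ n, n % 3 ≠ 0 → coeff n (Aq ^ 3) = 0 := by
  rw [pow_succ]
  exact Bb_gr_mul Bb_grA2 Bb_grA (by norm_num)

private theorem Bb_grA2Y : ∀ n, n % 3 ≠ 1 → coeff n (Aq ^ 2 * Yq) = 0 :=
  Bb_gr_mul Bb_grA2 Bb_grY (by norm_num)

private theorem Bb_grAY2 : ∀ n, n % 3 ≠ 2 → coeff n (Aq * Yq ^ 2) = 0 :=
  Bb_gr_mul Bb_grA Bb_grY2 (by norm_num)

private theorem Bb_Y22 : coeff 2 (Yq ^ 2) = 9 := by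
  rw [pow_two, PowerSeries.coeff_mul, Finset.Nat.sum_antidiagonal_eq_sum_range_succ_mk]
  simp only [Finset.sum_range_succ, Finset.sum_range_zero, Nat.reduceSub, Bb_Y0, Bb_Y1, Bb_Y2]
  norm_num

private theorem Bb_Y25 : coeff 5 (Yq ^ 2) = 18 := by
  rw [pow_two, PowerSeries.coeff_mul, Finset.Nat.sum_antidiagonal_eq_sum_range_succ_mk]
  simp only [Finset.sum_range_succ, Finset.sum_range_zero, Nat.reduceSub, Bb_Y0, Bb_Y1, Bb_Y2, Bb_Y3,
    Bb_Y4, Bb_grY 5 (by norm_num)]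
  norm_num

private theorem Bb_Y28 : coeff 8 (Yq ^ 2) = 45 := by
  rw [pow_two, PowerSeries.coeff_mul, Finset.Nat.sum_antidiagonal_eq_sum_range_succ_mk]
  simp only [Finset.sum_range_succ, Finset.sum_range_zero, Nat.reduceSub, Bb_Y0, Bb_Y1, Bb_Y2, Bb_Y3,
    Bb_Y4, Bb_Y7, Bb_grY 5 (by norm_num), Bb_grY 6 (by norm_num), Bb_grY 8 (by norm_num)]
  norm_num

private theorem Bb_Y30 : coeff 0 (Yq ^ 3) = 0 := by
  rw [pow_succ, PowerSeries.coeff_mul, Finset.Nat.sum_antidiagonal_eq_sum_range_succ_mk]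
  simp only [Finset.sum_range_succ, Finset.sum_range_zero, Nat.reduceSub, Bb_Y0]
  norm_num

private theorem Bb_Y33 : coeff 3 (Yq ^ 3) = 27 := by
  rw [pow_succ, PowerSeries.coeff_mul, Finset.Nat.sum_antidiagonal_eq_sum_range_succ_mk]
  simp only [Finset.sum_range_succ, Finset.sum_range_zero, Nat.reduceSub, Bb_Y0, Bb_Y1, Bb_Y2, Bb_Y3,
    Bb_Y22, Bb_grY2 0 (by norm_num), Bb_grY2 1 (by norm_num), Bb_grY2 3 (by norm_num)]
  norm_num

private theorem Bb_Y36 : coeff 6 (Yq ^ 3) = 81 := by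
  rw [pow_succ, PowerSeries.coeff_mul, Finset.Nat.sum_antidiagonal_eq_sum_range_succ_mk]
  simp only [Finset.sum_range_succ, Finset.sum_range_zero, Nat.reduceSub, Bb_Y0, Bb_Y1, Bb_Y2, Bb_Y3,
    Bb_Y4, Bb_Y22, Bb_Y25, Bb_grY2 0 (by norm_num), Bb_grY2 1 (by norm_num), Bb_grY2 3 (by norm_num),
    Bb_grY2 4 (by norm_num), Bb_grY2 6 (by norm_num), Bb_grY 5 (by norm_num), Bb_grY 6 (by norm_num)]
  norm_num

private theorem Bb_Y39 : coeff 9 (Yq ^ 3) = 243 := by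
  rw [pow_succ, PowerSeries.coeff_mul, Finset.Nat.sum_antidiagonal_eq_sum_range_succ_mk]
  simp only [Finset.sum_range_succ, Finset.sum_range_zero, Nat.reduceSub, Bb_Y0, Bb_Y1, Bb_Y2, Bb_Y3,
    Bb_Y4, Bb_Y7, Bb_Y22, Bb_Y25, Bb_Y28, Bb_grY2 0 (by norm_num), Bb_grY2 1 (by norm_num),
    Bb_grY2 3 (by norm_num), Bb_grY2 4 (by norm_num), Bb_grY2 6 (by norm_num),
    Bb_grY2 7 (by norm_num), Bb_grY2 9 (by norm_num), Bb_grY 5 (by norm_num),
    Bb_grY 6 (by norm_num), Bb_grY 8 (by norm_num), Bb_grY 9 (by norm_num)]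
  norm_num

private theorem Bb_A20 : coeff 0 (Aq ^ 2) = 1 := by
  rw [pow_two, PowerSeries.coeff_mul, Finset.Nat.sum_antidiagonal_eq_sum_range_succ_mk]
  simp only [Finset.sum_range_succ, Finset.sum_range_zero, Nat.reduceSub, Bb_A0]
  norm_num

private theorem Bb_A23 : coeff 3 (Aq ^ 2) = 12 := by
  rw [pow_two, PowerSeries.coeff_mul, Finset.Nat.sum_antidiagonal_eq_sum_range_succ_mk]
  simp only [Finset.sum_range_succ, Finset.sum_range_zero, Nat.reduceSub, Bb_A0, Bb_A1, Bb_A2, Bb_A3]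
  norm_num

private theorem Bb_A30 : coeff 0 (Aq ^ 3) = 1 := by
  rw [pow_succ, PowerSeries.coeff_mul, Finset.Nat.sum_antidiagonal_eq_sum_range_succ_mk]
  simp only [Finset.sum_range_succ, Finset.sum_range_zero, Nat.reduceSub, Bb_A0, Bb_A20]
  norm_num

private theorem Bb_A33 : coeff 3 (Aq ^ 3) = 18 := by
  rw [pow_succ, PowerSeries.coeff_mul, Finset.Nat.sum_antidiagonal_eq_sum_range_succ_mk]
  simp only [Finset.sum_range_succ, Finset.sum_range_zero, Nat.reduceSub, Bb_A0, Bb_A1, Bb_A2, Bb_A3,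
    Bb_A20, Bb_A23, Bb_grA2 1 (by norm_num), Bb_grA2 2 (by norm_num)]
  norm_num

private theorem Bb_A2Y1 : coeff 1 (Aq ^ 2 * Yq) = 3 := by
  rw [PowerSeries.coeff_mul, Finset.Nat.sum_antidiagonal_eq_sum_range_succ_mk]
  simp only [Finset.sum_range_succ, Finset.sum_range_zero, Nat.reduceSub, Bb_A20, Bb_Y0, Bb_Y1]
  norm_num

private theorem Bb_AY22 : coeff 2 (Aq * Yq ^ 2) = 9 := by
  rw [PowerSeries.coeff_mul, Finset.Nat.sum_antidiagonal_eq_sum_range_succ_mk]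
  simp only [Finset.sum_range_succ, Finset.sum_range_zero, Nat.reduceSub, Bb_A0, Bb_A1, Bb_A2, Bb_Y22,
    Bb_grY2 0 (by norm_num), Bb_grY2 1 (by norm_num)]
  norm_num

private theorem Bb_th2 : th ^ 2 = -3 := by
  unfold th
  rw [mul_pow, Complex.I_sq, ← Complex.ofReal_pow, Real.sq_sqrt (by norm_num)]
  norm_num

private theorem Bb_om3 : om ^ 3 = 1 := by
  have h := Bb_th2
  unfold om
  linear_combination ((th - 3) / 8) * h

private theorem Bb_YT : (Yf ^ 3) ∣[((3 : ℕ) : ℤ)] ModularGroup.T = Yf ^ 3 := by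
  have h := slash_T (((3 : ℕ) : ℤ)) (Yf ^ 3) 1
  rw [zpow_one] at h
  rw [h]
  have h1 := slash_T 1 Yf 1
  rw [zpow_one, Y_T] at h1
  funext τ
  have h2 : om * Yf τ = Yf (pt 1 ((1 : ℤ) : ℝ) τ) := congrFun h1 τ
  show (Yf (pt 1 ((1 : ℤ) : ℝ) τ)) ^ 3 = (Yf τ) ^ 3
  rw [← h2, mul_pow, Bb_om3, one_mul]

theorem b2 : Yq ^ 3 = 9 * V 3 (Aq ^ 2 * Yq + Aq * Yq ^ 2 + Yq ^ 3) := by
  have hY : MF ((3 : ℕ) : ℤ) (Yf ^ 3) := by
    have h := mf_Y.pow 3
    simpa using h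
  obtain ⟨c, hc⟩ := Bb_third hY Bb_YT (ser_Y.pow 3) Bb_grY3
  have hc' : U 3 (Yq ^ 3) = c 0 • Aq ^ 3 + c 1 • (Aq ^ 2 * Yq) + c 2 • (Aq * Yq ^ 2) + c 3 • Yq ^ 3 := by
    rw [hc]
    simp only [Finset.sum_range_succ, Finset.sum_range_zero]
    norm_num
  have e0 := congrArg (coeff 0) hc'
  have e1 := congrArg (coeff 1) hc'
  have e2 := congrArg (coeff 2) hc'
  have e3 := congrArg (coeff 3) hc'
  have t0 : coeff (3 * 0) (Yq ^ 3) = 0 := Bb_Y30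
  have t1 : coeff (3 * 1) (Yq ^ 3) = 27 := Bb_Y33
  have t2 : coeff (3 * 2) (Yq ^ 3) = 81 := Bb_Y36
  have t3 : coeff (3 * 3) (Yq ^ 3) = 243 := Bb_Y39
  rw [Bb_U, t0] at e0
  rw [Bb_U, t1] at e1
  rw [Bb_U, t2] at e2
  rw [Bb_U, t3] at e3
  simp only [map_add, map_smul, smul_eq_mul, Bb_A30, Bb_Y30, Bb_grA2Y 0 (by norm_num),
    Bb_grAY2 0 (by norm_num)] at e0
  simp only [map_add, map_smul, smul_eq_mul, Bb_grA3 1 (by norm_num), Bb_grY3 1 (by norm_num), Bb_A2Y1,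
    Bb_grAY2 1 (by norm_num)] at e1
  simp only [map_add, map_smul, smul_eq_mul, Bb_grA3 2 (by norm_num), Bb_grY3 2 (by norm_num),
    Bb_grA2Y 2 (by norm_num), Bb_AY22] at e2
  simp only [map_add, map_smul, smul_eq_mul, Bb_A33, Bb_Y33, Bb_grA2Y 3 (by norm_num),
    Bb_grAY2 3 (by norm_num)] at e3
  have k0 : c 0 = 0 := by linear_combination -e0
  have k1 : c 1 = 9 := by linear_combination (-1 / 3 : ℂ) * e1
  have k2 : c 2 = 9 := by linear_combination (-1 / 9 : ℂ) * e2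
  have k3 : c 3 = 9 := by linear_combination (-1 / 27 : ℂ) * e3 - (18 / 27 : ℂ) * k0
  rw [k0, k1, k2, k3] at hc'
  have h9 : U 3 (Yq ^ 3) = (9 : ℂ) • (Aq ^ 2 * Yq + Aq * Yq ^ 2 + Yq ^ 3) := by
    rw [hc', zero_smul, zero_add, smul_add, smul_add]
  have hV : V 3 ((9 : ℂ) • (Aq ^ 2 * Yq + Aq * Yq ^ 2 + Yq ^ 3)) =
      9 * V 3 (Aq ^ 2 * Yq + Aq * Yq ^ 2 + Yq ^ 3) := by
    ext n
    rw [show (9 : ℂ⟦X⟧) = PowerSeries.C (9 : ℂ) from (map_ofNat (PowerSeries.C (R := ℂ)) 9).symm,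
      PowerSeries.coeff_C_mul, coeff_V, coeff_V]
    split_ifs
    · rw [map_smul, smul_eq_mul]
    · simp
  rw [← hV, ← h9, Bb_retract Bb_grY3]

end Pool.Agent.Lib.MP_06b9d2_tls.An
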