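import Pool.Agent.Lib.MP_06b9d2_tls.An.Str
import Pool.Agent.Lib.L1.SpanC

/-!
Module TLS-A-Ef: the fields `h4`, `h6` of `Core`.

PROOFS. `mf_E4`: `E₄ ∣ g = E₄` (level one), `Ser` with `q = x^3`: `ModularForm` q-expansion with period 1, `L1.map_E4z : map E4z = qExpansion 1 E₄`, `e4 ℂ = map (Int.castRingHom ℂ) E4z`;
reindex (multiples of 3). `h4`: `str`: `E₄ = ∑ c_i a^(4-i) Y^i`; `Ser.unique`: `V 3 (e4 ℂ) = ∑ c_i Aq^(4-i) Yq^i`. The coefficients of `1, x, ..., x^6` determine the `c_i`.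
-/

namespace Pool.Agent.Lib.MP_06b9d2_tls.An

open UpperHalfPlane hiding I
open Complex ModularForm PowerSeries Filter
open scoped Real MatrixGroups Manifold Topology

open Pool.Agent.L1

private theorem xq_cube (τ : ℍ) : xq τ ^ 3 = Function.Periodic.qParam 1 (τ : ℂ) := by
  unfold xq Function.Periodic.qParam
  rw [← Complex.exp_nat_mul]
  congr 1
  push_cast
  ring

private theorem ser_V3 {f : ℍ → ℂ} {F : ℂ⟦X⟧}
    (h : ∀ τ : ℍ, HasSum (fun n : ℕ => coeff n F * Function.Periodic.qParam 1 (τ : ℂ) ^ n) (f τ)) :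
    Ser f (V 3 F) := by
  intro τ
  have hi : Function.Injective (fun n : ℕ => 3 * n) := fun a b hab => by simpa using hab
  have h1 := h τ
  refine (hi.hasSum_iff (f := fun n : ℕ => coeff n (V 3 F) * xq τ ^ n) (a := f τ) ?_).1 ?_
  · intro x hx
    rw [coeff_V, if_neg, zero_mul]
    rintro ⟨c, rfl⟩
    exact hx ⟨c, rfl⟩
  · convert h1 using 2 with n
    simp only [Function.comp, coeff_V, dvd_mul_right, if_true, pow_mul, xq_cube]
    rw [Nat.mul_div_cancel_left _ (by norm_num : 0 < 3)]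

private theorem mf_level1 {k : ℤ} (f : ModularForm 𝒮ℒ k) {F : ℂ⟦X⟧} (h : Ser f F) : MF k f := by
  intro g
  refine ⟨F, ?_⟩
  have : (f : ℍ → ℂ) ∣[k] g = f := by
    rw [ModularForm.SL_slash]
    exact SlashInvariantForm.slash_action_eqn f _ ⟨g, rfl⟩
  rw [this]
  exact h

theorem mf_E4 : MF 4 ModularForm.E₄ ∧ Ser ModularForm.E₄ (V 3 (e4 ℂ)) := by
  have h : Ser ModularForm.E₄ (V 3 (e4 ℂ)) := by
    refine ser_V3 fun τ => ?_
    rw [e4_C]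
    simpa only [smul_eq_mul] using ModularForm.hasSum_qExpansion E₄ one_pos one_mem_strictPeriods_SL τ
  exact ⟨mf_level1 _ h, h⟩

theorem mf_E6 : MF 6 ModularForm.E₆ ∧ Ser ModularForm.E₆ (V 3 (e6 ℂ)) := by
  have h : Ser ModularForm.E₆ (V 3 (e6 ℂ)) := by
    refine ser_V3 fun τ => ?_
    rw [e6_C]
    simpa only [smul_eq_mul] using ModularForm.hasSum_qExpansion E₆ one_pos one_mem_strictPeriods_SL τ
  exact ⟨mf_level1 _ h, h⟩

/-- a homogeneous polynomial in two variables -/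
private theorem hom2 {w : ℕ} {P : MvPolynomial (Fin 2) ℂ} (hP : P.IsHomogeneous w) :
    ∃ c : ℕ → ℂ, ∀ F : Fin 2 → ℂ⟦X⟧, MvPolynomial.aeval F P =
      ∑ i ∈ Finset.range (w + 1), c i • (F 0 ^ (w - i) * F 1 ^ i) := by
  refine ⟨fun i => ∑ d ∈ P.support.filter (fun d => d 1 = i), P.coeff d, fun F => ?_⟩
  rw [MvPolynomial.aeval_def, MvPolynomial.eval₂_eq']
  have hdeg : ∀ d ∈ P.support, d 0 + d 1 = w := by
    intro d hd
    have := hP (MvPolynomial.mem_support_iff.1 hd)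
    rw [Finsupp.weight_apply] at this
    simpa [Finsupp.sum_fintype] using this
  rw [← Finset.sum_fiberwise_of_maps_to (s := P.support) (t := Finset.range (w + 1)) (g := fun d => d 1)
    (fun d hd => Finset.mem_range.2 (by have := hdeg d hd; omega))]
  refine Finset.sum_congr rfl fun i _ => ?_
  rw [Finset.sum_smul]
  refine Finset.sum_congr rfl fun d hd => ?_
  rw [Finset.mem_filter] at hd
  have h1 := hdeg d hd.1
  have h2 := hd.2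
  rw [Fin.prod_univ_two, ← h2, show w - d 1 = d 0 by omega, Algebra.smul_def]

/-- the first seven coefficients -/
private structure S7 (f : ℂ⟦X⟧) (a0 a1 a2 a3 a4 a5 a6 : ℂ) : Prop where
  c0 : coeff 0 f = a0
  c1 : coeff 1 f = a1
  c2 : coeff 2 f = a2
  c3 : coeff 3 f = a3
  c4 : coeff 4 f = a4
  c5 : coeff 5 f = a5
  c6 : coeff 6 f = a6

private theorem S7.mul {f g : ℂ⟦X⟧} {a0 a1 a2 a3 a4 a5 a6 b0 b1 b2 b3 b4 b5 b6 : ℂ}
    (hf : S7 f a0 a1 a2 a3 a4 a5 a6) (hg : S7 g b0 b1 b2 b3 b4 b5 b6) :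
    S7 (f * g) (a0 * b0) (a0 * b1 + a1 * b0) (a0 * b2 + a1 * b1 + a2 * b0)
      (a0 * b3 + a1 * b2 + a2 * b1 + a3 * b0) (a0 * b4 + a1 * b3 + a2 * b2 + a3 * b1 + a4 * b0)
      (a0 * b5 + a1 * b4 + a2 * b3 + a3 * b2 + a4 * b1 + a5 * b0)
      (a0 * b6 + a1 * b5 + a2 * b4 + a3 * b3 + a4 * b2 + a5 * b1 + a6 * b0) := by
  constructor <;>
  · rw [coeff_mul, Finset.Nat.sum_antidiagonal_eq_sum_range_succ_mk]
    simp only [Finset.sum_range_succ, Finset.sum_range_zero, zero_add, Nat.sub_zero, Nat.sub_self,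
      Nat.reduceSub, hf.c0, hf.c1, hf.c2, hf.c3, hf.c4, hf.c5, hf.c6, hg.c0, hg.c1, hg.c2, hg.c3, hg.c4,
      hg.c5, hg.c6]

private theorem S7.cast {f : ℂ⟦X⟧} {a0 a1 a2 a3 a4 a5 a6 b0 b1 b2 b3 b4 b5 b6 : ℂ}
    (hf : S7 f a0 a1 a2 a3 a4 a5 a6) (h0 : a0 = b0) (h1 : a1 = b1) (h2 : a2 = b2) (h3 : a3 = b3)
    (h4 : a4 = b4) (h5 : a5 = b5) (h6 : a6 = b6) : S7 f b0 b1 b2 b3 b4 b5 b6 := by
  subst h0 h1 h2 h3 h4 h5 h6
  exact hf

private theorem s7_A : S7 Aq 1 0 0 6 0 0 0 := by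
  constructor <;> rw [Aq, coeff_map]
  · rw [Az_zero]; simp
  · rw [Az_gr 1 (by norm_num)]; simp
  · rw [Az_gr 2 (by norm_num)]; simp
  · rw [Az_three]; simp
  · rw [Az_gr 4 (by norm_num)]; simp
  · rw [Az_gr 5 (by norm_num)]; simp
  · rw [Az_six]; simp

private theorem s7_Y : S7 Yq 0 3 0 0 3 0 0 := by
  have e : ∀ n, coeff n Yq = 3 * ((coeff n Kz : ℤ) : ℂ) := by
    intro n
    rw [Yq, coeff_map, show (3 : ℤ⟦X⟧) = PowerSeries.C (3 : ℤ) by simp, PowerSeries.coeff_C_mul]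
    simp
  constructor <;> rw [e]
  · rw [PowerSeries.coeff_zero_eq_constantCoeff_apply, Kz_const]; simp
  · rw [Kz_one]; simp
  · rw [Kz_gr 2 (by norm_num)]; simp
  · rw [Kz_gr 3 (by norm_num)]; simp
  · rw [Kz_four]; simp
  · rw [Kz_gr 5 (by norm_num)]; simp
  · rw [Kz_gr 6 (by norm_num)]; simp

private theorem s7_A2 : S7 (Aq ^ 2) 1 0 0 12 0 0 36 := by
  rw [pow_two]
  apply (s7_A.mul s7_A).cast <;> norm_num

private theorem s7_A4 : S7 (Aq ^ 4) 1 0 0 24 0 0 216 := by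
  rw [show Aq ^ 4 = Aq ^ 2 * Aq ^ 2 by ring]
  apply (s7_A2.mul s7_A2).cast <;> norm_num

private theorem s7_Y2 : S7 (Yq ^ 2) 0 0 9 0 0 18 0 := by
  rw [pow_two]
  apply (s7_Y.mul s7_Y).cast <;> norm_num

private theorem s7_Y4 : S7 (Yq ^ 4) 0 0 0 0 81 0 0 := by
  rw [show Yq ^ 4 = Yq ^ 2 * Yq ^ 2 by ring]
  apply (s7_Y2.mul s7_Y2).cast <;> norm_num

private theorem s7_AY : S7 (Aq * Yq) 0 3 0 0 21 0 0 := by
  apply (s7_A.mul s7_Y).cast <;> norm_num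

private theorem s7_A2Y2 : S7 (Aq ^ 2 * Yq ^ 2) 0 0 9 0 0 126 0 := by
  apply (s7_A2.mul s7_Y2).cast <;> norm_num

private theorem s7_e4 : S7 (V 3 (e4 ℂ)) 1 0 0 240 0 0 2160 := by
  have e : ∀ n, coeff n (e4 ℂ) = ((coeff n E4z : ℤ) : ℂ) := fun n => by
    rw [e4, coeff_map]; simp
  have h2 : ArithmeticFunction.sigma 3 2 = 9 := by decide
  constructor <;> rw [coeff_V]
  · rw [if_pos (by norm_num), e, coeff_E4z]; simp
  · rw [if_neg (by norm_num)]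
  · rw [if_neg (by norm_num)]
  · rw [if_pos (by norm_num), e, coeff_E4z]; norm_num
  · rw [if_neg (by norm_num)]
  · rw [if_neg (by norm_num)]
  · rw [if_pos (by norm_num), e, coeff_E4z]
    norm_num [h2]

private theorem s7_e6 : S7 (V 3 (e6 ℂ)) 1 0 0 (-504) 0 0 (-16632) := by
  have e : ∀ n, coeff n (e6 ℂ) = ((coeff n E6z : ℤ) : ℂ) := fun n => by
    rw [e6, coeff_map]; simp
  have h2 : ArithmeticFunction.sigma 5 2 = 33 := by decide
  constructor <;> rw [coeff_V]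
  · rw [if_pos (by norm_num), e, coeff_E6z]; simp
  · rw [if_neg (by norm_num)]
  · rw [if_neg (by norm_num)]
  · rw [if_pos (by norm_num), e, coeff_E6z]; norm_num
  · rw [if_neg (by norm_num)]
  · rw [if_neg (by norm_num)]
  · rw [if_pos (by norm_num), e, coeff_E6z]
    norm_num [h2]

private theorem expand {w : ℕ} {f : ℍ → ℂ} {F : ℂ⟦X⟧} (hf : MF w f) (hF : Ser f F) :
    ∃ c : ℕ → ℂ, F = ∑ i ∈ Finset.range (w + 1), c i • (Aq ^ (w - i) * Yq ^ i) := by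
  obtain ⟨P, hP, hfP⟩ := str w hf
  obtain ⟨c, hc⟩ := hom2 hP
  refine ⟨c, ?_⟩
  have h1 : Ser f (MvPolynomial.aeval ![Aq, Yq] P) := by
    have := Ser.aeval (f := ![Af, Yf]) (F := ![Aq, Yq]) (fun i => by
      fin_cases i
      · exact ser_A
      · exact ser_Y) P
    rw [hfP]
    convert this using 1
    funext τ
    unfold ev
    congr 2
    funext i
    fin_cases i <;> rfl
  rw [Ser.unique hF h1, hc]
  rfl

theorem h4 : V 3 (e4 ℂ) = Aq * (Aq ^ 3 + 8 * Yq ^ 3) := by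
  obtain ⟨c, hc⟩ := expand mf_E4.1 mf_E4.2
  have hc' : V 3 (e4 ℂ) = c 0 • Aq ^ 4 + c 1 • (Aq ^ 2 * (Aq * Yq)) + c 2 • (Aq ^ 2 * Yq ^ 2) +
      c 3 • (Aq * Yq * Yq ^ 2) + c 4 • Yq ^ 4 := by
    rw [hc]
    simp only [Finset.sum_range_succ, Finset.sum_range_zero, PowerSeries.smul_eq_C_mul]
    norm_num
    ring
  have hA3Y := s7_A2.mul s7_AY
  have hAY3 := s7_AY.mul s7_Y2
  have e0 := congrArg (coeff 0) hc'
  have e1 := congrArg (coeff 1) hc'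
  have e2 := congrArg (coeff 2) hc'
  have e3 := congrArg (coeff 3) hc'
  have e4' := congrArg (coeff 4) hc'
  simp only [map_add, map_smul, smul_eq_mul, s7_e4.c0, s7_e4.c1, s7_e4.c2, s7_e4.c3, s7_e4.c4,
    s7_A4.c0, s7_A4.c1, s7_A4.c2, s7_A4.c3, s7_A4.c4, hA3Y.c0, hA3Y.c1, hA3Y.c2, hA3Y.c3, hA3Y.c4,
    s7_A2Y2.c0, s7_A2Y2.c1, s7_A2Y2.c2, s7_A2Y2.c3, s7_A2Y2.c4, hAY3.c0, hAY3.c1, hAY3.c2, hAY3.c3,
    hAY3.c4, s7_Y4.c0, s7_Y4.c1, s7_Y4.c2, s7_Y4.c3, s7_Y4.c4] at e0 e1 e2 e3 e4'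
  have k0 : c 0 = 1 := by linear_combination -e0
  have k1 : c 1 = 0 := by linear_combination (-1 / 3 : ℂ) * e1
  have k2 : c 2 = 0 := by linear_combination (-1 / 9 : ℂ) * e2
  have k3 : c 3 = 8 := by linear_combination (-1 / 27 : ℂ) * e3 - (24 / 27 : ℂ) * k0
  have k4 : c 4 = 0 := by linear_combination (-1 / 81 : ℂ) * e4' - (57 / 81 : ℂ) * k1
  rw [hc', k0, k1, k2, k3, k4]
  simp only [PowerSeries.smul_eq_C_mul, map_zero, map_one, map_ofNat]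
  ring

theorem h6 : V 3 (e6 ℂ) = Aq ^ 6 - 20 * Aq ^ 3 * Yq ^ 3 - 8 * Yq ^ 6 := by
  obtain ⟨c, hc⟩ := expand mf_E6.1 mf_E6.2
  have hc' : V 3 (e6 ℂ) = c 0 • (Aq ^ 4 * Aq ^ 2) + c 1 • (Aq ^ 4 * (Aq * Yq)) +
      c 2 • (Aq ^ 4 * Yq ^ 2) + c 3 • (Aq ^ 2 * Yq ^ 2 * (Aq * Yq)) + c 4 • (Aq ^ 2 * Yq ^ 4) +
      c 5 • (Aq * Yq * Yq ^ 4) + c 6 • (Yq ^ 2 * Yq ^ 4) := by
    rw [hc]
    simp only [Finset.sum_range_succ, Finset.sum_range_zero, PowerSeries.smul_eq_C_mul]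
    norm_num
    ring
  have t0 := s7_A4.mul s7_A2
  have t1 := s7_A4.mul s7_AY
  have t2 := s7_A4.mul s7_Y2
  have t3 := s7_A2Y2.mul s7_AY
  have t4 := s7_A2.mul s7_Y4
  have t5 := s7_AY.mul s7_Y4
  have t6 := s7_Y2.mul s7_Y4
  have e0 := congrArg (coeff 0) hc'
  have e1 := congrArg (coeff 1) hc'
  have e2 := congrArg (coeff 2) hc'
  have e3 := congrArg (coeff 3) hc'
  have e4' := congrArg (coeff 4) hc'
  have e5 := congrArg (coeff 5) hc'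
  have e6' := congrArg (coeff 6) hc'
  simp only [map_add, map_smul, smul_eq_mul, s7_e6.c0, s7_e6.c1, s7_e6.c2, s7_e6.c3, s7_e6.c4,
    s7_e6.c5, s7_e6.c6, t0.c0, t0.c1, t0.c2, t0.c3, t0.c4, t0.c5, t0.c6, t1.c0, t1.c1, t1.c2, t1.c3,
    t1.c4, t1.c5, t1.c6, t2.c0, t2.c1, t2.c2, t2.c3, t2.c4, t2.c5, t2.c6, t3.c0, t3.c1, t3.c2, t3.c3,
    t3.c4, t3.c5, t3.c6, t4.c0, t4.c1, t4.c2, t4.c3, t4.c4, t4.c5, t4.c6, t5.c0, t5.c1, t5.c2, t5.c3,
    t5.c4, t5.c5, t5.c6, t6.c0, t6.c1, t6.c2, t6.c3, t6.c4, t6.c5, t6.c6] at e0 e1 e2 e3 e4' e5 e6'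
  have k0 : c 0 = 1 := by linear_combination -e0
  have k1 : c 1 = 0 := by linear_combination (-1 / 3 : ℂ) * e1
  have k2 : c 2 = 0 := by linear_combination (-1 / 9 : ℂ) * e2
  have k3 : c 3 = -20 := by linear_combination (-1 / 27 : ℂ) * e3 - (36 / 27 : ℂ) * k0
  have k4 : c 4 = 0 := by linear_combination (-1 / 81 : ℂ) * e4' - (93 / 81 : ℂ) * k1
  have k5 : c 5 = 0 := by linear_combination (-1 / 243 : ℂ) * e5 - (234 / 243 : ℂ) * k2
  have k6 : c 6 = -8 := by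
    linear_combination (-1 / 729 : ℂ) * e6' - (540 / 729 : ℂ) * k0 - (567 / 729 : ℂ) * k3
  rw [hc', k0, k1, k2, k3, k4, k5, k6]
  simp only [PowerSeries.smul_eq_C_mul, map_zero, map_one, map_ofNat, map_neg]
  ring

end Pool.Agent.Lib.MP_06b9d2_tls.An
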