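import Pool.Agent.Lib.MP_06b9d2_tls.An.Hk
import Pool.Agent.Lib.MP_06b9d2_tls.An.Bb
import Pool.Agent.Lib.MP_06b9d2_tls.An.Ef

/-!
Module TLS-A-CoreEx: the analytic package.
-/

namespace Pool.Agent.Lib.MP_06b9d2_tls.An

open UpperHalfPlane hiding I
open Complex ModularForm PowerSeries Filter
open scoped Real MatrixGroups Manifold Topology

theorem core_ex : ∃ A Y : ℂ⟦X⟧, Core A Y := by
  obtain ⟨B, hB, hB0⟩ := Xz_int
  refine ⟨Aq, Yq, ⟨⟨B + Kz, Kz, ?_, ?_, ?_, Kz_const, Kz_one⟩, ?_, ?_, h4, h6, b1, b2, hk⟩⟩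
  · rw [Aq, hB]
    simp only [map_add, map_mul, map_one, map_ofNat]
    ring
  · rw [Yq]
    simp only [map_mul, map_ofNat]
  · simp [hB0, Kz_const]
  · intro n hn
    rw [Aq, coeff_map, Az_gr n hn, map_zero]
  · intro n hn
    rw [Yq, coeff_map]
    have : coeff n (3 * Kz) = 3 * coeff n Kz := by
      rw [show (3 : ℤ⟦X⟧) = PowerSeries.C (3 : ℤ) from (map_ofNat PowerSeries.C 3).symm, coeff_C_mul]
    rw [this, Kz_gr n hn]
    simp

end Pool.Agent.Lib.MP_06b9d2_tls.An
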