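import Pool.Agent.Lib.MP_06b9d2_tls.An.ADef
import Pool.Agent.Lib.MP_06b9d2_nt.MD.Jac

/-!
Module TLS-A-Fml: formal properties of the expansions: integrality, gradings, small coefficients.

PROOFS. `V_eq_expand`: `PowerSeries.coeff_expand`-lemmas. `Pz_Rz`: `PowerSeries.mul_invOfUnit` (constant coefficient of `Vz 3 Pz` is 1; `PowerSeries.coeff_pentagonalSeries_pentagonal` at 0).
`Xz_int`: `f(x)^3 = f(x^3)` modulo 3 for every `f ∈ ℤ⟦X⟧` (see `frob_p` in Pool/Agent/Lib/MP_06b9d2_nt/MD/Frob.lean or ME/FrobP.lean): `Pz^3 = Vz 3 Pz + 3 C`, multiply by `Rz`;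
constant coefficients: `Pz` and `Rz` have constant coefficient 1. `Kz_*`: `Kz = X * (series in x^3)` (`Rz` is a series in `x^3`: e.g. it is `Vz 3` of the inverse of `Pz`, since
`Vz 3` is a ring homomorphism; or by strong induction from `Pz_Rz`). `Az_gr`: `(Xz + 3 Kz) = (Pz^3 + 3 X (Vz 9 Pz)^3) * Rz` and `Rz` is a series in `x^3`, so it is enough that
`Pz^3 + 3 X Vz 9 (Pz^3)` is a series in `x^3`; Jacobi (`MD.jacobi : pentagonalSeries ^ 3 = Fz`, `Fz` has the coefficient `(-1)^u (2u+1)` at `u(u+1)/2`, see MD/Coef.lean `Fz_tri`, `Fz_ne`):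
`u(u+1)/2` is 0 modulo 3 for `u = 0, 2` mod 3, and 1 modulo 3 for `u = 3v+1`, where `u(u+1)/2 = 1 + 9 v(v+1)/2` and `(-1)^u (2u+1) = -3 (-1)^v (2v+1)`.
Small coefficients: `Pz = 1 - x - x^2 + x^5 + x^7 - ...` (`coeff_pentagonalSeries_*`), e.g. compute modulo `x^8` with the relation `Kz * Vz 3 Pz = X * Vz 9 Pz ^ 3` coefficient by coefficient
(`PowerSeries.coeff_mul`, `Finset.Nat.antidiagonal_succ`): `Kz = x + x^4 + 2 x^7 + ...`, `Xz + 3 Kz = 1 + 6 x^3 + 0 x^6 + ...` (`Pz^3 = Fz = 1 - 3x + 5x^3 - 7x^6 + ...`).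
-/

namespace Pool.Agent.Lib.MP_06b9d2_tls.An

open UpperHalfPlane hiding I
open Complex ModularForm PowerSeries Filter
open scoped Real MatrixGroups Manifold Topology

theorem V_eq_expand (n : ℕ) (hn : n ≠ 0) (f : ℂ⟦X⟧) : V n f = PowerSeries.expand n hn f := by
  ext m
  rw [PowerSeries.coeff_expand, V, coeff_mk]

theorem coeff_V (n m : ℕ) (f : ℂ⟦X⟧) : coeff m (V n f) = if n ∣ m then coeff (m / n) f else 0 := by
  rw [V, coeff_mk]

private theorem Vz_eq (n : ℕ) (hn : n ≠ 0) (f : ℤ⟦X⟧) : Vz n f = PowerSeries.expand n hn f := by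
  ext m
  rw [PowerSeries.coeff_expand, Vz, coeff_mk]

private theorem Pz_zero : coeff 0 Pz = 1 := by
  have h := coeff_pentagonalSeries_pentagonal ℤ 0
  have h0 : pentagonal 0 = 0 := by decide
  rw [h0] at h
  rw [Pz, h]
  simp

private theorem Pz_one : coeff 1 Pz = -1 := by
  have h := coeff_pentagonalSeries_pentagonal ℤ 1
  have h0 : pentagonal 1 = 1 := by decide
  rw [h0] at h
  rw [Pz, h]
  simp

private theorem Pz_two : coeff 2 Pz = -1 := by
  have h := coeff_pentagonalSeries_pentagonal ℤ (-1)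
  have h0 : pentagonal (-1) = 2 := by decide
  rw [h0] at h
  rw [Pz, h]
  simp

private theorem Pz_const : constantCoeff Pz = 1 := by
  rw [← coeff_zero_eq_constantCoeff_apply, Pz_zero]

private theorem V3P_const : constantCoeff (Vz 3 Pz) = 1 := by
  rw [Vz_eq 3 (by norm_num), PowerSeries.constantCoeff_expand, Pz_const]

theorem Pz_Rz : Vz 3 Pz * Rz = 1 := by
  rw [Rz, mul_invOfUnit]
  rw [V3P_const, Units.val_one]

/-- the inverse of `Pz` -/
private noncomputable def Ri : ℤ⟦X⟧ := PowerSeries.invOfUnit Pz 1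

private theorem Pz_Ri : Pz * Ri = 1 := by
  rw [Ri, mul_invOfUnit]
  rw [Pz_const, Units.val_one]

private theorem Rz_eq : Rz = PowerSeries.expand 3 (by norm_num) Ri := by
  have h1 : Vz 3 Pz * PowerSeries.expand 3 (by norm_num) Ri = 1 := by
    rw [Vz_eq 3 (by norm_num), ← map_mul, Pz_Ri, map_one]
  calc Rz = Rz * (Vz 3 Pz * PowerSeries.expand 3 (by norm_num) Ri) := by rw [h1, mul_one]
    _ = (Vz 3 Pz * Rz) * PowerSeries.expand 3 (by norm_num) Ri := by ring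
    _ = _ := by rw [Pz_Rz, one_mul]

private theorem Rz_const : constantCoeff Rz = 1 := by
  have h := congrArg constantCoeff Pz_Rz
  rw [map_mul, V3P_const, one_mul, map_one] at h
  exact h

private theorem cube_mod (f : ℤ⟦X⟧) : ∃ C : ℤ⟦X⟧, f ^ 3 = Vz 3 f + 3 * C := by
  have hp : Fact (Nat.Prime 3) := ⟨Nat.prime_three⟩
  have h : PowerSeries.map (Int.castRingHom (ZMod 3)) (f ^ 3) =
      PowerSeries.map (Int.castRingHom (ZMod 3)) (Vz 3 f) := by
    rw [Vz_eq 3 (by norm_num), PowerSeries.map_expand, map_pow]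
    have h1 := MvPowerSeries.map_frobenius_expand (σ := Unit) (R := ZMod 3) 3 (by norm_num)
      (f := PowerSeries.map (Int.castRingHom (ZMod 3)) f)
    rw [← h1, ZMod.frobenius_zmod, MvPowerSeries.map_id]
    rfl
  have h2 : ∀ n, ∃ c : ℤ, coeff n (f ^ 3) - coeff n (Vz 3 f) = 3 * c := by
    intro n
    have h3 := congrArg (coeff n) h
    rw [coeff_map, coeff_map] at h3
    have h4 : ((coeff n (f ^ 3) - coeff n (Vz 3 f) : ℤ) : ZMod 3) = 0 := by
      push_cast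
      simp only [eq_intCast] at h3
      rw [h3, sub_self]
    exact (ZMod.intCast_zmod_eq_zero_iff_dvd _ 3).1 h4
  choose c hc using h2
  refine ⟨PowerSeries.mk c, ?_⟩
  ext n
  have h3 : (3 : ℤ⟦X⟧) = PowerSeries.C 3 := by simp
  rw [map_add, h3, coeff_C_mul, coeff_mk, ← hc]
  ring

/-- `X = 1` modulo `3` -/
theorem Xz_int : ∃ B : ℤ⟦X⟧, Xz = 1 + 3 * B ∧ constantCoeff B = 0 := by
  obtain ⟨C, hC⟩ := cube_mod Pz
  have h : Xz = 1 + 3 * (C * Rz) := by
    rw [Xz, hC, add_mul, Pz_Rz]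
    ring
  refine ⟨C * Rz, h, ?_⟩
  have h1 := congrArg constantCoeff h
  rw [Xz, map_mul, map_pow, Pz_const, Rz_const, map_add, map_one, map_mul] at h1
  have h3 : constantCoeff (3 : ℤ⟦X⟧) = 3 := map_ofNat _ 3
  rw [h3] at h1
  omega

private theorem Kz_eq : Kz = PowerSeries.X * (Vz 9 Pz ^ 3 * Rz) := by
  rw [Kz, mul_assoc]

theorem Kz_const : constantCoeff Kz = 0 := by
  rw [Kz_eq, map_mul, constantCoeff_X, zero_mul]

theorem Kz_one : coeff 1 Kz = 1 := by
  rw [Kz_eq]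
  have h := coeff_succ_X_mul 0 (Vz 9 Pz ^ 3 * Rz)
  rw [zero_add] at h
  rw [h, coeff_zero_eq_constantCoeff_apply, map_mul, map_pow, Rz_const, Vz_eq 9 (by norm_num),
    PowerSeries.constantCoeff_expand, Pz_const]
  norm_num

private theorem V9_eq (f : ℤ⟦X⟧) : Vz 9 f =
    PowerSeries.expand 3 (by norm_num) (PowerSeries.expand 3 (by norm_num) f) := by
  rw [Vz_eq 9 (by norm_num), ← PowerSeries.expand_mul]

theorem Kz_gr (n : ℕ) (hn : n % 3 ≠ 1) : coeff n Kz = 0 := by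
  rw [Kz_eq, V9_eq, Rz_eq, ← map_pow, ← map_mul]
  rcases n with _ | n
  · rw [coeff_zero_X_mul]
  · rw [coeff_succ_X_mul]
    apply PowerSeries.coeff_expand_of_not_dvd
    omega

/-- series in `x ^ 3` -/
private theorem gr_mul {f g : ℤ⟦X⟧} (hf : ∀ n, n % 3 ≠ 0 → coeff n f = 0) (hg : ∀ n, n % 3 ≠ 0 → coeff n g = 0)
    (n : ℕ) (hn : n % 3 ≠ 0) : coeff n (f * g) = 0 := by
  rw [coeff_mul]
  apply Finset.sum_eq_zero
  rintro ⟨i, j⟩ hij
  rw [Finset.HasAntidiagonal.mem_antidiagonal] at hij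
  simp only at hij ⊢
  by_cases hi : i % 3 = 0
  · rw [hg j (by omega), mul_zero]
  · rw [hf i hi, zero_mul]

open Pool.Agent.Lib.MP_06b9d2_nt in
private theorem Fz_tri (u m : ℕ) (h : u * (u + 1) = 2 * m) : coeff m Fz = (-1) ^ u * (2 * (u : ℤ) + 1) := by
  rw [Fz, coeff_mk]
  have hu : u ≤ m := by
    rcases Nat.eq_zero_or_pos u with h0 | h0
    · omega
    · nlinarith
  rw [Finset.sum_eq_single u, if_pos h]
  · intro v _ hv
    rw [if_neg]
    intro h1
    apply hv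
    have h2 : v * (v + 1) = u * (u + 1) := by rw [h1, h]
    nlinarith [sq_nonneg ((v : ℤ) - u), Nat.lt_or_gt_of_ne hv]
  · intro h1
    exact absurd (Finset.mem_range.2 (by omega)) h1

open Pool.Agent.Lib.MP_06b9d2_nt in
private theorem Fz_ne (m : ℕ) (h : ∀ u : ℕ, u * (u + 1) ≠ 2 * m) : coeff m Fz = 0 := by
  rw [Fz, coeff_mk]
  apply Finset.sum_eq_zero
  intro u _
  rw [if_neg (h u)]

private theorem P3 : Pz ^ 3 = Pool.Agent.Lib.MP_06b9d2_nt.Fz := Pool.Agent.Lib.MP_06b9d2_nt.jacobi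

/-- `P ^ 3 + 3 x P(x ^ 9) ^ 3` -/
private noncomputable def Gz : ℤ⟦X⟧ := Pz ^ 3 + 3 * (PowerSeries.X * Vz 9 Pz ^ 3)

private theorem Az_eq : Xz + 3 * Kz = Gz * Rz := by
  rw [Xz, Kz_eq, Gz]
  ring

private theorem Gz_coeff (n : ℕ) : coeff (n + 1) Gz = coeff (n + 1) Pool.Agent.Lib.MP_06b9d2_nt.Fz +
    3 * (if 9 ∣ n then coeff (n / 9) Pool.Agent.Lib.MP_06b9d2_nt.Fz else 0) := by
  have h3 : (3 : ℤ⟦X⟧) = PowerSeries.C 3 := by simp
  rw [Gz, map_add, P3, h3, coeff_C_mul, coeff_succ_X_mul, Vz_eq 9 (by norm_num), ← map_pow, P3,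
    PowerSeries.coeff_expand]

private theorem Gz_gr (n : ℕ) (hn : n % 3 ≠ 0) : coeff n Gz = 0 := by
  obtain ⟨k, rfl⟩ : ∃ k, n = k + 1 := ⟨n - 1, by omega⟩
  rw [Gz_coeff]
  by_cases h : ∃ u : ℕ, u * (u + 1) = 2 * (k + 1)
  · obtain ⟨u, hu⟩ := h
    obtain ⟨v, rfl⟩ : ∃ v, u = 3 * v + 1 := by
      have h3 : u % 3 = 1 := by
        by_contra h4
        have h5 : u % 3 = 0 ∨ u % 3 = 2 := by omega
        rcases h5 with h5 | h5
        · obtain ⟨w, rfl⟩ : ∃ w, u = 3 * w := ⟨u / 3, by omega⟩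
          have h6 : 3 * w * (3 * w + 1) = 3 * (w * (3 * w + 1)) := by ring
          rw [h6] at hu
          omega
        · obtain ⟨w, rfl⟩ : ∃ w, u = 3 * w + 2 := ⟨u / 3, by omega⟩
          have h6 : (3 * w + 2) * (3 * w + 2 + 1) = 3 * ((3 * w + 2) * (w + 1)) := by ring
          rw [h6] at hu
          omega
      exact ⟨u / 3, by omega⟩
    have h6 : (3 * v + 1) * (3 * v + 1 + 1) = 9 * (v * (v + 1)) + 2 := by ring
    have h7 : 9 * (v * (v + 1)) = 2 * k := by omega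
    have h8 : 9 ∣ k := by omega
    have h9 : v * (v + 1) = 2 * (k / 9) := by omega
    rw [if_pos h8, Fz_tri _ _ hu, Fz_tri _ _ h9]
    have h10 : (-1 : ℤ) ^ (3 * v + 1) = -(-1) ^ v := by
      rw [pow_succ, pow_mul]
      norm_num
    rw [h10]
    push_cast
    ring
  · push Not at h
    rw [Fz_ne _ h]
    by_cases h9 : 9 ∣ k
    · rw [if_pos h9, Fz_ne]
      · norm_num
      · intro v hv
        apply h (3 * v + 1)
        have h6 : (3 * v + 1) * (3 * v + 1 + 1) = 9 * (v * (v + 1)) + 2 := by ring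
        rw [h6, hv]
        omega
    · rw [if_neg h9]
      norm_num

/-- from Jacobi's identity `P ^ 3 = ∑ (-1) ^ u (2 u + 1) x ^ (u (u + 1) / 2)` -/
theorem Az_gr (n : ℕ) (hn : n % 3 ≠ 0) : coeff n (Xz + 3 * Kz) = 0 := by
  rw [Az_eq]
  refine gr_mul Gz_gr ?_ n hn
  intro m hm
  rw [Rz_eq]
  apply PowerSeries.coeff_expand_of_not_dvd
  omega

private theorem Gz_zero : coeff 0 Gz = 1 := by
  rw [Gz, map_add, coeff_zero_eq_constantCoeff_apply, coeff_zero_eq_constantCoeff_apply, map_pow, Pz_const,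
    map_mul, map_mul, constantCoeff_X]
  norm_num

private theorem Gz_three : coeff 3 Gz = 5 := by
  have h := Gz_coeff 2
  rw [if_neg (by norm_num), Fz_tri 2 3 (by norm_num)] at h
  norm_num at h
  exact h

private theorem Gz_six : coeff 6 Gz = -7 := by
  have h := Gz_coeff 5
  rw [if_neg (by norm_num), Fz_tri 3 6 (by norm_num)] at h
  norm_num at h
  exact h

private theorem V3P (n : ℕ) : coeff n (Vz 3 Pz) = if 3 ∣ n then coeff (n / 3) Pz else 0 := by
  rw [Vz, coeff_mk]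

private theorem c3 (f : ℤ⟦X⟧) : coeff 3 (f * Vz 3 Pz) = coeff 3 f - coeff 0 f := by
  simp only [coeff_mul, Finset.Nat.antidiagonal_succ, Finset.Nat.antidiagonal_zero, V3P]
  norm_num [Pz_zero, Pz_one, Pz_two]
  ring

private theorem c4 (f : ℤ⟦X⟧) : coeff 4 (f * Vz 3 Pz) = coeff 4 f - coeff 1 f := by
  simp only [coeff_mul, Finset.Nat.antidiagonal_succ, Finset.Nat.antidiagonal_zero, V3P]
  norm_num [Pz_zero, Pz_one, Pz_two]
  ring

private theorem c6 (f : ℤ⟦X⟧) : coeff 6 (f * Vz 3 Pz) = coeff 6 f - coeff 3 f - coeff 0 f := by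
  simp only [coeff_mul, Finset.Nat.antidiagonal_succ, Finset.Nat.antidiagonal_zero, V3P]
  norm_num [Pz_zero, Pz_one, Pz_two]
  ring

private theorem c7 (f : ℤ⟦X⟧) : coeff 7 (f * Vz 3 Pz) = coeff 7 f - coeff 4 f - coeff 1 f := by
  simp only [coeff_mul, Finset.Nat.antidiagonal_succ, Finset.Nat.antidiagonal_zero, V3P]
  norm_num [Pz_zero, Pz_one, Pz_two]
  ring

private theorem Az_mul : (Xz + 3 * Kz) * Vz 3 Pz = Gz := by
  rw [Az_eq, mul_assoc, mul_comm Rz, Pz_Rz, mul_one]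

private theorem Kz_mul : Kz * Vz 3 Pz = PowerSeries.X * Vz 9 Pz ^ 3 := by
  rw [Kz, mul_assoc, mul_comm Rz, Pz_Rz, mul_one]

theorem Az_zero : coeff 0 (Xz + 3 * Kz) = 1 := by
  rw [Az_eq, coeff_zero_eq_constantCoeff_apply, map_mul, Rz_const, mul_one, ← coeff_zero_eq_constantCoeff_apply,
    Gz_zero]

theorem Az_three : coeff 3 (Xz + 3 * Kz) = 6 := by
  have h := c3 (Xz + 3 * Kz)
  rw [Az_mul, Gz_three, Az_zero] at h
  omega

theorem Az_six : coeff 6 (Xz + 3 * Kz) = 0 := by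
  have h := c6 (Xz + 3 * Kz)
  rw [Az_mul, Gz_six, Az_zero, Az_three] at h
  omega

theorem Kz_four : coeff 4 Kz = 1 := by
  have h := c4 Kz
  rw [Kz_mul, Kz_one, coeff_succ_X_mul, Vz_eq 9 (by norm_num), ← map_pow,
    PowerSeries.coeff_expand_of_not_dvd] at h
  · omega
  · norm_num

theorem Kz_seven : coeff 7 Kz = 2 := by
  have h := c7 Kz
  rw [Kz_mul, Kz_one, Kz_four, coeff_succ_X_mul, Vz_eq 9 (by norm_num), ← map_pow,
    PowerSeries.coeff_expand_of_not_dvd] at h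
  · omega
  · norm_num

end Pool.Agent.Lib.MP_06b9d2_tls.An
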