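import Pool.Agent.Lib.MP_06b9d2_tls.An.ADef

/-!
Module TLS-A-Grp: `Γ(3)` is the normal closure of `T ^ 3`.

PROOFS. `sl2_cases`: the set `C` of the `g` of this form contains 1 and is stable under right multiplication by `T`, `T⁻¹`, `S`, `S⁻¹` (use `Nn` normal:
`n' = r m r⁻¹`, `m = T^(±3)`): `T^a T = T^(a+1)` (a = 2: `T^3 ∈ Nn`), `T^a S T^b T^±1`: same; `T^a S`: fine (b = 0); `T^a S S = - T^a`; `T^a S T S = - T^a T⁻¹ S T⁻¹`
(`S T S = - T⁻¹ S T⁻¹`, check entries) ; `T^a S T^2 S = T^a (S T^3)(T⁻¹ S) = ((T^a S) T^3 (T^a S)⁻¹) T^a S T⁻¹ S` and `S T⁻¹ S = T S T` up to sign (check entries). Generators: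
`ModularGroup` / `SpecialLinearGroup.SL2Z_generators : closure {S, T} = ⊤` and `Subgroup.closure_induction_right` (or `closure_induction`). `mem_Nn`: all elements of `Nn` are
1 modulo 3 (`Nn ≤` kernel of the reduction `Matrix.SpecialLinearGroup.map (Int.castRingHom (ZMod 3))`, `Subgroup.normalClosure_le_normal`); so for `g = n r` the representative `r`
is 1 modulo 3: `T^a` only for a = 0, `-(T^a)` never (entry 0 0), `± T^a S T^b`: entry 1 0 is ±1, never.
-/

namespace Pool.Agent.Lib.MP_06b9d2_tls.An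

open UpperHalfPlane hiding I
open Complex ModularForm PowerSeries Filter
open scoped Real MatrixGroups Manifold Topology

private theorem grp_T3 : (ModularGroup.T ^ 3 : SL(2, ℤ)) ∈ Nn :=
  Subgroup.subset_normalClosure (Set.mem_singleton _)

private theorem grp_SS : ModularGroup.S * ModularGroup.S = (-1 : SL(2, ℤ)) := by
  decide +kernel

private theorem grp_STS : ModularGroup.S * ModularGroup.T * ModularGroup.S * ModularGroup.T * ModularGroup.S * ModularGroup.T = (-1 : SL(2, ℤ)) := by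
  decide +kernel

/-- closure in an abstract group -/
private theorem grp_abs {Q : Type*} [Group Q] (s t z : Q) (ht : t ^ 3 = 1) (hs : s * s = z) (hz : z * z = 1)
    (hc : ∀ x, x * z = z * x) (hst : s * t * s * t * s * t = z) (x : Q) (hx : x ∈ Subgroup.closure {s, t}) :
    ∃ e a b : ℕ, x = z ^ e * t ^ a ∨ x = z ^ e * (t ^ a * s * t ^ b) := by
  have hti : t⁻¹ = t ^ 2 := by
    rw [_root_.inv_eq_iff_mul_eq_one, ← pow_succ']; exact ht
  have hsi : s⁻¹ = z * s := by
    rw [_root_.inv_eq_iff_mul_eq_one, ← mul_assoc, hc, mul_assoc, hs, hz]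
  have hc2 : ∀ (e : ℕ) (x : Q), x * z ^ e = z ^ e * x := by
    intro e x
    have : Commute x z := hc x
    exact (this.pow_right e).eq
  have h1 : s * t * s = t ^ 2 * s * t ^ 2 := by
    have h4 : s * t * s = z * (t⁻¹ * s⁻¹ * t⁻¹) := by
      rw [← hst]; group
    rw [h4, hsi, hti, ← mul_assoc (t ^ 2) z s, hc (t ^ 2), mul_assoc z (t ^ 2) s, mul_assoc z _ (t ^ 2), ← mul_assoc z z, hz, one_mul]
  have h2 : s * t ^ 2 * s = z * (t * s * t) := by
    have h4 : s * t⁻¹ * s = z * (t * s * t) := by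
      have h5 : t * s * t = z * (s⁻¹ * t⁻¹ * s⁻¹) := by
        have h6 : s * (t * s * t) * (s * t) = z := by rw [← hst]; group
        have h7 : t * s * t = s⁻¹ * z * (s * t)⁻¹ := by rw [← h6]; group
        rw [h7, hc, mul_inv_rev]; group
      have h8 : s⁻¹ * t⁻¹ * s⁻¹ = s * t⁻¹ * s := by
        rw [hsi, mul_assoc z s, ← mul_assoc (z * (s * t⁻¹)) z s, hc, mul_assoc z _ s, mul_assoc z (s * t⁻¹) s,
          ← mul_assoc z z, hz, one_mul]
      rw [h5, h8, ← mul_assoc z z, hz, one_mul]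
    rwa [hti] at h4
  -- right multiplication by s
  have key : ∀ (b : ℕ), ∃ e a' b' : ℕ, s * t ^ b * s = z ^ e * t ^ a' ∨ s * t ^ b * s = z ^ e * (t ^ a' * s * t ^ b') := by
    intro b
    have hb : t ^ b = t ^ (b % 3) := by
      conv_lhs => rw [← Nat.div_add_mod b 3, pow_add, pow_mul, ht, one_pow, one_mul]
    rw [hb]
    have h3 : b % 3 < 3 := Nat.mod_lt _ (by norm_num)
    interval_cases h : b % 3
    · exact ⟨1, 0, 0, Or.inl (by simp [hs])⟩
    · exact ⟨0, 2, 2, Or.inr (by simp [h1])⟩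
    · exact ⟨1, 1, 1, Or.inr (by simp [h2])⟩
  have mulz : ∀ x : Q, (∃ e a b : ℕ, x = z ^ e * t ^ a ∨ x = z ^ e * (t ^ a * s * t ^ b)) →
      ∀ e, (∃ e' a b : ℕ, z ^ e * x = z ^ e' * t ^ a ∨ z ^ e * x = z ^ e' * (t ^ a * s * t ^ b)) := by
    rintro x ⟨e', a, b, h | h⟩ e
    · exact ⟨e + e', a, b, Or.inl (by rw [h, pow_add, mul_assoc])⟩
    · exact ⟨e + e', a, b, Or.inr (by rw [h, pow_add, mul_assoc (z ^ e) (z ^ e')])⟩
  have mult : ∀ x : Q, (∃ e a b : ℕ, x = z ^ e * t ^ a ∨ x = z ^ e * (t ^ a * s * t ^ b)) →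
      ∀ c, (∃ e' a b : ℕ, x * t ^ c = z ^ e' * t ^ a ∨ x * t ^ c = z ^ e' * (t ^ a * s * t ^ b)) := by
    rintro x ⟨e', a, b, h | h⟩ c
    · exact ⟨e', a + c, b, Or.inl (by rw [h, pow_add, mul_assoc])⟩
    · exact ⟨e', a, b + c, Or.inr (by rw [h, pow_add]; simp only [mul_assoc])⟩
  have multl : ∀ x : Q, (∃ e a b : ℕ, x = z ^ e * t ^ a ∨ x = z ^ e * (t ^ a * s * t ^ b)) →
      ∀ c, (∃ e' a b : ℕ, t ^ c * x = z ^ e' * t ^ a ∨ t ^ c * x = z ^ e' * (t ^ a * s * t ^ b)) := by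
    rintro x ⟨e', a, b, h | h⟩ c
    · exact ⟨e', c + a, b, Or.inl (by rw [h, pow_add, ← mul_assoc, hc2, mul_assoc])⟩
    · exact ⟨e', c + a, b, Or.inr (by rw [h, pow_add, ← mul_assoc, hc2]; simp only [mul_assoc])⟩
  have muls : ∀ x : Q, (∃ e a b : ℕ, x = z ^ e * t ^ a ∨ x = z ^ e * (t ^ a * s * t ^ b)) →
      (∃ e' a b : ℕ, x * s = z ^ e' * t ^ a ∨ x * s = z ^ e' * (t ^ a * s * t ^ b)) := by
    rintro x ⟨e', a, b, h | h⟩
    · exact ⟨e', a, 0, Or.inr (by rw [h, pow_zero, mul_one, mul_assoc])⟩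
    · have h8 := mulz _ (multl _ (key b) a) e'
      have h9 : x * s = z ^ e' * (t ^ a * (s * t ^ b * s)) := by rw [h]; simp only [mul_assoc]
      rw [h9]; exact h8
  induction hx using Subgroup.closure_induction_right with
  | one => exact ⟨0, 0, 0, Or.inl (by simp)⟩
  | mul_right x hx y hy ih =>
    rcases hy with rfl | hy
    · exact muls x ih
    · have hy' : y = t := hy
      rw [hy']
      have := mult x ih 1
      rwa [pow_one] at this
  | mul_inv_cancel x hx y hy ih =>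
    rcases hy with rfl | hy
    · rw [hsi, ← mul_assoc, hc, mul_assoc]
      have := mulz _ (muls x ih) 1
      rwa [pow_one] at this
    · have hy' : y = t := hy
      rw [hy', hti]
      exact mult x ih 2

/-- the representatives modulo `Nn`, up to sign -/
theorem sl2_cases (g : SL(2, ℤ)) : ∃ n ∈ Nn, ∃ a b : ℕ, a < 3 ∧ b < 3 ∧
    (g = n * ModularGroup.T ^ a ∨ g = n * -(ModularGroup.T ^ a) ∨
      g = n * (ModularGroup.T ^ a * ModularGroup.S * ModularGroup.T ^ b) ∨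
      g = n * -(ModularGroup.T ^ a * ModularGroup.S * ModularGroup.T ^ b)) := by
  have hN : Nn.Normal := Subgroup.normalClosure_normal
  set ϖ : SL(2, ℤ) →* (SL(2, ℤ) ⧸ Nn) := QuotientGroup.mk' Nn with hϖ
  have hsurj : Function.Surjective ϖ := QuotientGroup.mk'_surjective Nn
  have ht : (ϖ ModularGroup.T) ^ 3 = 1 := by
    rw [← map_pow]
    exact (QuotientGroup.eq_one_iff _).2 grp_T3
  have hm : (-1 : SL(2, ℤ)) * (-1) = 1 := by decide +kernel
  have hcl : ϖ g ∈ Subgroup.closure {ϖ ModularGroup.S, ϖ ModularGroup.T} := by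
    have h1 : g ∈ Subgroup.closure {ModularGroup.S, ModularGroup.T} := by
      rw [SpecialLinearGroup.SL2Z_generators]; trivial
    have h2 : ϖ g ∈ (Subgroup.closure {ModularGroup.S, ModularGroup.T}).map ϖ := ⟨g, h1, rfl⟩
    rw [MonoidHom.map_closure] at h2
    simpa [Set.image_pair] using h2
  obtain ⟨e, a, b, h⟩ := grp_abs (ϖ ModularGroup.S) (ϖ ModularGroup.T) (ϖ (-1)) ht
    (by rw [← map_mul, grp_SS]) (by rw [← map_mul, hm, map_one])
    (by
      intro x
      obtain ⟨y, rfl⟩ := hsurj x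
      rw [← map_mul, ← map_mul]
      congr 1
      simp)
    (by simp only [← map_mul]; rw [grp_STS]) (ϖ g) hcl
  have hred : ∀ a : ℕ, (ϖ ModularGroup.T) ^ a = (ϖ ModularGroup.T) ^ (a % 3) := by
    intro a
    conv_lhs => rw [← Nat.div_add_mod a 3, pow_add, pow_mul, ht, one_pow, one_mul]
  rw [hred a, hred b] at h
  have hfin : ∀ r : SL(2, ℤ), ϖ g = ϖ r → ∃ n ∈ Nn, g = n * r := by
    intro r hr
    refine ⟨g * r⁻¹, ?_, by group⟩
    have : ϖ (g * r⁻¹) = 1 := by rw [map_mul, map_inv, hr, mul_inv_cancel]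
    exact (QuotientGroup.eq_one_iff _).1 this
  have hneg : ∀ e : ℕ, (-1 : SL(2, ℤ)) ^ e = 1 ∨ (-1 : SL(2, ℤ)) ^ e = -1 := by
    intro e
    exact neg_one_pow_eq_or _ e
  have ha : a % 3 < 3 := Nat.mod_lt _ (by norm_num)
  have hb : b % 3 < 3 := Nat.mod_lt _ (by norm_num)
  rcases h with h | h
  · rw [← map_pow, ← map_pow, ← map_mul] at h
    obtain ⟨n, hn, h'⟩ := hfin _ h
    refine ⟨n, hn, a % 3, b % 3, ha, hb, ?_⟩
    rcases hneg e with h2 | h2
    · left; rw [h2, one_mul] at h'; exact h'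
    · right; left; rw [h2, neg_one_mul] at h'; exact h'
  · rw [← map_pow, ← map_pow, ← map_pow, ← map_mul, ← map_mul, ← map_mul] at h
    obtain ⟨n, hn, h'⟩ := hfin _ h
    refine ⟨n, hn, a % 3, b % 3, ha, hb, ?_⟩
    rcases hneg e with h2 | h2
    · right; right; left; rw [h2, one_mul] at h'; exact h'
    · right; right; right; rw [h2, neg_one_mul] at h'; exact h'

private theorem grp_ker (g : SL(2, ℤ)) :
    Matrix.SpecialLinearGroup.map (Int.castRingHom (ZMod 3)) g = 1 ↔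
      ((3 : ℤ) ∣ g.1 0 0 - 1) ∧ ((3 : ℤ) ∣ g.1 0 1) ∧ ((3 : ℤ) ∣ g.1 1 0) ∧ ((3 : ℤ) ∣ g.1 1 1 - 1) := by
  have h3 : ∀ x : ℤ, ((x : ZMod 3) = 0) ↔ (3 : ℤ) ∣ x := fun x => ZMod.intCast_zmod_eq_zero_iff_dvd x 3
  have h4 : ∀ x : ℤ, ((x : ZMod 3) = 1) ↔ (3 : ℤ) ∣ x - 1 := by
    intro x
    rw [← h3 (x - 1)]
    push_cast
    exact sub_eq_zero.symm
  rw [← h4, ← h4, ← h3, ← h3]
  constructor
  · intro h
    have h' : ∀ i j, ((g.1 i j : ℤ) : ZMod 3) = (1 : Matrix (Fin 2) (Fin 2) (ZMod 3)) i j := by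
      intro i j
      have := congrArg (fun M : Matrix.SpecialLinearGroup (Fin 2) (ZMod 3) => M.1 i j) h
      simpa using this
    exact ⟨by simpa using h' 0 0, by simpa using h' 0 1, by simpa using h' 1 0, by simpa using h' 1 1⟩
  · rintro ⟨h1, h2, h5, h6⟩
    ext i j
    fin_cases i <;> fin_cases j <;> simp [h1, h2, h5, h6]

/-- `g` is in the normal closure of `T ^ 3` if `g = 1` modulo `3` -/
theorem mem_Nn (g : SL(2, ℤ)) (h00 : (3 : ℤ) ∣ g.1 0 0 - 1) (h01 : (3 : ℤ) ∣ g.1 0 1)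
    (h10 : (3 : ℤ) ∣ g.1 1 0) (h11 : (3 : ℤ) ∣ g.1 1 1 - 1) : g ∈ Nn := by
  set φ := Matrix.SpecialLinearGroup.map (n := Fin 2) (Int.castRingHom (ZMod 3)) with hφ
  have hg : φ g = 1 := (grp_ker g).2 ⟨h00, h01, h10, h11⟩
  have hle : Nn ≤ φ.ker := by
    refine Subgroup.normalClosure_le_normal ?_
    intro x hx
    have hx' : x = ModularGroup.T ^ 3 := hx
    rw [hx']
    change φ (ModularGroup.T ^ 3) = 1
    decide +kernel
  obtain ⟨n, hn, a, b, ha, hb, h⟩ := sl2_cases g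
  have hr : ∀ r : SL(2, ℤ), g = n * r → φ r = 1 := by
    intro r hr
    have h1 : φ n = 1 := hle hn
    rw [hr, map_mul, h1, one_mul] at hg
    exact hg
  rcases h with h | h | h | h
  · have h2 := hr _ h
    interval_cases a
    · rw [h, pow_zero, mul_one]; exact hn
    · exact absurd h2 (by decide +kernel)
    · exact absurd h2 (by decide +kernel)
  · have h2 := hr _ h
    interval_cases a <;> exact absurd h2 (by decide +kernel)
  · have h2 := hr _ h
    interval_cases a <;> interval_cases b <;> exact absurd h2 (by decide +kernel)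
  · have h2 := hr _ h
    interval_cases a <;> interval_cases b <;> exact absurd h2 (by decide +kernel)

end Pool.Agent.Lib.MP_06b9d2_tls.An
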