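import Pool.Agent.Lib.MP_06b9d2_tls.An.TH
import Pool.Agent.Lib.MP_06b9d2_tls.An.Str

/-!
Module TLS-A-Hk: the field `hecke` of `Core`.

PROOF. `e = (e' : ℤ)`, `Pe l e'`. `f = ev P`; `THf l e w f ∈ MF w` (`mf_TH`), so `= ev P'` (`str`). Equality in `Fin 4 → ℂ⟦X⟧` componentwise (`MvPolynomial.aeval` commutes with the projections:
`MvPolynomial.map_aeval`/`comp` with `Pi.evalRingHom`). Component 0: both sides are expansions of `τ ↦ (TH f)(l τ)`: `th_ser` with `F = aeval ![Aq, Yq] P` (`Ser.aeval`), `rescale` is a ring hom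
(so `rescale (aeval ![A, Y] P) = aeval ![rescale A, rescale Y] P`), `(e l)^w V (l^2) F = aeval ![(e l) V A, (e l) V Y] P` by homogeneity, and `Ser.scale` for `ev P'`. Components
`j + 1`: apply `∣ (T^j S)`: `(TH f) ∣ T^j ∣ S = e^w TH (f ∣ T^(e j) ∣ S)` by `th_T`, `th_S`; `f ∣ T^(e j) ∣ S = P(A∣S, ω^(e j) Y∣S)` (`ev_slash`; `A_T`, `Y_T`, `A_S`, `Y_S'`), expansion
`aeval ![th⁻¹ (A + 2Y), ω^(ej) th⁻¹ (A - Y)] P`; the factor `e^w` goes into the arguments by homogeneity; the right side is the same with `P'` and `1` instead of `e`. `s = om` or `om^2` (`om^3 = 1`).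
-/

namespace Pool.Agent.Lib.MP_06b9d2_tls.An

open UpperHalfPlane hiding I
open Complex ModularForm PowerSeries Filter
open scoped Real MatrixGroups Manifold Topology

/-- scaling of the arguments of a homogeneous polynomial -/
private theorem Hk_hom {w : ℕ} {P : MvPolynomial (Fin 2) ℂ} (hP : P.IsHomogeneous w) (c : ℂ)
    (F : Fin 2 → ℂ⟦X⟧) :
    MvPolynomial.aeval (fun i => c • F i) P = c ^ w • MvPolynomial.aeval F P := by
  rw [MvPolynomial.aeval_def, MvPolynomial.aeval_def, MvPolynomial.eval₂_eq', MvPolynomial.eval₂_eq',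
    Finset.smul_sum]
  refine Finset.sum_congr rfl fun d hd => ?_
  have h0 : d 0 + d 1 = w := by
    have := hP (MvPolynomial.mem_support_iff.1 hd)
    rw [Finsupp.weight_apply] at this
    simpa [Finsupp.sum_fintype] using this
  rw [Fin.prod_univ_two, Fin.prod_univ_two, ← h0, smul_pow, smul_pow, smul_mul_smul_comm, mul_smul_comm,
    ← pow_add]

private theorem Hk_resc (c : ℂ) (F : Fin 2 → ℂ⟦X⟧) (P : MvPolynomial (Fin 2) ℂ) :
    PowerSeries.rescale c (MvPolynomial.aeval F P) =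
      MvPolynomial.aeval (fun i => PowerSeries.rescale c (F i)) P := by
  induction P using MvPolynomial.induction_on with
  | C a =>
    rw [MvPolynomial.aeval_C, MvPolynomial.aeval_C]
    ext n
    rw [PowerSeries.coeff_rescale, PowerSeries.algebraMap_apply, PowerSeries.coeff_C]
    split_ifs with h
    · subst h; simp
    · simp
  | add p q hp hq => rw [map_add, map_add, map_add, hp, hq]
  | mul_X p i hp => rw [map_mul, map_mul, map_mul, hp, MvPolynomial.aeval_X, MvPolynomial.aeval_X]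

private theorem Hk_V {n : ℕ} (hn : 0 < n) {f : Fin 2 → ℍ → ℂ} {F : Fin 2 → ℂ⟦X⟧}
    (h : ∀ i, Ser (f i) (F i)) (P : MvPolynomial (Fin 2) ℂ) :
    V n (MvPolynomial.aeval F P) = MvPolynomial.aeval (fun i => V n (F i)) P :=
  Ser.unique ((Ser.aeval h P).scale n hn) (Ser.aeval (fun i => (h i).scale n hn) P)

private theorem Hk_comp {l : ℕ} {e : ℤ} (hl : Pe l e) {w : ℕ} {P : MvPolynomial (Fin 2) ℂ}
    (hP : P.IsHomogeneous w) {f : Fin 2 → ℍ → ℂ} {F : Fin 2 → ℂ⟦X⟧} (h : ∀ i, Ser (f i) (F i)) :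
    Ser (fun τ => THf l e w (fun τ => MvPolynomial.aeval (fun i => f i τ) P) (pt l 0 τ))
      (∑ i : Option (Fin l), MvPolynomial.aeval (fun k => br l e i (F k)) P) := by
  have h1 := th_ser (w := w) hl (Ser.aeval h P)
  have h2 : (∑ i : Option (Fin l), MvPolynomial.aeval (fun k => br l e i (F k)) P) =
      (∑ b : Fin l, PowerSeries.rescale (Complex.exp (2 * Real.pi * Complex.I * (b : ℕ) / l))
        (MvPolynomial.aeval F P) + (((e : ℂ) * l) ^ w) • V (l ^ 2) (MvPolynomial.aeval F P)) := by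
    rw [Fintype.sum_option, add_comm]
    congr 1
    · refine Finset.sum_congr rfl fun b _ => ?_
      rw [Hk_resc]
      rfl
    · rw [Hk_V (pow_pos hl.1.pos 2) h, ← Hk_hom hP]
      rfl
  rw [h2]
  exact h1

private theorem Hk_th2 : th ^ 2 = -3 := by
  rw [th, mul_pow, Complex.I_sq, ← Complex.ofReal_pow, Real.sq_sqrt (by norm_num)]
  push_cast
  ring

private theorem Hk_om3 : om ^ 3 = 1 := by
  have h := Hk_th2
  rw [om]
  linear_combination ((th - 3) / 8) * h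

private theorem Hk_om : om ≠ 0 := by
  intro h
  have := Hk_om3
  rw [h] at this
  norm_num at this

private theorem Hk_Tn (n : ℤ) :
    Af ∣[(1 : ℤ)] (ModularGroup.T ^ n) = Af ∧ Yf ∣[(1 : ℤ)] (ModularGroup.T ^ n) = (om ^ n) • Yf := by
  have hA' : Af ∣[(1 : ℤ)] (ModularGroup.T⁻¹) = Af := by
    conv_lhs => rw [← A_T]
    rw [← SlashAction.slash_mul, mul_inv_cancel, SlashAction.slash_one]
  have hY' : Yf ∣[(1 : ℤ)] (ModularGroup.T⁻¹) = om⁻¹ • Yf := by
    have h1 : Yf = om⁻¹ • (Yf ∣[(1 : ℤ)] ModularGroup.T) := by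
      rw [Y_T, smul_smul, inv_mul_cancel₀ Hk_om, one_smul]
    conv_lhs => rw [h1]
    rw [ModularForm.SL_smul_slash, ← SlashAction.slash_mul, mul_inv_cancel, SlashAction.slash_one]
  induction n using Int.induction_on with
  | zero => simp
  | succ i ih =>
    rw [zpow_add_one, SlashAction.slash_mul, SlashAction.slash_mul, ih.1, ih.2, A_T,
      ModularForm.SL_smul_slash, Y_T, smul_smul, zpow_add_one₀ Hk_om]
    exact ⟨rfl, rfl⟩
  | pred i ih =>
    rw [zpow_sub_one, SlashAction.slash_mul, SlashAction.slash_mul, ih.1, ih.2, hA',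
      ModularForm.SL_smul_slash, hY', smul_smul, zpow_sub_one₀ Hk_om]
    exact ⟨rfl, rfl⟩

/-- `f ∣ (T ^ n S)` for `f = P(a, Y)` -/
private theorem Hk_slash {w : ℕ} {P : MvPolynomial (Fin 2) ℂ} (hP : P.IsHomogeneous w) (n : ℤ) :
    ev P ∣[(w : ℤ)] (ModularGroup.T ^ n * ModularGroup.S) = fun τ => MvPolynomial.aeval
      (fun i => (![th⁻¹ • (Af + (2 : ℂ) • Yf), (om ^ n * th⁻¹) • (Af - Yf)] : Fin 2 → ℍ → ℂ) i τ) P := by
  rw [ev_slash w P hP]
  funext τ
  congr 2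
  funext i
  fin_cases i
  · simp only [Fin.zero_eta, Matrix.cons_val_zero]
    rw [SlashAction.slash_mul, (Hk_Tn n).1, A_S]
  · simp only [Fin.mk_one, Matrix.cons_val_one, Matrix.cons_val_fin_one]
    rw [SlashAction.slash_mul, (Hk_Tn n).2, ModularForm.SL_smul_slash, Y_S', smul_smul]

private theorem Hk_THT {l : ℕ} {e : ℤ} (hl : Pe l e) {w : ℕ} {f : ℍ → ℂ} (hf : MF w f) (j : ℕ) :
    THf l e w f ∣[(w : ℤ)] (ModularGroup.T ^ j) = THf l e w (f ∣[(w : ℤ)] (ModularGroup.T ^ (e * j))) := by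
  induction j with
  | zero => simp
  | succ j ih =>
    rw [pow_succ, SlashAction.slash_mul, ih, th_T hl (hf.slash _), ← SlashAction.slash_mul, ← zpow_add]
    congr 3
    push_cast
    ring

private theorem Hk_ser (c : ℂ) :
    ∀ i, Ser ((![th⁻¹ • (Af + (2 : ℂ) • Yf), (c * th⁻¹) • (Af - Yf)] : Fin 2 → ℍ → ℂ) i)
      ((![th⁻¹ • (Aq + (2 : ℂ) • Yq), (c * th⁻¹) • (Aq - Yq)] : Fin 2 → ℂ⟦X⟧) i) := by
  intro i
  fin_cases i
  · exact (ser_A.add (ser_Y.smul 2)).smul th⁻¹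
  · have h : Ser (Af - Yf) (Aq - Yq) := by
      have := ser_A.add (ser_Y.smul (-1))
      simpa [sub_eq_add_neg] using this
    exact h.smul (c * th⁻¹)

private theorem Hk_ser0 : ∀ i, Ser ((![Af, Yf] : Fin 2 → ℍ → ℂ) i) ((![Aq, Yq] : Fin 2 → ℂ⟦X⟧) i) := by
  intro i
  fin_cases i
  · exact ser_A
  · exact ser_Y

private theorem Hk_ev (P : MvPolynomial (Fin 2) ℂ) :
    ev P = fun τ => MvPolynomial.aeval (fun i => (![Af, Yf] : Fin 2 → ℍ → ℂ) i τ) P := by
  funext τ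
  rw [ev]
  congr 2
  funext i
  fin_cases i <;> rfl

private theorem Hk_V_add (n : ℕ) (F G : ℂ⟦X⟧) : V n (F + G) = V n F + V n G := by
  ext m
  simp only [V, PowerSeries.coeff_mk, map_add]
  split_ifs <;> simp

private theorem Hk_V_smul (n : ℕ) (c : ℂ) (F : ℂ⟦X⟧) : V n (c • F) = c • V n F := by
  ext m
  simp only [V, PowerSeries.coeff_mk, map_smul, smul_eq_mul]
  split_ifs <;> simp

private theorem Hk_br_add (l : ℕ) (e : ℂ) (i : Option (Fin l)) (F G : ℂ⟦X⟧) :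
    br l e i (F + G) = br l e i F + br l e i G := by
  cases i with
  | none => simp only [br, Hk_V_add, smul_add]
  | some b => simp only [br, map_add]

private theorem Hk_br_smul (l : ℕ) (e : ℂ) (i : Option (Fin l)) (c : ℂ) (F : ℂ⟦X⟧) :
    br l e i (c • F) = c • br l e i F := by
  cases i with
  | none => simp only [br, Hk_V_smul]; rw [smul_comm]
  | some b =>
    simp only [br]
    ext n
    simp only [PowerSeries.coeff_rescale, map_smul, smul_eq_mul]
    ring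

private theorem Hk_pi (F G : Fin 4 → ℂ⟦X⟧) (P : MvPolynomial (Fin 2) ℂ) (j : Fin 4) :
    (MvPolynomial.aeval ![F, G] P : Fin 4 → ℂ⟦X⟧) j = MvPolynomial.aeval ![F j, G j] P := by
  have h := MvPolynomial.comp_aeval_apply (R := ℂ) ![F, G] (Pi.evalAlgHom ℂ (fun _ : Fin 4 => ℂ⟦X⟧) j) P
  rw [Pi.evalAlgHom_apply] at h
  rw [h]
  congr 2
  funext i
  fin_cases i <;> rfl

private theorem Hk_cA (e : ℂ) (F G : ℂ⟦X⟧) (j : Fin 3) :
    cA e F G j.succ = e • (th⁻¹ • (F + (2 : ℂ) • G)) := by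
  have h2 : (2 : ℂ) • G = 2 * G := by
    rw [two_smul, two_mul]
  rw [smul_smul, ← div_eq_mul_inv, h2]
  fin_cases j <;> rfl

private theorem Hk_cY (e s : ℂ) (F G : ℂ⟦X⟧) (j : Fin 3) :
    cY e s F G j.succ = e • ((s ^ (j : ℕ) * th⁻¹) • (F - G)) := by
  rw [smul_smul]
  fin_cases j
  · show (e / th) • (F - G) = _
    simp [div_eq_mul_inv]
  · show (e * s / th) • (F - G) = _
    simp [div_eq_mul_inv, mul_assoc]
  · show (e * s ^ 2 / th) • (F - G) = _
    simp [div_eq_mul_inv, mul_assoc]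

theorem hk (l : ℕ) (e s : ℂ) (h : PL l e s) (w : ℕ) (P : MvPolynomial (Fin 2) ℂ) (hP : P.IsHomogeneous w) :
    ∃ P' : MvPolynomial (Fin 2) ℂ, P'.IsHomogeneous w ∧
      ∑ i : Option (Fin l), MvPolynomial.aeval ![cA e (br l e i Aq) (br l e i Yq),
          cY e s (br l e i Aq) (br l e i Yq)] P =
        MvPolynomial.aeval ![cA 1 (V l Aq) (V l Yq), cY 1 om (V l Aq) (V l Yq)] P' := by
  obtain ⟨e', he', he, hs⟩ : ∃ e' : ℤ, Pe l e' ∧ e = e' ∧ s = om ^ e' := by
    rcases h with ⟨hp, ⟨h1, h2, h3⟩ | ⟨h1, h2, h3⟩⟩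
    · exact ⟨1, ⟨hp, Or.inl ⟨h1, rfl⟩⟩, by simp [h2], by simp [h3]⟩
    · refine ⟨-1, ⟨hp, Or.inr ⟨h1, rfl⟩⟩, by simp [h2], ?_⟩
      rw [h3, zpow_neg_one]
      exact eq_inv_of_mul_eq_one_left (by rw [← pow_succ, Hk_om3])
  subst he hs
  have hl0 : 0 < l := he'.1.pos
  have hf : MF w (ev P) := mf_ev w P hP
  obtain ⟨P', hP', hPP'⟩ := str w (mf_TH he' hf)
  refine ⟨P', hP', ?_⟩
  -- the expansions at the cusp `T ^ j S`
  have key : ∀ j : ℕ, (((e' : ℂ)) ^ w) • (∑ i : Option (Fin l), MvPolynomial.aeval (fun k =>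
        br l e' i ((![th⁻¹ • (Aq + (2 : ℂ) • Yq), ((om ^ (e' * j)) * th⁻¹) • (Aq - Yq)] : Fin 2 → ℂ⟦X⟧) k)) P) =
      V l (MvPolynomial.aeval ![th⁻¹ • (Aq + (2 : ℂ) • Yq), ((om ^ j) * th⁻¹) • (Aq - Yq)] P') := by
    intro j
    have h1 := (Hk_comp he' hP (Hk_ser (om ^ (e' * j)))).smul ((e' : ℂ) ^ w)
    have h2 := (Ser.aeval (Hk_ser (om ^ j)) P').scale l hl0
    refine Ser.unique (f := fun τ => (ev P' ∣[(w : ℤ)] (ModularGroup.T ^ j * ModularGroup.S)) (pt l 0 τ)) ?_ ?_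
    · convert h1 using 1
      rw [← hPP', SlashAction.slash_mul, Hk_THT he' hf, th_S he' (hf.slash _), ← SlashAction.slash_mul, Hk_slash hP]
      rfl
    · convert h2 using 1
      have h3 := Hk_slash hP' j
      rw [zpow_natCast] at h3
      rw [h3]
      funext τ
      simp only [zpow_natCast]
  have key0 : (∑ i : Option (Fin l), MvPolynomial.aeval (fun k =>
        br l e' i ((![Aq, Yq] : Fin 2 → ℂ⟦X⟧) k)) P) = V l (MvPolynomial.aeval ![Aq, Yq] P') := by
    have h1 := Hk_comp he' hP Hk_ser0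
    have h2 := (Ser.aeval Hk_ser0 P').scale l hl0
    refine Ser.unique (f := fun τ => (ev P') (pt l 0 τ)) ?_ ?_
    · convert h1 using 1
      rw [← hPP', Hk_ev P]
    · convert h2 using 1
      rw [Hk_ev P']
  funext j
  rw [Finset.sum_apply, Hk_pi]
  simp only [Hk_pi]
  refine Fin.cases ?_ (fun j => ?_) j
  · rw [Hk_V hl0 Hk_ser0] at key0
    refine Eq.trans (Finset.sum_congr rfl fun i _ => ?_) (key0.trans ?_)
    · congr 2
      funext k
      fin_cases k <;> rfl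
    · congr 2
      funext k
      fin_cases k <;> rfl
  · have h1 := key j
    rw [Hk_V hl0 (Hk_ser _), Finset.smul_sum] at h1
    refine Eq.trans (Finset.sum_congr rfl fun i _ => ?_) (h1.trans ?_)
    · rw [← Hk_hom hP]
      congr 2
      funext k
      fin_cases k
      · show cA e' _ _ j.succ = (e' : ℂ) • br l e' i (th⁻¹ • (Aq + (2 : ℂ) • Yq))
        rw [Hk_cA, Hk_br_smul, Hk_br_add, Hk_br_smul]
      · show cY e' _ _ _ j.succ = (e' : ℂ) • br l e' i ((om ^ (e' * (j : ℕ)) * th⁻¹) • (Aq - Yq))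
        rw [Hk_cY, Hk_br_smul, sub_eq_add_neg Aq, ← neg_one_smul ℂ Yq, Hk_br_add, Hk_br_smul, neg_one_smul,
          ← sub_eq_add_neg, zpow_mul, zpow_natCast]
    · congr 2
      funext k
      fin_cases k
      · show V l (th⁻¹ • (Aq + (2 : ℂ) • Yq)) = cA 1 _ _ j.succ
        rw [Hk_cA, one_smul, Hk_V_smul, Hk_V_add, Hk_V_smul]
      · show V l ((om ^ (j : ℕ) * th⁻¹) • (Aq - Yq)) = cY 1 om _ _ j.succ
        rw [Hk_cY, one_smul, Hk_V_smul, sub_eq_add_neg Aq, ← neg_one_smul ℂ Yq, Hk_V_add, Hk_V_smul, neg_one_smul,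
          ← sub_eq_add_neg]

end Pool.Agent.Lib.MP_06b9d2_tls.An
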