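import Pool.Agent.Lib.MP_06b9d2_tls.An.XY
import Pool.Agent.Lib.MP_06b9d2_tls.An.Fml
import Pool.Agent.Lib.MP_06b9d2_tls.An.Grp

/-!
Module TLS-A-MFa: the ring of modular forms for `Γ(3)`, and the forms `a`, `Y`.
-/

namespace Pool.Agent.Lib.MP_06b9d2_tls.An

open UpperHalfPlane hiding I
open Complex ModularForm PowerSeries Filter
open scoped Real MatrixGroups Manifold Topology

theorem slash_T (k : ℤ) (f : ℍ → ℂ) (n : ℤ) : f ∣[k] (ModularGroup.T ^ n) = fun τ => f (pt 1 n τ) := by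
  funext τ
  rw [SL_slash_apply]
  have h1 : (ModularGroup.T ^ n) • τ = pt 1 n τ := by
    apply UpperHalfPlane.ext
    rw [ModularGroup.coe_T_zpow_smul_eq, coe_pt one_pos]
    push_cast
    ring
  have h2 : denom (ModularGroup.T ^ n : SL(2, ℤ)) τ = 1 := by
    rw [ModularGroup.denom_apply, ModularGroup.coe_T_zpow]
    simp
  rw [h1, h2, one_zpow, mul_one]

theorem slash_neg (k : ℤ) (f : ℍ → ℂ) (g : SL(2, ℤ)) : f ∣[k] (-g) = ((-1 : ℂ) ^ k) • (f ∣[k] g) := by
  funext τ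
  rw [Pi.smul_apply, SL_slash_apply, SL_slash_apply, ModularGroup.SL_neg_smul]
  have h2 : denom (-g : SL(2, ℤ)) τ = (-1) * denom g τ := by
    rw [ModularGroup.denom_apply, ModularGroup.denom_apply]
    simp
    ring
  rw [h2, mul_zpow, zpow_neg (-1 : ℂ) k, ← inv_zpow, inv_neg, inv_one, smul_eq_mul]
  ring

private theorem th_sq : th ^ 2 = -3 := by
  rw [th, mul_pow, Complex.I_sq, ← Complex.ofReal_pow, Real.sq_sqrt (by norm_num)]
  push_cast
  ring

private theorem th_ne : th ≠ 0 := by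
  intro h
  have h2 := th_sq
  rw [h] at h2
  norm_num at h2

private theorem exp_om : Complex.exp (2 * Real.pi * Complex.I * ((1 : ℝ) : ℂ) / 3) = om := by
  have h1 : (2 * Real.pi * Complex.I * ((1 : ℝ) : ℂ) / 3 : ℂ) = ((2 * Real.pi / 3 : ℝ) : ℂ) * Complex.I := by
    push_cast
    ring
  have h2 : Real.cos (2 * Real.pi / 3) = -(1 / 2) := by
    have h3 : (2 * Real.pi / 3 : ℝ) = Real.pi - Real.pi / 3 := by ring
    rw [h3, Real.cos_pi_sub, Real.cos_pi_div_three]
  have h4 : Real.sin (2 * Real.pi / 3) = Real.sqrt 3 / 2 := by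
    have h3 : (2 * Real.pi / 3 : ℝ) = Real.pi - Real.pi / 3 := by ring
    rw [h3, Real.sin_pi_sub, Real.sin_pi_div_three]
  rw [h1, Complex.exp_mul_I, ← Complex.ofReal_cos, ← Complex.ofReal_sin, h2, h4, om, th]
  push_cast
  ring

private theorem om_cube : om ^ 3 = 1 := by
  have h := th_sq
  have h3 : om ^ 3 = (th * th ^ 2 - 3 * th ^ 2 + 3 * th - 1) / 8 := by
    rw [om]
    ring
  rw [h3, h]
  ring

private theorem om_ne : om ≠ 0 := by
  intro h
  have h2 := om_cube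
  rw [h] at h2
  norm_num at h2

private theorem om_pow (n : ℕ) : om ^ n = om ^ (n % 3) := by
  conv_lhs => rw [← Nat.div_add_mod n 3, pow_add, pow_mul, om_cube, one_pow, one_mul]

private theorem T_eq (f : ℍ → ℂ) : f ∣[(1 : ℤ)] ModularGroup.T = fun τ => f (pt 1 (1 : ℝ) τ) := by
  have h := slash_T 1 f 1
  rw [zpow_one] at h
  rw [h]
  norm_num

theorem A_T : Af ∣[(1 : ℤ)] ModularGroup.T = Af := by
  have h := ser_A.shift 1
  rw [exp_om] at h
  have h2 : PowerSeries.rescale om Aq = Aq := by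
    ext n
    rw [coeff_rescale, Aq, coeff_map]
    by_cases hn : n % 3 = 0
    · rw [om_pow, hn, pow_zero, one_mul]
    · rw [Az_gr n hn, map_zero, mul_zero]
  rw [h2] at h
  rw [T_eq]
  exact Ser.fn_unique h ser_A

theorem Y_T : Yf ∣[(1 : ℤ)] ModularGroup.T = om • Yf := by
  have h := ser_Y.shift 1
  rw [exp_om] at h
  have h2 : PowerSeries.rescale om Yq = om • Yq := by
    ext n
    rw [coeff_rescale, coeff_smul, Yq, coeff_map, smul_eq_mul]
    by_cases hn : n % 3 = 1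
    · rw [om_pow, hn, pow_one]
    · have h3 : (3 : ℤ⟦X⟧) = PowerSeries.C 3 := by simp
      rw [h3, coeff_C_mul, Kz_gr n hn, mul_zero, map_zero, mul_zero, mul_zero]
  rw [h2] at h
  rw [T_eq]
  exact Ser.fn_unique h (ser_Y.smul om)

private theorem Af_eq : Af = Xf + Yf := rfl

private theorem Xf_eq : Xf = Af - Yf := by
  rw [Af_eq]
  abel

theorem Y_S' : Yf ∣[(1 : ℤ)] ModularGroup.S = th⁻¹ • (Af - Yf) := by
  rw [Y_S, Xf_eq]

theorem A_S : Af ∣[(1 : ℤ)] ModularGroup.S = th⁻¹ • (Af + (2 : ℂ) • Yf) := by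
  rw [Af_eq, SlashAction.add_slash, X_S, Y_S]
  have h := th_ne
  funext τ
  simp only [Pi.add_apply, Pi.smul_apply, smul_eq_mul]
  have h2 : -th = th⁻¹ * 3 := by
    field_simp
    rw [th_sq]
    norm_num
  rw [h2]
  ring

private theorem pow_slash (k : ℤ) (f : ℍ → ℂ) (g : SL(2, ℤ)) (n : ℕ) :
    (f ^ n) ∣[(n * k : ℤ)] g = (f ∣[k] g) ^ n := by
  induction n with
  | zero =>
    rw [Nat.cast_zero, zero_mul, pow_zero, pow_zero]
    exact is_invariant_one g
  | succ n ih =>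
    have h : ((n + 1 : ℕ) : ℤ) * k = n * k + k := by
      push_cast
      ring
    rw [h, pow_succ, mul_slash_SL2, ih, pow_succ]

namespace MF

variable {k l : ℤ} {f g : ℍ → ℂ}

theorem const (c : ℂ) : MF 0 (fun _ => c) := by
  intro g
  have h : (fun _ : ℍ => c) ∣[(0 : ℤ)] g = fun _ => c := is_invariant_const g c
  refine ⟨PowerSeries.C c, ?_⟩
  rw [h]
  exact Ser.const c

theorem add (hf : MF k f) (hg : MF k g) : MF k (f + g) := by
  intro h
  obtain ⟨F, hF⟩ := hf h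
  obtain ⟨G, hG⟩ := hg h
  refine ⟨F + G, ?_⟩
  rw [SlashAction.add_slash]
  exact hF.add hG

theorem smul (c : ℂ) (hf : MF k f) : MF k (c • f) := by
  intro h
  obtain ⟨F, hF⟩ := hf h
  refine ⟨c • F, ?_⟩
  rw [SL_smul_slash]
  exact hF.smul c

theorem mul (hf : MF k f) (hg : MF l g) : MF (k + l) (f * g) := by
  intro h
  obtain ⟨F, hF⟩ := hf h
  obtain ⟨G, hG⟩ := hg h
  refine ⟨F * G, ?_⟩
  rw [mul_slash_SL2]
  exact hF.mul hG

theorem pow (hf : MF k f) (n : ℕ) : MF (n * k) (f ^ n) := by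
  intro h
  obtain ⟨F, hF⟩ := hf h
  refine ⟨F ^ n, ?_⟩
  rw [pow_slash]
  exact hF.pow n

theorem slash (hf : MF k f) (g : SL(2, ℤ)) : MF k (f ∣[k] g) := by
  intro h
  obtain ⟨F, hF⟩ := hf (g * h)
  refine ⟨F, ?_⟩
  rw [← SlashAction.slash_mul]
  exact hF

/-- invariance under `Γ(3)` -/
theorem inv (hf : MF k f) (n : SL(2, ℤ)) (hn : n ∈ Nn) : f ∣[k] n = f := by
  let H : Subgroup SL(2, ℤ) :=
    { carrier := {n | ∀ g : SL(2, ℤ), f ∣[k] (g * n) = f ∣[k] g}
      one_mem' := by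
        intro g
        rw [mul_one]
      mul_mem' := by
        intro a b ha hb g
        rw [← mul_assoc, hb (g * a), ha g]
      inv_mem' := by
        intro a ha g
        have h := ha (g * a⁻¹)
        rw [inv_mul_cancel_right] at h
        exact h.symm }
  have hN : H.Normal := by
    constructor
    intro a ha g h
    have h1 : h * (g * a * g⁻¹) = (h * g * a) * g⁻¹ := by group
    rw [h1, SlashAction.slash_mul, ha (h * g), ← SlashAction.slash_mul, mul_inv_cancel_right]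
  have hT : ModularGroup.T ^ 3 ∈ H := by
    intro g
    rw [SlashAction.slash_mul]
    have h1 := slash_T k (f ∣[k] g) 3
    have h2 : (ModularGroup.T ^ (3 : ℤ) : SL(2, ℤ)) = ModularGroup.T ^ 3 := by
      norm_cast
    rw [h2] at h1
    rw [h1]
    funext τ
    obtain ⟨F, hF⟩ := hf g
    have h3 := hF.per τ
    push_cast
    exact h3
  have hle : Nn ≤ H := Subgroup.normalClosure_le_normal (by
    intro x hx
    rw [Set.mem_singleton_iff] at hx
    rw [hx]
    exact hT)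
  have h := hle hn 1
  rw [one_mul, SlashAction.slash_one] at h
  exact h

theorem ser (hf : MF k f) : ∃ F : ℂ⟦X⟧, Ser f F := by
  obtain ⟨F, hF⟩ := hf 1
  rw [SlashAction.slash_one] at hF
  exact ⟨F, hF⟩

end MF

/-- the span of `a`, `Y` -/
private noncomputable def W : Submodule ℂ (ℍ → ℂ) := Submodule.span ℂ {Af, Yf}

private theorem W_A : Af ∈ W := Submodule.subset_span (by simp)

private theorem W_Y : Yf ∈ W := Submodule.subset_span (by simp)

private theorem W_of {g : SL(2, ℤ)} (hA : Af ∣[(1 : ℤ)] g ∈ W) (hY : Yf ∣[(1 : ℤ)] g ∈ W) (f : ℍ → ℂ)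
    (hf : f ∈ W) : f ∣[(1 : ℤ)] g ∈ W := by
  rw [W, Submodule.mem_span_pair] at hf
  obtain ⟨a, b, rfl⟩ := hf
  rw [SlashAction.add_slash, SL_smul_slash, SL_smul_slash]
  exact W.add_mem (W.smul_mem a hA) (W.smul_mem b hY)

private theorem W_S (f : ℍ → ℂ) (hf : f ∈ W) : f ∣[(1 : ℤ)] ModularGroup.S ∈ W := by
  refine W_of ?_ ?_ f hf
  · rw [A_S]
    exact W.smul_mem _ (W.add_mem W_A (W.smul_mem _ W_Y))
  · rw [Y_S']
    exact W.smul_mem _ (W.sub_mem W_A W_Y)

private theorem W_T (f : ℍ → ℂ) (hf : f ∈ W) : f ∣[(1 : ℤ)] ModularGroup.T ∈ W := by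
  refine W_of ?_ ?_ f hf
  · rw [A_T]
    exact W_A
  · rw [Y_T]
    exact W.smul_mem _ W_Y

private theorem W_Si (f : ℍ → ℂ) (hf : f ∈ W) : f ∣[(1 : ℤ)] ModularGroup.S⁻¹ ∈ W := by
  have h : ModularGroup.S⁻¹ = -ModularGroup.S := by
    rw [_root_.inv_eq_iff_mul_eq_one]
    ext i j
    fin_cases i <;> fin_cases j <;> simp [ModularGroup.S]
  rw [h, slash_neg]
  exact W.smul_mem _ (W_S f hf)

private theorem W_Ti (f : ℍ → ℂ) (hf : f ∈ W) : f ∣[(1 : ℤ)] ModularGroup.T⁻¹ ∈ W := by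
  refine W_of ?_ ?_ f hf
  · have h := congrArg (fun f => f ∣[(1 : ℤ)] ModularGroup.T⁻¹) A_T
    simp only [← SlashAction.slash_mul, mul_inv_cancel, SlashAction.slash_one] at h
    rw [← h]
    exact W_A
  · have h := congrArg (fun f => f ∣[(1 : ℤ)] ModularGroup.T⁻¹) Y_T
    simp only [← SlashAction.slash_mul, mul_inv_cancel, SlashAction.slash_one, SL_smul_slash] at h
    have h2 : Yf ∣[(1 : ℤ)] ModularGroup.T⁻¹ = om⁻¹ • Yf := by
      conv_rhs => rw [h]
      rw [smul_smul, inv_mul_cancel₀ om_ne, one_smul]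
    rw [h2]
    exact W.smul_mem _ W_Y

private theorem W_all (g : SL(2, ℤ)) :
    (∀ f ∈ W, f ∣[(1 : ℤ)] g ∈ W) ∧ (∀ f ∈ W, f ∣[(1 : ℤ)] g⁻¹ ∈ W) := by
  have hg : g ∈ Subgroup.closure {ModularGroup.S, ModularGroup.T} := by
    rw [SpecialLinearGroup.SL2Z_generators]
    exact Subgroup.mem_top g
  induction hg using Subgroup.closure_induction with
  | mem x hx =>
    rcases hx with rfl | hx
    · exact ⟨W_S, W_Si⟩
    · rw [Set.mem_singleton_iff] at hx
      rw [hx]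
      exact ⟨W_T, W_Ti⟩
  | one =>
    constructor
    · intro f hf
      rw [SlashAction.slash_one]
      exact hf
    · intro f hf
      rw [inv_one, SlashAction.slash_one]
      exact hf
  | mul x y _ _ hx hy =>
    constructor
    · intro f hf
      rw [SlashAction.slash_mul]
      exact hy.1 _ (hx.1 _ hf)
    · intro f hf
      rw [mul_inv_rev, SlashAction.slash_mul]
      exact hx.2 _ (hy.2 _ hf)
  | inv x _ hx =>
    constructor
    · exact hx.2
    · rw [inv_inv]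
      exact hx.1

private theorem W_ser (f : ℍ → ℂ) (hf : f ∈ W) : ∃ F : ℂ⟦X⟧, Ser f F := by
  rw [W, Submodule.mem_span_pair] at hf
  obtain ⟨a, b, rfl⟩ := hf
  exact ⟨a • Aq + b • Yq, (ser_A.smul a).add (ser_Y.smul b)⟩

theorem mf_A : MF 1 Af := fun g => W_ser _ ((W_all g).1 _ W_A)

theorem mf_Y : MF 1 Yf := fun g => W_ser _ ((W_all g).1 _ W_Y)

private theorem aeval_mono (u v : ℂ) (d : Fin 2 →₀ ℕ) (c : ℂ) :
    MvPolynomial.aeval ![u, v] (MvPolynomial.monomial d c) = c * (u ^ d 0 * v ^ d 1) := by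
  rw [MvPolynomial.aeval_monomial, Finsupp.prod_fintype _ _ (fun i => pow_zero _), Fin.prod_univ_two]
  simp

private theorem ev_mono (d : Fin 2 →₀ ℕ) (c : ℂ) :
    ev (MvPolynomial.monomial d c) = c • (Af ^ d 0 * Yf ^ d 1) := by
  funext τ
  rw [ev, aeval_mono]
  simp

private theorem ev_sum (P : MvPolynomial (Fin 2) ℂ) :
    ev P = ∑ d ∈ P.support, ev (MvPolynomial.monomial d (P.coeff d)) := by
  funext τ
  rw [Finset.sum_apply]
  simp only [ev]
  rw [← map_sum, MvPolynomial.support_sum_monomial_coeff]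

private theorem deg_eq {w : ℕ} {P : MvPolynomial (Fin 2) ℂ} (hP : P.IsHomogeneous w) {d : Fin 2 →₀ ℕ}
    (hd : d ∈ P.support) : d 0 + d 1 = w := by
  have h := hP (MvPolynomial.mem_support_iff.1 hd)
  rw [Finsupp.weight_apply, Finsupp.sum_fintype _ _ (fun i => by simp), Fin.sum_univ_two] at h
  simpa using h

private theorem mono_slash (d : Fin 2 →₀ ℕ) (c : ℂ) (w : ℕ) (hw : d 0 + d 1 = w) (g : SL(2, ℤ)) :
    ev (MvPolynomial.monomial d c) ∣[(w : ℤ)] g =
      c • ((Af ∣[(1 : ℤ)] g) ^ d 0 * (Yf ∣[(1 : ℤ)] g) ^ d 1) := by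
  have h : (w : ℤ) = (d 0 : ℤ) * 1 + (d 1 : ℤ) * 1 := by
    rw [← hw]
    push_cast
    ring
  rw [ev_mono, SL_smul_slash, h, mul_slash_SL2, pow_slash, pow_slash]

/-- the action of `SL(2, ℤ)` on polynomials: substitution -/
theorem ev_slash (w : ℕ) (P : MvPolynomial (Fin 2) ℂ) (hP : P.IsHomogeneous w) (g : SL(2, ℤ)) :
    ev P ∣[(w : ℤ)] g = fun τ => MvPolynomial.aeval ![(Af ∣[(1 : ℤ)] g) τ, (Yf ∣[(1 : ℤ)] g) τ] P := by
  rw [ev_sum, SlashAction.sum_slash]
  funext τ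
  rw [Finset.sum_apply]
  conv_rhs => rw [← MvPolynomial.support_sum_monomial_coeff P, map_sum]
  refine Finset.sum_congr rfl fun d hd => ?_
  rw [mono_slash d _ w (deg_eq hP hd) g, aeval_mono]
  simp

/-- homogeneous polynomials in `a`, `Y` -/
theorem mf_ev (w : ℕ) (P : MvPolynomial (Fin 2) ℂ) (hP : P.IsHomogeneous w) : MF w (ev P) := by
  intro g
  obtain ⟨F, hF⟩ := mf_A g
  obtain ⟨G, hG⟩ := mf_Y g
  rw [ev_slash w P hP g]
  have h := Ser.aeval (f := ![Af ∣[(1 : ℤ)] g, Yf ∣[(1 : ℤ)] g]) (F := ![F, G]) (by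
    intro i
    fin_cases i
    · exact hF
    · exact hG) P
  refine ⟨MvPolynomial.aeval ![F, G] P, ?_⟩
  convert h using 2 with τ
  congr 2
  funext i
  fin_cases i <;> rfl

end Pool.Agent.Lib.MP_06b9d2_tls.An
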