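import Pool.Agent.Lib.MP_06b9d2_tls.An.ADef

/-!
Module TLS-A-SerA: the ring structure and uniqueness of expansions.
-/

namespace Pool.Agent.Lib.MP_06b9d2_tls.An

open UpperHalfPlane hiding I
open Complex ModularForm PowerSeries Filter
open scoped Real MatrixGroups Manifold Topology

theorem norm_xq (τ : ℍ) : ‖xq τ‖ < 1 :=
  Function.Periodic.norm_qParam_lt_one (by norm_num) τ.im_pos

/-- every point of the punctured unit disc is some `xq τ` -/
theorem exists_xq (z : ℂ) (h0 : z ≠ 0) (h1 : ‖z‖ < 1) : ∃ τ : ℍ, xq τ = z := by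
  have h := Function.Periodic.im_invQParam_pos_of_norm_lt_one (h := 3) (by norm_num) h1 h0
  exact ⟨⟨Function.Periodic.invQParam 3 z, h⟩, Function.Periodic.qParam_right_inv (by norm_num) h0⟩

private theorem ser_zero {c : ℕ → ℂ} (h : ∀ z : ℂ, z ≠ 0 → ‖z‖ < 1 → HasSum (fun n => c n * z ^ n) 0) :
    c = 0 := by
  have H : HasFPowerSeriesOnBall (Function.update (0 : ℂ → ℂ) 0 (c 0))
      (FormalMultilinearSeries.ofScalars ℂ c) 0 1 := by
    constructor
    · refine le_of_forall_lt_imp_le_of_dense fun r hr ↦ ?_
      rcases eq_or_ne r 0 with rfl | hr'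
      · simp
      · lift r to NNReal using hr.ne_top
        let : FiniteDimensional ℝ ℂ := basisOneI.finiteDimensional_of_finite
        apply FormalMultilinearSeries.le_radius_of_summable
        simpa [smul_eq_mul, norm_mul, mul_comm, mul_left_comm, mul_assoc] using
          (h r (mod_cast hr') (by simpa using hr)).summable.norm
    · simp
    · intro y hy
      rw [← ENNReal.coe_one, Metric.eball_coe, NNReal.coe_one, mem_ball_zero_iff] at hy
      rcases eq_or_ne y 0 with rfl | hy'
      · simpa +contextual [zero_pow_eq] using hasSum_ite_eq 0 (c 0)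
      · simpa [Function.update_of_ne hy', mul_comm] using h y hy' hy
  have h0 : c 0 = 0 := by
    have L1 := H.hasFPowerSeriesAt.continuousAt
    have L2 : ContinuousAt (0 : ℂ → ℂ) 0 := continuousAt_const
    have := (L1.eventuallyEq_nhds_iff_eventuallyEq_nhdsNE L2).mp <| by
      filter_upwards [self_mem_nhdsWithin] with a ha using Function.update_of_ne ha ..
    simpa [Function.update_self] using this.eq_of_nhds
  have hu : Function.update (0 : ℂ → ℂ) 0 (c 0) = 0 := Function.update_eq_self_iff.mpr h0
  rw [hu] at H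
  have hz := H.hasFPowerSeriesAt.eq_zero
  funext n
  have := congrArg (fun p : FormalMultilinearSeries ℂ ℂ ℂ => p n (fun _ => 1)) hz
  simpa [FormalMultilinearSeries.ofScalars] using this

namespace Ser

variable {f g : ℍ → ℂ} {F G : ℂ⟦X⟧}

theorem const (c : ℂ) : Ser (fun _ => c) (PowerSeries.C c) := by
  intro τ
  have h := hasSum_ite_eq 0 c
  have e : (fun n : ℕ => coeff n (PowerSeries.C c) * xq τ ^ n) = fun b' => if b' = 0 then c else 0 := by
    funext n
    rcases eq_or_ne n 0 with rfl | hn
    · simp
    · simp [PowerSeries.coeff_C, hn]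
  rw [e]
  exact h

theorem add (hf : Ser f F) (hg : Ser g G) : Ser (f + g) (F + G) := by
  intro τ
  have := (hf τ).add (hg τ)
  simpa [add_mul] using this

theorem mul (hf : Ser f F) (hg : Ser g G) : Ser (f * g) (F * G) := by
  intro τ
  have h1 := (hf τ).summable.norm
  have h2 := (hg τ).summable.norm
  have h3 := tsum_mul_tsum_eq_tsum_sum_antidiagonal_of_summable_norm h1 h2
  have h4 := (summable_norm_sum_mul_antidiagonal_of_summable_norm h1 h2).of_norm.hasSum
  rw [← h3, (hf τ).tsum_eq, (hg τ).tsum_eq] at h4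
  have e : (fun n : ℕ => coeff n (F * G) * xq τ ^ n) = fun n =>
      ∑ kl ∈ Finset.HasAntidiagonal.antidiagonal n, (coeff kl.1) F * xq τ ^ kl.1 * ((coeff kl.2) G * xq τ ^ kl.2) := by
    funext n
    rw [PowerSeries.coeff_mul, Finset.sum_mul]
    refine Finset.sum_congr rfl fun kl hkl => ?_
    rw [← Finset.HasAntidiagonal.mem_antidiagonal.mp hkl, pow_add]
    ring
  rw [e]
  exact h4

theorem smul (c : ℂ) (hf : Ser f F) : Ser (c • f) (c • F) := by
  intro τ
  simpa [mul_assoc] using (hf τ).mul_left c

theorem pow (hf : Ser f F) (n : ℕ) : Ser (f ^ n) (F ^ n) := by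
  induction n with
  | zero =>
    have h := const 1
    rw [map_one] at h
    rw [pow_zero, pow_zero]
    exact h
  | succ n ih => simpa [pow_succ] using ih.mul hf

theorem sum {ι : Type*} (s : Finset ι) {f : ι → ℍ → ℂ} {F : ι → ℂ⟦X⟧} (h : ∀ i ∈ s, Ser (f i) (F i)) :
    Ser (fun τ => ∑ i ∈ s, f i τ) (∑ i ∈ s, F i) := by
  classical
  induction s using Finset.induction_on with
  | empty => simpa using const 0
  | insert a s ha ih =>
    have h1 := (h a (Finset.mem_insert_self a s)).add (ih fun i hi => h i (Finset.mem_insert_of_mem hi))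
    have h2 : (fun τ => ∑ i ∈ insert a s, f i τ) = f a + fun τ => ∑ i ∈ s, f i τ := by
      funext τ
      simp [Finset.sum_insert ha]
    rw [h2, Finset.sum_insert ha]
    exact h1

theorem aeval {f : Fin 2 → ℍ → ℂ} {F : Fin 2 → ℂ⟦X⟧} (h : ∀ i, Ser (f i) (F i)) (P : MvPolynomial (Fin 2) ℂ) :
    Ser (fun τ => MvPolynomial.aeval (fun i => f i τ) P) (MvPolynomial.aeval F P) := by
  induction P using MvPolynomial.induction_on with
  | C a => simpa [MvPolynomial.aeval_C] using const a
  | add p q hp hq =>
    have h1 := hp.add hq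
    simp only [map_add]
    exact h1
  | mul_X p i hp =>
    have h1 := hp.mul (h i)
    simp only [map_mul, MvPolynomial.aeval_X]
    exact h1

/-- the expansion is unique -/
theorem unique (hF : Ser f F) (hG : Ser f G) : F = G := by
  have key : (fun n => coeff n F - coeff n G) = 0 := by
    refine ser_zero fun z h0 h1 => ?_
    obtain ⟨τ, rfl⟩ := exists_xq z h0 h1
    have := (hF τ).sub (hG τ)
    simpa [sub_mul] using this
  ext n
  exact sub_eq_zero.mp (congrFun key n)

/-- the function is determined by the expansion -/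
theorem fn_unique (hf : Ser f F) (hg : Ser g F) : f = g :=
  funext fun τ => (hf τ).unique (hg τ)

end Ser

end Pool.Agent.Lib.MP_06b9d2_tls.An
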