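import Pool.Agent.Lib.MP_06b9d2_tls.An.MFa

/-!
Module TLS-A-TH: the Hecke operators preserve the forms for `Γ(3)`.
-/

namespace Pool.Agent.Lib.MP_06b9d2_tls.An

open UpperHalfPlane hiding I
open Complex ModularForm PowerSeries Filter
open scoped Real MatrixGroups Manifold Topology

/-- `l` prime, `e = χ(l)` as an integer -/
def Pe (l : ℕ) (e : ℤ) : Prop := l.Prime ∧ ((l % 3 = 1 ∧ e = 1) ∨ (l % 3 = 2 ∧ e = -1))

/-- the slash action explicitly -/
private theorem TH_sl (k : ℤ) (f : ℍ → ℂ) (g : SL(2, ℤ)) (z y : ℍ)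
    (h : (y : ℂ) * (((g 1 0 : ℤ) : ℂ) * (z : ℂ) + ((g 1 1 : ℤ) : ℂ)) = ((g 0 0 : ℤ) : ℂ) * (z : ℂ) + ((g 0 1 : ℤ) : ℂ))
    (h0 : ((g 1 0 : ℤ) : ℂ) * (z : ℂ) + ((g 1 1 : ℤ) : ℂ) ≠ 0) :
    (f ∣[k] g) z = f y * (((g 1 0 : ℤ) : ℂ) * (z : ℂ) + ((g 1 1 : ℤ) : ℂ)) ^ (-k) := by
  have h1 : g • z = y := by
    apply UpperHalfPlane.ext
    rw [coe_specialLinearGroup_apply]
    simp only [algebraMap_int_eq, eq_intCast, ofReal_intCast]
    rw [div_eq_iff h0, h]
  rw [SL_slash_apply, h1]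
  rfl

private theorem TH_S (k : ℤ) (f : ℍ → ℂ) (z y : ℍ) (h : (y : ℂ) * (z : ℂ) = -1) :
    (f ∣[k] ModularGroup.S) z = f y * (z : ℂ) ^ (-k) := by
  have h0 : (z : ℂ) ≠ 0 := z.ne_zero
  have := TH_sl k f ModularGroup.S z y (by simpa [ModularGroup.S] using h) (by simpa [ModularGroup.S] using h0)
  simpa [ModularGroup.S] using this

/-- a sum of a periodic function over `range l` as a sum over `ZMod l` -/
private theorem TH_sum {l : ℕ} [NeZero l] (g : ℤ → ℂ) (hg : ∀ n, g (n + l) = g n) :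
    ∃ G : ZMod l → ℂ, (∀ n : ℤ, G (n : ZMod l) = g n) ∧ ∑ b ∈ Finset.range l, g b = ∑ z : ZMod l, G z := by
  have hk : ∀ (k : ℕ) (n : ℤ), g (n + k * l) = g n := by
    intro k
    induction k with
    | zero => intro n; simp
    | succ k ih =>
      intro n
      have := hg (n + k * l)
      rw [ih n] at this
      rw [← this]
      congr 1
      push_cast
      ring
  have hm : ∀ (m n : ℤ), g (n + m * l) = g n := by
    intro m n
    obtain ⟨k, rfl | rfl⟩ := m.eq_nat_or_neg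
    · exact hk k n
    · have := hk k (n + -(k : ℤ) * l)
      rw [← this]
      congr 1
      ring
  refine ⟨fun z => g (z.val : ℤ), ?_, ?_⟩
  · intro n
    show g (((n : ZMod l)).val : ℤ) = g n
    rw [ZMod.val_intCast]
    have h1 : n = n % (l : ℤ) + (n / (l : ℤ)) * l := by
      rw [mul_comm]; exact (Int.emod_add_mul_ediv n l).symm
    conv_rhs => rw [h1, hm]
  · refine Finset.sum_bij' (fun b _ => (b : ZMod l)) (fun z _ => z.val) ?_ ?_ ?_ ?_ ?_
    · intro b _; exact Finset.mem_univ _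
    · intro z _; exact Finset.mem_range.2 (ZMod.val_lt z)
    · intro b hb; exact ZMod.val_cast_of_lt (Finset.mem_range.1 hb)
    · intro z _; exact ZMod.natCast_zmod_val z
    · intro b hb
      show g b = g (((b : ZMod l)).val : ℤ)
      rw [ZMod.val_cast_of_lt (Finset.mem_range.1 hb)]

private theorem TH_perk {f : ℍ → ℂ} (hp : ∀ τ, f (pt 1 3 τ) = f τ) (m : ℤ) {r : ℝ} (hr : 0 < r) (t : ℝ) (τ : ℍ) :
    f (pt r (t + 3 * m) τ) = f (pt r t τ) := by
  have hk : ∀ (k : ℕ) (t : ℝ), f (pt r (t + 3 * k) τ) = f (pt r t τ) := by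
    intro k
    induction k with
    | zero => intro t; simp
    | succ k ih =>
      intro t
      rw [← ih t, ← hp (pt r (t + 3 * k) τ), pt_pt one_pos hr]
      congr 2
      · ring
      · push_cast; ring
  obtain ⟨k, rfl | rfl⟩ := m.eq_nat_or_neg
  · simpa using hk k t
  · have := hk k (t + 3 * ((-(k : ℤ) : ℤ) : ℝ))
    rw [← this]
    congr 2
    push_cast
    ring

private theorem TH_pos {l : ℕ} {e : ℤ} (hl : Pe l e) : (0 : ℝ) < l := by
  exact_mod_cast hl.1.pos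

private theorem TH_e {l : ℕ} {e : ℤ} (hl : Pe l e) : (e = 1 ∨ e = -1) ∧ ∃ c : ℤ, 3 * c = 1 - e * l := by
  obtain ⟨_, ⟨h1, h2⟩ | ⟨h1, h2⟩⟩ := hl
  · refine ⟨Or.inl h2, ?_⟩
    subst h2
    exact ⟨(1 - l) / 3, by omega⟩
  · refine ⟨Or.inr h2, ?_⟩
    subst h2
    exact ⟨(1 + l) / 3, by omega⟩

/-- the term with the number `n` -/
private noncomputable def tm (l : ℕ) (f : ℍ → ℂ) (τ : ℍ) (n : ℤ) : ℂ := f (pt (1 / l) (3 * n / l) τ)

private theorem tm_per {l : ℕ} (hl : (0 : ℝ) < l) {f : ℍ → ℂ} (hp : ∀ τ, f (pt 1 3 τ) = f τ) (τ : ℍ) (n : ℤ) :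
    tm l f τ (n + l) = tm l f τ n := by
  have := TH_perk hp 1 (r := 1 / l) (by positivity) (3 * n / l) τ
  rw [tm, tm, ← this]
  congr 2
  push_cast
  field_simp

private theorem th_eq {l : ℕ} (e : ℂ) (w : ℕ) (f : ℍ → ℂ) (τ : ℍ) :
    THf l e w f τ = ∑ b ∈ Finset.range l, tm l f τ b + (e * l) ^ w * f (pt l 0 τ) := by
  simp [THf, tm]

theorem th_T {l : ℕ} {e : ℤ} (hl : Pe l e) {w : ℕ} {f : ℍ → ℂ} (hf : MF w f) :
    THf l e w f ∣[(w : ℤ)] ModularGroup.T = THf l e w (f ∣[(w : ℤ)] (ModularGroup.T ^ e)) := by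
  have hl0 := TH_pos hl
  have : NeZero l := ⟨hl.1.ne_zero⟩
  obtain ⟨F, hF⟩ := hf.ser
  have hp := hF.per
  obtain ⟨he, c, hc⟩ := TH_e hl
  have hT : THf l e w f ∣[(w : ℤ)] ModularGroup.T = fun τ => THf l e w f (pt 1 1 τ) := by
    have := slash_T w (THf l e w f) 1
    simpa using this
  rw [hT]
  funext τ
  rw [th_eq, th_eq]
  have hfe : f ∣[(w : ℤ)] (ModularGroup.T ^ e) = fun τ => f (pt 1 e τ) := slash_T w f e
  congr 1
  · -- the finite branches
    obtain ⟨G, hG1, hG2⟩ := TH_sum (l := l) (fun n => tm l (f ∣[(w : ℤ)] (ModularGroup.T ^ e)) τ n) (by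
      intro n
      apply tm_per hl0
      intro z
      rw [hfe]
      simp only
      rw [← TH_perk hp 1 (r := 1) one_pos e z, pt_pt one_pos one_pos]
      congr 2
      · norm_num
      · push_cast; ring)
    rw [hG2]
    have h1 : ∀ b : ℕ, tm l f (pt 1 1 τ) b = G (((b : ℕ) : ZMod l) + ((c : ℤ) : ZMod l)) := by
      intro b
      have h2 := hG1 ((b : ℤ) + c)
      rw [show ((((b : ℤ) + c : ℤ)) : ZMod l) = ((b : ℕ) : ZMod l) + ((c : ℤ) : ZMod l) by push_cast; rfl] at h2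
      rw [h2, tm, tm, hfe]
      beta_reduce
      rw [pt_pt (by positivity) one_pos, pt_pt one_pos (by positivity)]
      congr 2
      · norm_num
      · have h3 : (3 : ℝ) * c = 1 - e * l := by exact_mod_cast hc
        push_cast
        field_simp
        linear_combination -h3
    have h4 : ∑ b ∈ Finset.range l, tm l f (pt 1 1 τ) b = ∑ z : ZMod l, G (z + ((c : ℤ) : ZMod l)) := by
      refine Finset.sum_bij' (fun b _ => (b : ZMod l)) (fun z _ => z.val) ?_ ?_ ?_ ?_ ?_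
      · intro b _; exact Finset.mem_univ _
      · intro z _; exact Finset.mem_range.2 (ZMod.val_lt z)
      · intro b hb; exact ZMod.val_cast_of_lt (Finset.mem_range.1 hb)
      · intro z _; exact ZMod.natCast_zmod_val z
      · intro b _; exact h1 b
    rw [h4]
    exact Equiv.sum_comp (Equiv.addRight ((c : ℤ) : ZMod l)) G
  · congr 1
    rw [hfe]
    simp only
    rw [pt_pt hl0 one_pos, pt_pt one_pos hl0]
    have h5 : ∃ m : ℤ, (l : ℤ) = e + 3 * m := by
      rcases he with rfl | rfl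
      · exact ⟨-c, by linarith⟩
      · exact ⟨c, by linarith⟩
    obtain ⟨m, hm⟩ := h5
    have hm' : (l : ℝ) = e + 3 * m := by exact_mod_cast hm
    rw [show ((l : ℝ) * 1 + 0 : ℝ) = (e : ℝ) + 3 * m by rw [← hm']; ring]
    rw [TH_perk hp m (by simpa using hl0)]
    congr 2
    · ring
    · ring

private theorem coe_S (τ : ℍ) : ((ModularGroup.S • τ : ℍ) : ℂ) * (τ : ℂ) = -1 := by
  rw [modular_S_smul]
  have : (τ : ℂ) ≠ 0 := τ.ne_zero
  simp only
  field_simp

/-- a branch `b ≠ 0` modulo `l` -/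
private theorem th_S_aux {l : ℕ} {e : ℤ} (hl : Pe l e) {w : ℕ} {f : ℍ → ℂ} (hf : MF w f) (τ : ℍ) (b b' k : ℤ)
    (hk : 9 * b * b' + 1 = l * k) :
    f (pt (1 / l) (3 * b / l) (ModularGroup.S • τ)) * (τ : ℂ) ^ (-(w : ℤ)) =
      (e : ℂ) ^ w * (f ∣[(w : ℤ)] ModularGroup.S) (pt (1 / l) (3 * b' / l) τ) := by
  have hl0 := TH_pos hl
  have hlC : (l : ℂ) ≠ 0 := by exact_mod_cast hl.1.ne_zero
  have hτ : (τ : ℂ) ≠ 0 := τ.ne_zero
  obtain ⟨he, c, hc⟩ := TH_e hl
  -- the matrix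
  let M : SL(2, ℤ) := ⟨!![3 * b, -k; (l : ℤ), -3 * b'], by
    rw [Matrix.det_fin_two_of]; linarith⟩
  have hM : f ∣[(w : ℤ)] M = ((e : ℂ) ^ w) • (f ∣[(w : ℤ)] ModularGroup.S) := by
    have hn : ∀ n r : SL(2, ℤ), n ∈ Nn → M = n * r → f ∣[(w : ℤ)] M = f ∣[(w : ℤ)] r := by
      intro n r hn hr
      rw [hr, SlashAction.slash_mul, hf.inv n hn]
    rcases he with rfl | rfl
    · have hk3 : (3 : ℤ) ∣ k - 1 := by
        have h1 : (l : ℤ) = 1 - 3 * c := by linarith
        rw [h1] at hk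
        exact ⟨3 * b * b' + c * k, by linarith⟩
      rw [hn ⟨!![k, 3 * b; 3 * b', (l : ℤ)], by rw [Matrix.det_fin_two_of]; linarith⟩ ModularGroup.S
        (mem_Nn _ (by simpa using hk3) (by simp) (by simp) ⟨-c, by simp; linarith⟩) ?_]
      · simp
      · apply Subtype.ext
        change (!![3 * b, -k; (l : ℤ), -3 * b'] : Matrix (Fin 2) (Fin 2) ℤ) =
          !![k, 3 * b; 3 * b', (l : ℤ)] * !![0, -1; 1, 0]
        rw [Matrix.mul_fin_two]
        congr 1
        simp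
    · have hk3 : (3 : ℤ) ∣ -k - 1 := by
        have h1 : (l : ℤ) = -1 + 3 * c := by linarith
        rw [h1] at hk
        exact ⟨3 * b * b' - c * k, by linarith⟩
      rw [hn ⟨!![-k, -(3 * b); -(3 * b'), -(l : ℤ)], by rw [Matrix.det_fin_two_of]; linarith⟩ (-ModularGroup.S)
        (mem_Nn _ (by simpa using hk3) (by simp) (by simp) ⟨-c, by simp; linarith⟩) ?_]
      · rw [slash_neg]
        simp
      · apply Subtype.ext
        change (!![3 * b, -k; (l : ℤ), -3 * b'] : Matrix (Fin 2) (Fin 2) ℤ) =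
          !![-k, -(3 * b); -(3 * b'), -(l : ℤ)] * -!![0, -1; 1, 0]
        rw [Matrix.mul_neg, Matrix.mul_fin_two]
        simp
  have hz : ((l : ℂ)) * ((pt (1 / l) (3 * b' / l) τ : ℍ) : ℂ) + (-3 * b' : ℂ) = τ := by
    rw [coe_pt (by positivity)]
    push_cast
    field_simp
    ring
  have h2 := TH_sl w f M (pt (1 / l) (3 * b' / l) τ) (pt (1 / l) (3 * b / l) (ModularGroup.S • τ)) (by
    have h3 := coe_S τ
    simp only [M, Matrix.of_apply, Matrix.cons_val', Matrix.cons_val_zero,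
      Matrix.cons_val_one, Matrix.cons_val_fin_one, Int.cast_mul, Int.cast_neg, Int.cast_natCast,
      Int.cast_ofNat]
    rw [hz, coe_pt (by positivity), coe_pt (by positivity)]
    push_cast
    have hkC : (9 : ℂ) * b * b' + 1 = l * k := by exact_mod_cast hk
    field_simp
    linear_combination h3 - hkC) (by
    simp only [M, Matrix.of_apply, Matrix.cons_val', Matrix.cons_val_zero,
      Matrix.cons_val_one, Matrix.cons_val_fin_one, Int.cast_mul, Int.cast_neg, Int.cast_natCast,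
      Int.cast_ofNat]
    rw [hz]
    exact hτ)
  rw [hM] at h2
  simp only [M, Matrix.of_apply, Matrix.cons_val', Matrix.cons_val_zero,
      Matrix.cons_val_one, Matrix.cons_val_fin_one, Int.cast_mul, Int.cast_neg, Int.cast_natCast,
      Int.cast_ofNat, Pi.smul_apply, smul_eq_mul] at h2
  rw [hz] at h2
  rw [← h2]

theorem th_S {l : ℕ} {e : ℤ} (hl : Pe l e) {w : ℕ} {f : ℍ → ℂ} (hf : MF w f) :
    THf l e w f ∣[(w : ℤ)] ModularGroup.S = ((e : ℂ) ^ w) • THf l e w (f ∣[(w : ℤ)] ModularGroup.S) := by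
  have hl0 := TH_pos hl
  have hlC : (l : ℂ) ≠ 0 := by exact_mod_cast hl.1.ne_zero
  have : NeZero l := ⟨hl.1.ne_zero⟩
  have : Fact l.Prime := ⟨hl.1⟩
  obtain ⟨F, hF⟩ := hf.ser
  obtain ⟨F', hF'⟩ := (hf.slash ModularGroup.S).ser
  have hp := hF.per
  have hp' := hF'.per
  obtain ⟨he, c, hc⟩ := TH_e hl
  have hee : (e : ℂ) ^ w * (e : ℂ) ^ w = 1 := by
    rcases he with rfl | rfl
    · simp
    · rw [← mul_pow]; simp
  funext τ
  have hτ : (τ : ℂ) ≠ 0 := τ.ne_zero
  rw [TH_S w _ τ (ModularGroup.S • τ) (coe_S τ)]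
  simp only [Pi.smul_apply, smul_eq_mul]
  rw [th_eq, th_eq, add_mul, Finset.sum_mul, mul_add, Finset.mul_sum]
  obtain ⟨G, hG1, hG2⟩ := TH_sum (l := l) (fun n => tm l f (ModularGroup.S • τ) n * (τ : ℂ) ^ (-(w : ℤ)))
    (fun n => by rw [tm_per hl0 hp])
  obtain ⟨H, hH1, hH2⟩ := TH_sum (l := l) (fun n => (e : ℂ) ^ w * tm l (f ∣[(w : ℤ)] ModularGroup.S) τ n)
    (fun n => by rw [tm_per hl0 hp'])
  rw [hG2, hH2]
  -- the nonzero classes
  have hne3 : ((9 : ℤ) : ZMod l) ≠ 0 := by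
    intro h
    rw [ZMod.intCast_zmod_eq_zero_iff_dvd] at h
    have h3 : l ∣ 3 ^ 2 := by exact_mod_cast h
    have h4 := hl.1.dvd_of_dvd_pow h3
    have h5 := (Nat.prime_dvd_prime_iff_eq hl.1 Nat.prime_three).1 h4
    rcases hl.2 with ⟨h6, _⟩ | ⟨h6, _⟩ <;> omega
  have h1 : ∑ z ∈ Finset.univ.erase (0 : ZMod l), G z = ∑ z ∈ Finset.univ.erase (0 : ZMod l), H z := by
    refine Finset.sum_bij' (fun z _ => -(((9 : ℤ) : ZMod l) * z)⁻¹) (fun z _ => -(((9 : ℤ) : ZMod l) * z)⁻¹) ?_ ?_ ?_ ?_ ?_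
    · intro z hz
      have := (Finset.mem_erase.1 hz).1
      exact Finset.mem_erase.2 ⟨neg_ne_zero.2 (inv_ne_zero (mul_ne_zero hne3 this)), Finset.mem_univ _⟩
    · intro z hz
      have := (Finset.mem_erase.1 hz).1
      exact Finset.mem_erase.2 ⟨neg_ne_zero.2 (inv_ne_zero (mul_ne_zero hne3 this)), Finset.mem_univ _⟩
    · intro z hz
      have := (Finset.mem_erase.1 hz).1
      field_simp
    · intro z hz
      have := (Finset.mem_erase.1 hz).1
      field_simp
    · intro z hz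
      have hz0 := (Finset.mem_erase.1 hz).1
      obtain ⟨b, hb⟩ := ZMod.intCast_surjective z
      obtain ⟨b', hb'⟩ := ZMod.intCast_surjective (-(((9 : ℤ) : ZMod l) * z)⁻¹)
      have h2 : ((9 * b * b' + 1 : ℤ) : ZMod l) = 0 := by
        push_cast
        rw [hb, hb']
        push_cast
        have h9 : (9 : ZMod l) ≠ 0 := by simpa using hne3
        field_simp
        ring
      obtain ⟨k, hk⟩ := (ZMod.intCast_zmod_eq_zero_iff_dvd _ _).1 h2
      have h3 := th_S_aux hl hf τ b b' k hk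
      rw [← hb', ← hb, hG1, hH1]
      exact h3
  -- the classes `0` and `∞`
  have h2 : G 0 = (e : ℂ) ^ w * (((e : ℂ) * l) ^ w * (f ∣[(w : ℤ)] ModularGroup.S) (pt l 0 τ)) := by
    have h3 := hG1 0
    rw [Int.cast_zero] at h3
    rw [h3, TH_S w f (pt l 0 τ) (pt (1 / l) (3 * (0 : ℤ) / l) (ModularGroup.S • τ))]
    · rw [tm, coe_pt hl0, mul_pow]
      simp only [ofReal_natCast, ofReal_zero, add_zero, zpow_neg, zpow_natCast, mul_pow]
      field_simp
      linear_combination (-(f (pt (1 / ↑l) (3 * ((0 : ℤ) : ℝ) / ↑l) (ModularGroup.S • τ)))) * hee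
    · rw [coe_pt hl0, coe_pt (by positivity)]
      have := coe_S τ
      push_cast
      field_simp
      linear_combination (l : ℂ) * this
  have h3 : (((e : ℂ) * l) ^ w * f (pt l 0 (ModularGroup.S • τ))) * (τ : ℂ) ^ (-(w : ℤ)) = H 0 := by
    have h4 := hH1 0
    rw [Int.cast_zero] at h4
    rw [h4, tm, TH_S w f (pt (1 / l) (3 * (0 : ℤ) / l) τ) (pt l 0 (ModularGroup.S • τ))]
    · rw [coe_pt (by positivity)]
      push_cast
      rw [mul_zero, zero_div, add_zero, zpow_neg, zpow_neg, zpow_natCast, zpow_natCast, mul_pow, mul_pow, one_div, inv_pow]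
      field_simp
    · rw [coe_pt hl0, coe_pt (by positivity)]
      have := coe_S τ
      push_cast
      field_simp
      linear_combination (l : ℂ) * this
  rw [h3, ← Finset.add_sum_erase _ G (Finset.mem_univ 0), ← Finset.add_sum_erase _ H (Finset.mem_univ 0), h1, h2]
  ring

/-- the expansion of `(T f)(l τ)` -/
theorem th_ser {l : ℕ} {e : ℤ} (hl : Pe l e) {w : ℕ} {f : ℍ → ℂ} {F : ℂ⟦X⟧} (hF : Ser f F) :
    Ser (fun τ => THf l e w f (pt l 0 τ))
      (∑ b : Fin l, PowerSeries.rescale (Complex.exp (2 * Real.pi * Complex.I * (b : ℕ) / l)) F +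
        (((e : ℂ) * l) ^ w) • V (l ^ 2) F) := by
  have hl0 := TH_pos hl
  have h1 : Ser (fun τ => ∑ b : Fin l, f (pt 1 (3 * (b : ℕ) / l) τ))
      (∑ b : Fin l, PowerSeries.rescale (Complex.exp (2 * Real.pi * Complex.I * (b : ℕ) / l)) F) := by
    apply Ser.sum
    intro b _
    have := hF.shift (3 * (b : ℕ) / l)
    convert this using 3
    push_cast
    have : (l : ℂ) ≠ 0 := by exact_mod_cast hl.1.ne_zero
    field_simp
  have h2 : Ser ((((e : ℂ) * l) ^ w) • fun τ => f (pt ((l ^ 2 : ℕ) : ℝ) 0 τ)) ((((e : ℂ) * l) ^ w) • V (l ^ 2) F) :=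
    (hF.scale (l ^ 2) (pow_pos hl.1.pos 2)).smul _
  have h3 := h1.add h2
  have h4 : (fun τ => THf l e w f (pt l 0 τ)) = (fun τ => ∑ b : Fin l, f (pt 1 (3 * (b : ℕ) / l) τ)) +
      ((((e : ℂ) * l) ^ w) • fun τ => f (pt ((l ^ 2 : ℕ) : ℝ) 0 τ)) := by
    funext τ
    simp only [THf, Pi.add_apply, Pi.smul_apply, smul_eq_mul]
    rw [pt_pt hl0 hl0, Finset.sum_range]
    congr 1
    · refine Finset.sum_congr rfl fun b _ => ?_
      rw [pt_pt (by positivity) hl0]
      congr 2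
      · field_simp
      · ring
    · congr 2
      · push_cast; ring_nf
  rw [h4]
  exact h3

private theorem th_ser' {l : ℕ} {e : ℤ} (hl : Pe l e) {w : ℕ} {f : ℍ → ℂ} {F : ℂ⟦X⟧} (hF : Ser f F) :
    ∃ G : ℂ⟦X⟧, Ser (THf l e w f) G := by
  have hl0 := TH_pos hl
  have : NeZero l := ⟨hl.1.ne_zero⟩
  have hp := hF.per
  have he : THf l e w f = (∑ b ∈ Finset.range l, fun τ => f (pt (1 / l) (3 * b / l) τ)) +
      (((e : ℂ) * l) ^ w) • fun τ => f (pt l 0 τ) := by
    funext τ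
    simp [THf, Finset.sum_apply]
  apply ser_of
  · rw [he]
    refine MDifferentiable.add ?_ ?_
    · refine MDifferentiable.sum fun b _ => ?_
      exact mdiff_pt hF.mdiff (by positivity) _
    · exact MDifferentiable.const_smul _ (mdiff_pt hF.mdiff hl0 _)
  · rw [he]
    refine Filter.BoundedAtFilter.add ?_ ?_
    · have : ∀ s : Finset ℕ, IsBoundedAtImInfty (∑ b ∈ s, fun τ => f (pt (1 / l) (3 * b / l) τ)) := by
        intro s
        induction s using Finset.induction_on with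
        | empty => exact Filter.const_boundedAtFilter atImInfty (0 : ℂ)
        | insert a s ha ih =>
          rw [Finset.sum_insert ha]
          exact Filter.BoundedAtFilter.add (bdd_pt hF.bdd (by positivity) _) ih
      exact this _
    · exact Filter.BoundedAtFilter.smul _ (bdd_pt hF.bdd hl0 _)
  · intro τ
    rw [th_eq, th_eq]
    congr 1
    · obtain ⟨G, hG1, hG2⟩ := TH_sum (l := l) (fun n => tm l f τ n) (fun n => tm_per hl0 hp τ n)
      rw [hG2]
      have h4 : ∑ b ∈ Finset.range l, tm l f (pt 1 3 τ) b = ∑ z : ZMod l, G (z + 1) := by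
        refine Finset.sum_bij' (fun b _ => (b : ZMod l)) (fun z _ => z.val) ?_ ?_ ?_ ?_ ?_
        · intro b _; exact Finset.mem_univ _
        · intro z _; exact Finset.mem_range.2 (ZMod.val_lt z)
        · intro b hb; exact ZMod.val_cast_of_lt (Finset.mem_range.1 hb)
        · intro z _; exact ZMod.natCast_zmod_val z
        · intro b _
          have h2 := hG1 ((b : ℤ) + 1)
          rw [show ((((b : ℤ) + 1 : ℤ)) : ZMod l) = ((b : ℕ) : ZMod l) + 1 by push_cast; rfl] at h2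
          rw [h2, tm, tm, pt_pt (by positivity) one_pos]
          congr 2
          · norm_num
          · push_cast; field_simp; ring
      rw [h4]
      exact Equiv.sum_comp (Equiv.addRight (1 : ZMod l)) G
    · congr 1
      rw [pt_pt hl0 one_pos]
      have := TH_perk hp l (r := l) hl0 0 τ
      rw [← this]
      congr 2
      · ring
      · push_cast; ring

private theorem th_slash {l : ℕ} {e : ℤ} (hl : Pe l e) (w : ℕ) (g : SL(2, ℤ)) :
    ∃ (g' : SL(2, ℤ)) (c : ℂ), c ≠ 0 ∧ ∀ h : ℍ → ℂ, MF w h →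
      THf l e w h ∣[(w : ℤ)] g = c • THf l e w (h ∣[(w : ℤ)] g') := by
  have hg : g ∈ Subgroup.closure {ModularGroup.S, ModularGroup.T} := by
    rw [SpecialLinearGroup.SL2Z_generators]; exact Subgroup.mem_top g
  obtain ⟨he, _⟩ := TH_e hl
  have he0 : (e : ℂ) ≠ 0 := by
    rcases he with rfl | rfl <;> simp
  induction hg using Subgroup.closure_induction with
  | mem x hx =>
    rcases hx with rfl | hx
    · exact ⟨ModularGroup.S, (e : ℂ) ^ w, pow_ne_zero _ he0, fun h hh => th_S hl hh⟩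
    · rw [Set.mem_singleton_iff] at hx
      subst hx
      exact ⟨ModularGroup.T ^ e, 1, one_ne_zero, fun h hh => by rw [th_T hl hh, one_smul]⟩
  | one => exact ⟨1, 1, one_ne_zero, fun h _ => by simp⟩
  | mul x y _ _ hx hy =>
    obtain ⟨x', c, hc, h1⟩ := hx
    obtain ⟨y', d, hd, h2⟩ := hy
    refine ⟨x' * y', c * d, mul_ne_zero hc hd, fun h hh => ?_⟩
    rw [SlashAction.slash_mul, h1 h hh, ModularForm.SL_smul_slash, h2 _ (hh.slash x'), SlashAction.slash_mul, smul_smul]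
  | inv x _ hx =>
    obtain ⟨x', c, hc, h1⟩ := hx
    refine ⟨x'⁻¹, c⁻¹, inv_ne_zero hc, fun h hh => ?_⟩
    have h2 := h1 (h ∣[(w : ℤ)] x'⁻¹) (hh.slash _)
    rw [← SlashAction.slash_mul, inv_mul_cancel, SlashAction.slash_one] at h2
    have h3 : THf l e w h = c⁻¹ • (THf l e w (h ∣[(w : ℤ)] x'⁻¹) ∣[(w : ℤ)] x) := by
      rw [h2, smul_smul, inv_mul_cancel₀ hc, one_smul]
    conv_lhs => rw [h3]
    rw [ModularForm.SL_smul_slash, ← SlashAction.slash_mul, mul_inv_cancel, SlashAction.slash_one]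

theorem mf_TH {l : ℕ} {e : ℤ} (hl : Pe l e) {w : ℕ} {f : ℍ → ℂ} (hf : MF w f) : MF w (THf l e w f) := by
  intro g
  obtain ⟨g', c, _, h⟩ := th_slash hl w g
  obtain ⟨F, hF⟩ := (hf.slash g').ser
  obtain ⟨G, hG⟩ := th_ser' (w := w) hl hF
  rw [h f hf]
  exact ⟨c • G, hG.smul c⟩

end Pool.Agent.Lib.MP_06b9d2_tls.An
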