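import Pool.Agent.Lib.MP_06b9d2_tls.An.MFa

/-!
Module TLS-A-Th3: `f(τ/3)` for the forms invariant under `T`.

PROOF (helper78, helper5). Write `f'(τ) = f(τ/3)`. `f ∣ n = f` for `n ∈ Nn` (`MF.inv`), `f ∣ T = f`. (1) `f' ∣ T^j = f((τ+j)/3)`. (2) `(f' ∣ S)(τ) = τ^(-w) f(-1/(3τ)) = 3^w (f ∣ S)(3τ) =: 3^w g(τ)`,
and `g ∣ T = g` because `f∣S` has period 3. (3) `g ∣ S = ± 3^(-w) f'` (from (2), `S^2 = -1`). (4) `f' ∣ T ∣ S = f' ∣ T^2`: `(-1/τ + 1)/3 = M z`, `z = (τ+2)/3`, `M = [1, -1; 3, -2]`,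
`3 z - 2 = τ`, `M = [1,0;3,1] T⁻¹`, `[1,0;3,1] ∈ Nn` (`mem_Nn`). (5) `f' ∣ T^2 ∣ S = (-1)^w f' ∣ T`: `(-1/τ + 2)/3 = M' z`, `z = (τ+1)/3`, `M' = [2,-1;3,-1]`, `3 z - 1 = τ`,
`M' = T * (-[1,0;-3,1])`. So the set `{c f(τ/3), c f((τ+1)/3), c f((τ+2)/3), c g : c ∈ ℂ}` is stable under `∣ S`, `∣ T` and (period 3 of f(τ/3), `S⁻¹ = -S`, `T⁻¹ = T^2 T^(-3)`) the inverses,
and all its elements have expansions: `f(τ/3)`: `f` has period 1, so `f(τ/3)` has period 3: `ser_of` with `mdiff_pt`, `bdd_pt`; the same for the shifts; `g`: `f ∣ S` has an expansion, `Ser.scale`.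
-/

namespace Pool.Agent.Lib.MP_06b9d2_tls.An

open UpperHalfPlane hiding I
open Complex ModularForm PowerSeries Filter
open scoped Real MatrixGroups Manifold Topology

private theorem th3_T {w : ℕ} {f : ℍ → ℂ} (hT : f ∣[(w : ℤ)] ModularGroup.T = f) (τ : ℍ) :
    f (pt 1 1 τ) = f τ := by
  have h := slash_T (w : ℤ) f 1
  rw [zpow_one, hT] at h
  have h2 := congrFun h τ
  rw [h2]
  push_cast
  rfl

private theorem th3_shift {w : ℕ} {f : ℍ → ℂ} (hT : f ∣[(w : ℤ)] ModularGroup.T = f) (t : ℝ) (τ : ℍ) :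
    f (pt (1 / 3) (t + 1) τ) = f (pt (1 / 3) t τ) := by
  rw [← th3_T hT (pt (1 / 3) t τ), pt_pt (by norm_num) (by norm_num)]
  norm_num

/-- the point `τ ↦ (τ + t) / 3` -/
private theorem th3_ser {w : ℕ} {f : ℍ → ℂ} (hf : MF w f) (hT : f ∣[(w : ℤ)] ModularGroup.T = f) (t : ℝ) :
    ∃ F : ℂ⟦X⟧, Ser (fun τ => f (pt (1 / 3) t τ)) F := by
  obtain ⟨F, hF⟩ := hf.ser
  refine ser_of (mdiff_pt hF.mdiff (by norm_num) t) (bdd_pt hF.bdd (by norm_num) t) ?_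
  intro τ
  show f (pt (1 / 3) t (pt 1 3 τ)) = f (pt (1 / 3) t τ)
  rw [pt_pt (by norm_num) (by norm_num), ← th3_shift hT t τ]
  have e1 : (1 / 3 * 1 : ℝ) = 1 / 3 := by norm_num
  have e2 : (1 / 3 * 3 + t : ℝ) = t + 1 := by ring
  rw [e1, e2]

private theorem th3_sT {w : ℕ} {f : ℍ → ℂ} (t : ℝ) :
    (fun τ => f (pt (1 / 3) t τ)) ∣[(w : ℤ)] ModularGroup.T = fun τ => f (pt (1 / 3) (t + 1 / 3) τ) := by
  have h := slash_T (w : ℤ) (fun τ => f (pt (1 / 3) t τ)) 1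
  rw [zpow_one] at h
  rw [h]
  funext τ
  show f (pt (1 / 3) t (pt 1 ((1 : ℤ) : ℝ) τ)) = _
  rw [pt_pt (by norm_num) (by norm_num)]
  have e1 : (1 / 3 * 1 : ℝ) = 1 / 3 := by norm_num
  have e2 : (1 / 3 * ((1 : ℤ) : ℝ) + t : ℝ) = t + 1 / 3 := by push_cast; ring
  rw [e1, e2]

private theorem th3_gT {w : ℕ} {h : ℍ → ℂ} (hh : ∃ F : ℂ⟦X⟧, Ser h F) :
    (fun τ => h (pt 3 0 τ)) ∣[(w : ℤ)] ModularGroup.T = fun τ => h (pt 3 0 τ) := by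
  obtain ⟨F, hF⟩ := hh
  have h1 := slash_T (w : ℤ) (fun τ => h (pt 3 0 τ)) 1
  rw [zpow_one] at h1
  rw [h1]
  funext τ
  show h (pt 3 0 (pt 1 ((1 : ℤ) : ℝ) τ)) = _
  have h2 := hF.per (pt 3 0 τ)
  rw [← h2, pt_pt (by norm_num) (by norm_num), pt_pt (by norm_num) (by norm_num)]
  have e1 : (3 * 1 : ℝ) = 3 := by norm_num
  have e2 : (3 * ((1 : ℤ) : ℝ) + 0 : ℝ) = 3 := by push_cast; ring
  have e3 : (1 * 3 : ℝ) = 3 := by norm_num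
  have e4 : (1 * 0 + 3 : ℝ) = 3 := by norm_num
  rw [e1, e2, e3, e4]

/-- `f(-1 / (3 τ))` -/
private theorem th3_S0 {w : ℕ} {f : ℍ → ℂ} :
    (fun τ => f (pt (1 / 3) 0 τ)) ∣[(w : ℤ)] ModularGroup.S =
      ((3 : ℂ) ^ w) • fun τ => (f ∣[(w : ℤ)] ModularGroup.S) (pt 3 0 τ) := by
  funext τ
  rw [SL_slash_apply, ModularGroup.denom_S]
  show f (pt (1 / 3) 0 (ModularGroup.S • τ)) * (τ : ℂ) ^ (-(w : ℤ)) =
    (3 : ℂ) ^ w * (f ∣[(w : ℤ)] ModularGroup.S) (pt 3 0 τ)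
  rw [SL_slash_apply, ModularGroup.denom_S, coe_pt (by norm_num)]
  have e : pt (1 / 3) 0 (ModularGroup.S • τ) = ModularGroup.S • pt 3 0 τ := by
    apply UpperHalfPlane.ext
    rw [coe_pt (by norm_num), UpperHalfPlane.modular_S_smul, UpperHalfPlane.modular_S_smul]
    show ((1 / 3 : ℝ) : ℂ) * (-(τ : ℂ))⁻¹ + ((0 : ℝ) : ℂ) = (-((pt 3 0 τ : ℍ) : ℂ))⁻¹
    rw [coe_pt (by norm_num)]
    push_cast
    rw [add_zero, add_zero, ← mul_neg, mul_inv]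
    norm_num
  rw [e]
  push_cast
  rw [add_zero, mul_zpow, zpow_neg (3 : ℂ), zpow_natCast]
  have h3 : (3 : ℂ) ^ w ≠ 0 := pow_ne_zero _ (by norm_num)
  field_simp

/-- the matrix of the substitution -/
private def th3M : SL(2, ℤ) := ⟨!![1, -1; 3, -2], by rw [Matrix.det_fin_two_of]; norm_num⟩

private theorem th3_M {w : ℕ} {f : ℍ → ℂ} (hf : MF w f) (hT : f ∣[(w : ℤ)] ModularGroup.T = f) :
    f ∣[(w : ℤ)] th3M = f := by
  have hmem : th3M * ModularGroup.T ∈ Nn := by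
    have e : ∀ i j, (th3M * ModularGroup.T).1 i j = (!![1, 0; 3, 1] : Matrix (Fin 2) (Fin 2) ℤ) i j := by
      intro i j
      rw [Matrix.SpecialLinearGroup.coe_mul, ModularGroup.coe_T]
      fin_cases i <;> fin_cases j <;> simp [th3M, Matrix.mul_apply, Fin.sum_univ_two]
    refine mem_Nn _ ?_ ?_ ?_ ?_ <;> rw [e] <;> norm_num
  have h1 := hf.inv _ hmem
  rw [SlashAction.slash_mul] at h1
  have h2 : (f ∣[(w : ℤ)] th3M) ∣[(w : ℤ)] (ModularGroup.T * ModularGroup.T⁻¹) =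
      f ∣[(w : ℤ)] ModularGroup.T⁻¹ := by
    rw [SlashAction.slash_mul, h1]
  have h3 : f ∣[(w : ℤ)] ModularGroup.T⁻¹ = f := by
    have h4 : (f ∣[(w : ℤ)] ModularGroup.T) ∣[(w : ℤ)] ModularGroup.T⁻¹ = f := by
      rw [← SlashAction.slash_mul, mul_inv_cancel, SlashAction.slash_one]
    rwa [hT] at h4
  rw [mul_inv_cancel, SlashAction.slash_one, h3] at h2
  exact h2

/-- `f((-1 / τ + 1) / 3)` -/
private theorem th3_S1 {w : ℕ} {f : ℍ → ℂ} (hf : MF w f) (hT : f ∣[(w : ℤ)] ModularGroup.T = f) :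
    (fun τ => f (pt (1 / 3) (1 / 3) τ)) ∣[(w : ℤ)] ModularGroup.S =
      fun τ => f (pt (1 / 3) (1 / 3 + 1 / 3) τ) := by
  funext τ
  rw [SL_slash_apply, ModularGroup.denom_S]
  show f (pt (1 / 3) (1 / 3) (ModularGroup.S • τ)) * (τ : ℂ) ^ (-(w : ℤ)) = _
  have hz : ((pt (1 / 3) (1 / 3 + 1 / 3) τ : ℍ) : ℂ) = ((τ : ℂ) + 2) / 3 := by
    rw [coe_pt (by norm_num)]
    push_cast
    ring
  have h1 : (th3M.1 0 0 : ℤ) = 1 := rfl
  have h2 : (th3M.1 0 1 : ℤ) = -1 := rfl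
  have h3 : (th3M.1 1 0 : ℤ) = 3 := rfl
  have h4 : (th3M.1 1 1 : ℤ) = -2 := rfl
  have hτ : (τ : ℂ) ≠ 0 := UpperHalfPlane.ne_zero τ
  have hd : denom th3M (pt (1 / 3) (1 / 3 + 1 / 3) τ) = (τ : ℂ) := by
    rw [ModularGroup.denom_apply, hz, h3, h4]
    push_cast
    ring
  have e : pt (1 / 3) (1 / 3) (ModularGroup.S • τ) = th3M • pt (1 / 3) (1 / 3 + 1 / 3) τ := by
    apply UpperHalfPlane.ext
    rw [coe_pt (by norm_num), UpperHalfPlane.modular_S_smul, UpperHalfPlane.coe_specialLinearGroup_apply]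
    show ((1 / 3 : ℝ) : ℂ) * (-(τ : ℂ))⁻¹ + ((1 / 3 : ℝ) : ℂ) = _
    rw [hz, h1, h2, h3, h4]
    have k1 : (((algebraMap ℤ ℝ) 1 : ℝ) : ℂ) = 1 := by simp
    have k2 : (((algebraMap ℤ ℝ) (-1) : ℝ) : ℂ) = -1 := by simp
    have k3 : (((algebraMap ℤ ℝ) 3 : ℝ) : ℂ) = 3 := by simp
    have k4 : (((algebraMap ℤ ℝ) (-2) : ℝ) : ℂ) = -2 := by simp
    rw [k1, k2, k3, k4]
    push_cast
    have e5 : (3 : ℂ) * (((τ : ℂ) + 2) / 3) + -2 = (τ : ℂ) := by ring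
    rw [e5]
    field_simp
    ring
  rw [e]
  have h5 := congrFun (th3_M hf hT) (pt (1 / 3) (1 / 3 + 1 / 3) τ)
  rw [SL_slash_apply, hd] at h5
  exact h5

private theorem th3_cS {w : ℕ} (c : ℂ) (h : ℍ → ℂ) (g : SL(2, ℤ)) :
    (c • h) ∣[(w : ℤ)] g = c • (h ∣[(w : ℤ)] g) := SL_smul_slash _ _ _ _

private theorem th3_SS {w : ℕ} (h : ℍ → ℂ) :
    (h ∣[(w : ℤ)] ModularGroup.S) ∣[(w : ℤ)] ModularGroup.S = ((-1 : ℂ) ^ (w : ℤ)) • h := by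
  have hS : ModularGroup.S * ModularGroup.S = -1 := by
    ext i j
    fin_cases i <;> fin_cases j <;> simp [ModularGroup.S, Matrix.mul_apply, Fin.sum_univ_two]
  rw [← SlashAction.slash_mul, hS, slash_neg, SlashAction.slash_one]

theorem mf_third {w : ℕ} {f : ℍ → ℂ} (hf : MF w f) (hT : f ∣[(w : ℤ)] ModularGroup.T = f) :
    MF w (fun τ => f (pt (1 / 3) 0 τ)) := by
  -- the four functions
  obtain ⟨a0, ha0⟩ : ∃ a : ℍ → ℂ, a = fun τ => f (pt (1 / 3) 0 τ) := ⟨_, rfl⟩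
  obtain ⟨a1, ha1⟩ : ∃ a : ℍ → ℂ, a = fun τ => f (pt (1 / 3) (1 / 3) τ) := ⟨_, rfl⟩
  obtain ⟨a2, ha2⟩ : ∃ a : ℍ → ℂ, a = fun τ => f (pt (1 / 3) (1 / 3 + 1 / 3) τ) := ⟨_, rfl⟩
  obtain ⟨g0, hg0⟩ : ∃ a : ℍ → ℂ, a = fun τ => (f ∣[(w : ℤ)] ModularGroup.S) (pt 3 0 τ) := ⟨_, rfl⟩
  have hc : (3 : ℂ) ^ w ≠ 0 := pow_ne_zero _ (by norm_num)
  have hT0 : a0 ∣[(w : ℤ)] ModularGroup.T = a1 := by
    rw [ha0, th3_sT, ha1]
    norm_num
  have hT1 : a1 ∣[(w : ℤ)] ModularGroup.T = a2 := by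
    rw [ha1, th3_sT, ha2]
  have hT2 : a2 ∣[(w : ℤ)] ModularGroup.T = a0 := by
    rw [ha2, th3_sT, ha0]
    funext τ
    have e : (1 / 3 + 1 / 3 + 1 / 3 : ℝ) = 0 + 1 := by norm_num
    rw [e, th3_shift hT]
  have hTg : g0 ∣[(w : ℤ)] ModularGroup.T = g0 := by
    rw [hg0]
    exact th3_gT (hf ModularGroup.S)
  have hS0 : a0 ∣[(w : ℤ)] ModularGroup.S = ((3 : ℂ) ^ w) • g0 := by
    rw [ha0, hg0]
    exact th3_S0
  have hS1 : a1 ∣[(w : ℤ)] ModularGroup.S = a2 := by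
    rw [ha1, ha2]
    exact th3_S1 hf hT
  have hS2 : a2 ∣[(w : ℤ)] ModularGroup.S = ((-1 : ℂ) ^ (w : ℤ)) • a1 := by
    rw [← hS1]
    exact th3_SS a1
  have hSg : g0 ∣[(w : ℤ)] ModularGroup.S = (((3 : ℂ) ^ w)⁻¹ * (-1 : ℂ) ^ (w : ℤ)) • a0 := by
    have h1 := th3_SS (w := w) a0
    rw [hS0, th3_cS] at h1
    rw [mul_smul, ← h1, smul_smul, inv_mul_cancel₀ hc, one_smul]
  -- the stable set
  obtain ⟨W, hW⟩ : ∃ W : Set (ℍ → ℂ), W = {h | ∃ c : ℂ, h = c • a0 ∨ h = c • a1 ∨ h = c • a2 ∨ h = c • g0} :=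
    ⟨_, rfl⟩
  have hWT : ∀ h ∈ W, h ∣[(w : ℤ)] ModularGroup.T ∈ W := by
    rw [hW]
    rintro h ⟨c, rfl | rfl | rfl | rfl⟩
    · exact ⟨c, Or.inr (Or.inl (by rw [th3_cS, hT0]))⟩
    · exact ⟨c, Or.inr (Or.inr (Or.inl (by rw [th3_cS, hT1])))⟩
    · exact ⟨c, Or.inl (by rw [th3_cS, hT2])⟩
    · exact ⟨c, Or.inr (Or.inr (Or.inr (by rw [th3_cS, hTg])))⟩
  have hWS : ∀ h ∈ W, h ∣[(w : ℤ)] ModularGroup.S ∈ W := by
    rw [hW]
    rintro h ⟨c, rfl | rfl | rfl | rfl⟩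
    · exact ⟨c * (3 : ℂ) ^ w, Or.inr (Or.inr (Or.inr (by rw [th3_cS, hS0, smul_smul])))⟩
    · exact ⟨c, Or.inr (Or.inr (Or.inl (by rw [th3_cS, hS1])))⟩
    · exact ⟨c * (-1 : ℂ) ^ (w : ℤ), Or.inr (Or.inl (by rw [th3_cS, hS2, smul_smul]))⟩
    · exact ⟨c * (((3 : ℂ) ^ w)⁻¹ * (-1 : ℂ) ^ (w : ℤ)), Or.inl (by rw [th3_cS, hSg, smul_smul])⟩
  have hWT3 : ∀ h ∈ W, h ∣[(w : ℤ)] (ModularGroup.T * ModularGroup.T * ModularGroup.T) = h := by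
    rw [hW]
    rintro h ⟨c, rfl | rfl | rfl | rfl⟩
    · rw [th3_cS, SlashAction.slash_mul, SlashAction.slash_mul, hT0, hT1, hT2]
    · rw [th3_cS, SlashAction.slash_mul, SlashAction.slash_mul, hT1, hT2, hT0]
    · rw [th3_cS, SlashAction.slash_mul, SlashAction.slash_mul, hT2, hT0, hT1]
    · rw [th3_cS, SlashAction.slash_mul, SlashAction.slash_mul, hTg, hTg, hTg]
  have hWc : ∀ (c : ℂ), ∀ h ∈ W, c • h ∈ W := by
    rw [hW]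
    rintro c h ⟨c', rfl | rfl | rfl | rfl⟩
    · exact ⟨c * c', Or.inl (smul_smul _ _ _)⟩
    · exact ⟨c * c', Or.inr (Or.inl (smul_smul _ _ _))⟩
    · exact ⟨c * c', Or.inr (Or.inr (Or.inl (smul_smul _ _ _)))⟩
    · exact ⟨c * c', Or.inr (Or.inr (Or.inr (smul_smul _ _ _)))⟩
  have hWTi : ∀ h ∈ W, h ∣[(w : ℤ)] ModularGroup.T⁻¹ ∈ W := by
    intro h hh
    have h1 : h ∣[(w : ℤ)] ModularGroup.T⁻¹ = (h ∣[(w : ℤ)] ModularGroup.T) ∣[(w : ℤ)] ModularGroup.T := by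
      conv_lhs => rw [← hWT3 h hh]
      rw [← SlashAction.slash_mul, mul_inv_cancel_right, SlashAction.slash_mul]
    rw [h1]
    exact hWT _ (hWT _ hh)
  have hWSi : ∀ h ∈ W, h ∣[(w : ℤ)] ModularGroup.S⁻¹ ∈ W := by
    intro h hh
    have hS : ModularGroup.S⁻¹ = -ModularGroup.S := by
      rw [_root_.inv_eq_iff_mul_eq_one]
      ext i j
      fin_cases i <;> fin_cases j <;> simp [ModularGroup.S, Matrix.mul_apply, Fin.sum_univ_two]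
    rw [hS, slash_neg]
    exact hWc _ _ (hWS _ hh)
  have hall : ∀ g : SL(2, ℤ), ∀ h ∈ W, h ∣[(w : ℤ)] g ∈ W := by
    intro g
    have hg : g ∈ Subgroup.closure {ModularGroup.S, ModularGroup.T} := by
      rw [SpecialLinearGroup.SL2Z_generators]
      trivial
    induction hg using Subgroup.closure_induction'' with
    | mem x hx =>
      rcases hx with rfl | rfl
      · exact hWS
      · exact hWT
    | inv_mem x hx =>
      rcases hx with rfl | rfl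
      · exact hWSi
      · exact hWTi
    | one =>
      intro h hh
      rwa [SlashAction.slash_one]
    | mul x y _ _ hx hy =>
      intro h hh
      rw [SlashAction.slash_mul]
      exact hy _ (hx _ hh)
  have hser : ∀ h ∈ W, ∃ F : ℂ⟦X⟧, Ser h F := by
    rw [hW]
    rintro h ⟨c, rfl | rfl | rfl | rfl⟩
    · obtain ⟨F, hF⟩ := th3_ser hf hT 0
      rw [ha0]
      exact ⟨_, hF.smul c⟩
    · obtain ⟨F, hF⟩ := th3_ser hf hT (1 / 3)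
      rw [ha1]
      exact ⟨_, hF.smul c⟩
    · obtain ⟨F, hF⟩ := th3_ser hf hT (1 / 3 + 1 / 3)
      rw [ha2]
      exact ⟨_, hF.smul c⟩
    · obtain ⟨F, hF⟩ := hf ModularGroup.S
      have h2 := (hF.scale 3 (by norm_num)).smul c
      rw [hg0]
      refine ⟨c • V 3 F, ?_⟩
      have e3 : ((3 : ℕ) : ℝ) = 3 := by norm_num
      rw [e3] at h2
      exact h2
  intro g
  rw [← ha0]
  refine hser _ (hall g a0 ?_)
  rw [hW]
  exact ⟨1, Or.inl (one_smul _ _).symm⟩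

end Pool.Agent.Lib.MP_06b9d2_tls.An
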