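import Pool.Agent.Lib.MP_06b9d2_tls.An.MFa

/-!
Module TLS-A-W0: forms of weight `0` are constant.

PROOF. Mathlib: `ModularForm.eq_const_of_weight_zero [𝒢.IsArithmetic] (f : ModularForm 𝒢 0)` (file NumberTheory/ModularForms/NormTrace.lean), with
`𝒢 = (CongruenceSubgroup.Gamma 3).map (mapGL ℝ)` (or `Nn.map (mapGL ℝ)`; `Gamma 3 ≤ Nn` by `mem_Nn`). Build the ModularForm: `slash_action_eq'` from `MF.inv` and `mem_Nn`;
`holo'` from `Ser.mdiff`; `bdd_at_cusps'`: cusps of arithmetic groups are the cusps of SL(2,ℤ), `OnePoint.isBoundedAt_iff_forall_SL2Z` or similar (file BoundedAtCusp.lean / Cusps.lean;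
see how Mathlib builds Eisenstein series `eisensteinSeries_MF`), then `Ser.bdd` of `f ∣ g`.
-/

namespace Pool.Agent.Lib.MP_06b9d2_tls.An

open UpperHalfPlane hiding I
open Complex ModularForm PowerSeries Filter
open scoped Real MatrixGroups Manifold Topology

theorem mf_zero {f : ℍ → ℂ} (hf : MF 0 f) : ∃ c : ℂ, f = fun _ => c := by
  obtain ⟨F0, hF0⟩ := hf.ser
  have h := ModularForm.eq_const_of_weight_zero
    (𝒢 := (CongruenceSubgroup.Gamma 3).map (Matrix.SpecialLinearGroup.mapGL ℝ))
    { toFun := f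
      slash_action_eq' := by
        rintro _ ⟨n, hn, rfl⟩
        have h1 := CongruenceSubgroup.Gamma_mem.1 hn
        have hd : ∀ a b : ℤ, ((a : ℤ) : ZMod 3) = ((b : ℤ) : ZMod 3) → (3 : ℤ) ∣ a - b := by
          intro a b hab
          exact (ZMod.intCast_eq_intCast_iff_dvd_sub b a 3).1 hab.symm
        refine hf.inv n (mem_Nn n ?_ ?_ ?_ ?_)
        · exact hd _ 1 (by simpa using h1.1)
        · simpa using hd _ 0 (by simpa using h1.2.1)
        · simpa using hd _ 0 (by simpa using h1.2.2.1)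
        · exact hd _ 1 (by simpa using h1.2.2.2)
      holo' := hF0.mdiff
      bdd_at_cusps' := by
        intro c hc
        rw [Subgroup.IsArithmetic.isCusp_iff_isCusp_SL2Z] at hc
        rw [OnePoint.isBoundedAt_iff_forall_SL2Z hc]
        intro g _
        obtain ⟨G, hG⟩ := hf g
        exact hG.bdd }
  obtain ⟨c, hc⟩ := h
  exact ⟨c, hc⟩

end Pool.Agent.Lib.MP_06b9d2_tls.An
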