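import Pool.Agent.Lib.MP_06b9d2_tls.An.SerB
import Pool.Agent.Lib.MP_06b9d2_tls.An.Pent

/-!
Module TLS-A-XY: expansions of `X` and `Y`, no zeros, and the transformation `τ ↦ -1/τ`.

PROOFS. `Xf_ne`, `Yf_ne`: `ModularForm.eta_ne_zero` (arguments `τ/3`, `3τ` in the upper half plane). `ser_X`: with `x = xq τ`: `eta z = 𝕢 24 z * ∏' (1 - eta_q n z)`,
`eta_q n (τ/3) = x^(n+1)`, `eta_q n τ = (x^3)^(n+1)`, `eta_q n (3τ) = (x^9)^(n+1)`; so `Xf τ * ∏'(1 - x^(3(n+1))) = (∏'(1 - x^(n+1)))^3` and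
`Yf τ * ∏'(1 - x^(3(n+1))) = 3 x (∏'(1 - x^(9(n+1))))^3` (exponential factors: `𝕢 24 (τ/3)^3 = 𝕢 24 τ`; `𝕢 24 (3τ)^3 = x 𝕢 24 τ`). `pent_hasSum` gives
`Ser` for `τ ↦ ∏'(1 - x^(n+1))` and `Ser.scale` (with n = 3, 9) for the others. `∏'(1 - x^(3(n+1)))` has no zeros and value 1 at infinity, so by `Ser.div1` `Xf` has some
expansion `H`, and `H * V 3 P = P^3` by `Ser.unique`; `Vz 3 Pz * Rz = 1` (`PowerSeries.mul_invOfUnit`) gives `H`. Same for `Yf`. `ser_A`: add.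
`X_S`: `(f ∣[1] S) τ = f (S • τ) * τ^(-1)` (`SL_slash_apply`, `modular_S_smul`, `denom_S`), `ModularForm.eta_comp_eq_csqrt_I_inv`: `η(-1/z) = (√I)⁻¹ √z η(z)`:
`η(-1/(3τ)) ` with `z = 3τ`, `η(-1/τ)` with `z = τ`, so `X(-1/τ) = η(-1/(3τ))^3/η(-1/τ) = (√I)^(-2) (√(3τ))^3/√τ * η(3τ)^3/η(τ)` and `√(3τ) = √3 √τ`, `(√z)^2 = z`:
`X(-1/τ) = I⁻¹ 3√3 τ η(3τ)^3/η(τ) = -I √3 τ Y(τ)`. `Y_S`: `η(-3/τ)` with `z = τ/3`, `√(τ/3) = √τ/√3`: `Y(-1/τ) = 3 I⁻¹ (τ/(3√3)) η(τ/3)^3/η(τ) = (τ / (I √3)) X(τ)`.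
-/

namespace Pool.Agent.Lib.MP_06b9d2_tls.An

open UpperHalfPlane hiding I
open Complex ModularForm PowerSeries Filter
open scoped Real MatrixGroups Manifold Topology

private theorem im_third (τ : ℍ) : 0 < ((τ : ℂ) / 3).im := by
  have h : 0 < (τ : ℂ).im := τ.im_pos
  rw [show ((τ : ℂ) / 3) = ((1 / 3 : ℝ) : ℂ) * (τ : ℂ) by push_cast; ring, im_ofReal_mul]
  linarith

private theorem im_three (τ : ℍ) : 0 < (3 * (τ : ℂ)).im := by
  have h : 0 < (τ : ℂ).im := τ.im_pos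
  rw [show (3 * (τ : ℂ)) = ((3 : ℝ) : ℂ) * (τ : ℂ) by push_cast; ring, im_ofReal_mul]
  linarith

theorem Xf_ne (τ : ℍ) : Xf τ ≠ 0 := by
  unfold Xf
  exact div_ne_zero (pow_ne_zero 3 (ModularForm.eta_ne_zero (im_third τ))) (ModularForm.eta_ne_zero τ.im_pos)

theorem Yf_ne (τ : ℍ) : Yf τ ≠ 0 := by
  unfold Yf
  exact div_ne_zero (mul_ne_zero three_ne_zero (pow_ne_zero 3 (ModularForm.eta_ne_zero (im_three τ))))
    (ModularForm.eta_ne_zero τ.im_pos)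

/-- the expansion of the product over `ℂ` -/
private noncomputable def Pc : ℂ⟦X⟧ := PowerSeries.map (Int.castRingHom ℂ) Pz

/-- the product `∏ (1 - x ^ (n + 1))` -/
private noncomputable def P0 (τ : ℍ) : ℂ := ∏' n : ℕ, (1 - xq τ ^ (n + 1))

private theorem ser_P0 : Ser P0 Pc := fun τ => pent_hasSum (xq τ) (norm_xq τ)

private theorem map_Vz (n : ℕ) (f : ℤ⟦X⟧) :
    PowerSeries.map (Int.castRingHom ℂ) (Vz n f) = V n (PowerSeries.map (Int.castRingHom ℂ) f) := by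
  ext m
  simp only [Vz, V, PowerSeries.coeff_map, PowerSeries.coeff_mk]
  split_ifs <;> simp

private theorem cc_Pz : coeff 0 Pz = 1 := by
  have h := PowerSeries.coeff_pentagonalSeries_pentagonal ℤ 0
  have h0 : pentagonal 0 = 0 := by simp [pentagonal]
  rw [h0] at h
  unfold Pz
  rw [h]
  simp

private theorem cc_V3 : constantCoeff (V 3 Pc) = 1 := by
  rw [← PowerSeries.coeff_zero_eq_constantCoeff_apply]
  simp only [V, Pc, PowerSeries.coeff_mk, dvd_zero, if_true, Nat.zero_div, PowerSeries.coeff_map, cc_Pz]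
  simp

private theorem VR : Vz 3 Pz * Rz = 1 := by
  unfold Rz
  refine PowerSeries.mul_invOfUnit _ _ ?_
  rw [← PowerSeries.coeff_zero_eq_constantCoeff_apply]
  simp only [Vz, PowerSeries.coeff_mk, dvd_zero, if_true, Nat.zero_div, cc_Pz, Units.val_one]

private theorem VRc : V 3 Pc * PowerSeries.map (Int.castRingHom ℂ) Rz = 1 := by
  unfold Pc
  rw [← map_Vz, ← map_mul, VR, map_one]

private theorem q1 (z : ℂ) (n : ℕ) : eta_q n z = cexp (2 * Real.pi * Complex.I * z) ^ (n + 1) := by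
  rw [eta_q_eq_pow]

private theorem xq_eq' (τ : ℍ) : xq τ = cexp (2 * Real.pi * Complex.I * ((τ : ℂ) / 3)) := by
  rw [xq_eq]
  congr 1
  ring

private theorem coe3 (τ : ℍ) : ((pt (3 : ℕ) 0 τ : ℍ) : ℂ) = 3 * (τ : ℂ) := by
  rw [coe_pt (by norm_num)]
  push_cast
  ring

private theorem coe9 (τ : ℍ) : ((pt (9 : ℕ) 0 τ : ℍ) : ℂ) = 9 * (τ : ℂ) := by
  rw [coe_pt (by norm_num)]
  push_cast
  ring

private theorem eta_third (τ : ℍ) : ModularForm.eta ((τ : ℂ) / 3) = cexp (2 * Real.pi * Complex.I * (τ : ℂ) / 72) * P0 τ := by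
  unfold ModularForm.eta P0
  congr 1
  · rw [Function.Periodic.qParam]
    congr 1
    push_cast
    ring
  · refine tprod_congr fun n => ?_
    rw [q1, xq_eq']

private theorem eta_one (τ : ℍ) : ModularForm.eta (τ : ℂ) = cexp (2 * Real.pi * Complex.I * (τ : ℂ) / 24) * P0 (pt (3 : ℕ) 0 τ) := by
  unfold ModularForm.eta P0
  congr 1
  refine tprod_congr fun n => ?_
  rw [q1, xq_eq', coe3]
  congr 3
  ring

private theorem eta_three (τ : ℍ) : ModularForm.eta (3 * (τ : ℂ)) = cexp (2 * Real.pi * Complex.I * (τ : ℂ) / 8) * P0 (pt (9 : ℕ) 0 τ) := by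
  unfold ModularForm.eta P0
  congr 1
  · rw [Function.Periodic.qParam]
    congr 1
    push_cast
    ring
  · refine tprod_congr fun n => ?_
    rw [q1, xq_eq', coe9]
    congr 4
    ring

private theorem P3_ne (τ : ℍ) : P0 (pt (3 : ℕ) 0 τ) ≠ 0 := by
  have h := ModularForm.eta_ne_zero τ.im_pos
  rw [show ((⟨τ, τ.im_pos⟩ : ℍ) : ℂ) = (τ : ℂ) from rfl] at h
  rw [eta_one] at h
  exact right_ne_zero_of_mul h

/-- division by the product -/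
private theorem ser_div {f : ℍ → ℂ} {F : ℂ⟦X⟧} (hf : Ser f F) :
    Ser (f / fun τ => P0 (pt (3 : ℕ) 0 τ)) (F * PowerSeries.map (Int.castRingHom ℂ) Rz) := by
  have hP := ser_P0.scale 3 (by norm_num)
  obtain ⟨H, hH⟩ := hf.div1 hP P3_ne (by rw [cc_V3]; exact one_ne_zero)
  have h1 := hH.mul hP
  have h2 : (f / fun τ => P0 (pt (3 : ℕ) 0 τ)) * (fun τ => P0 (pt (3 : ℕ) 0 τ)) = f := by
    funext τ
    simp only [Pi.mul_apply, Pi.div_apply]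
    exact div_mul_cancel₀ _ (P3_ne τ)
  rw [h2] at h1
  have h3 := h1.unique hf
  have h4 : H = F * PowerSeries.map (Int.castRingHom ℂ) Rz := by
    rw [← h3, mul_assoc, VRc, mul_one]
  rw [← h4]
  exact hH

private theorem ser_xq : Ser xq PowerSeries.X := by
  intro τ
  have h := hasSum_ite_eq 1 (xq τ)
  convert h using 2 with n
  rw [PowerSeries.coeff_X]
  by_cases hn : n = 1
  · subst hn
    simp
  · simp [hn]

theorem ser_X : Ser Xf (PowerSeries.map (Int.castRingHom ℂ) Xz) := by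
  have h := ser_div (ser_P0.pow 3)
  have e1 : Xf = (P0 ^ 3 / fun τ => P0 (pt (3 : ℕ) 0 τ)) := by
    funext τ
    simp only [Pi.div_apply, Pi.pow_apply]
    unfold Xf
    rw [eta_third, eta_one, mul_pow, ← Complex.exp_nat_mul]
    have h1 : ((3 : ℕ) : ℂ) * (2 * Real.pi * Complex.I * (τ : ℂ) / 72) = 2 * Real.pi * Complex.I * (τ : ℂ) / 24 := by
      push_cast
      ring
    rw [h1, mul_div_mul_left _ _ (Complex.exp_ne_zero _)]
  have e2 : PowerSeries.map (Int.castRingHom ℂ) Xz = Pc ^ 3 * PowerSeries.map (Int.castRingHom ℂ) Rz := by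
    unfold Xz Pc
    rw [map_mul, map_pow]
  rw [e1, e2]
  exact h

theorem ser_Y : Ser Yf Yq := by
  have h := ser_div (((ser_xq.mul ((ser_P0.scale 9 (by norm_num)).pow 3))).smul 3)
  have e1 : Yf = (((3 : ℂ) • (xq * (fun τ => P0 (pt (9 : ℕ) 0 τ)) ^ 3)) / fun τ => P0 (pt (3 : ℕ) 0 τ)) := by
    funext τ
    simp only [Pi.div_apply, Pi.pow_apply, Pi.smul_apply, Pi.mul_apply, smul_eq_mul]
    unfold Yf
    rw [eta_three, eta_one, mul_pow, ← Complex.exp_nat_mul, xq_eq]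
    have h1 : cexp (((3 : ℕ) : ℂ) * (2 * Real.pi * Complex.I * (τ : ℂ) / 8)) =
        cexp (2 * Real.pi * Complex.I * (τ : ℂ) / 24) * cexp (2 * Real.pi * Complex.I * (τ : ℂ) / 3) := by
      rw [← Complex.exp_add]
      congr 1
      push_cast
      ring
    rw [h1, ← mul_div_mul_left (3 * (cexp (2 * Real.pi * Complex.I * (τ : ℂ) / 3) * P0 (pt (9 : ℕ) 0 τ) ^ 3)) _
      (Complex.exp_ne_zero (2 * Real.pi * Complex.I * (τ : ℂ) / 24))]
    congr 1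
    ring
  have e2 : Yq = ((3 : ℂ) • (PowerSeries.X * V 9 Pc ^ 3)) * PowerSeries.map (Int.castRingHom ℂ) Rz := by
    unfold Yq Kz Pc
    rw [map_mul, map_mul, map_mul, map_pow, map_Vz, PowerSeries.map_X, smul_mul_assoc]
    rw [show PowerSeries.map (Int.castRingHom ℂ) (3 : ℤ⟦X⟧) = 3 from map_ofNat _ 3]
    rw [PowerSeries.smul_eq_C_mul]
    rw [show (PowerSeries.C (3 : ℂ) : ℂ⟦X⟧) = 3 from map_ofNat _ 3]
  rw [e1, e2]
  exact h

theorem ser_A : Ser Af Aq := by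
  have h := ser_X.add ser_Y
  have e1 : Af = Xf + Yf := rfl
  have e2 : Aq = PowerSeries.map (Int.castRingHom ℂ) Xz + Yq := by
    unfold Aq Yq
    rw [map_add]
  rw [e1, e2]
  exact h

private theorem eta_inv (z : ℂ) (hz : 0 < z.im) :
    ModularForm.eta (-z⁻¹) = (Complex.sqrt Complex.I)⁻¹ * (Complex.sqrt z * ModularForm.eta z) := by
  have h := ModularForm.eta_comp_eq_csqrt_I_inv hz
  simpa [neg_div] using h

private theorem sqrt_sq' (z : ℂ) (hz : z ≠ 0) : Complex.sqrt z ^ 2 = z := by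
  rw [sqrt_eq_exp hz, ← Complex.exp_nat_mul]
  rw [show ((2 : ℕ) : ℂ) * (Complex.log z / 2) = Complex.log z by push_cast; ring, Complex.exp_log hz]

private theorem sqrt_mul' (r : ℝ) (hr : 0 < r) (z : ℂ) (hz : z ≠ 0) :
    Complex.sqrt ((r : ℂ) * z) = ((Real.sqrt r : ℝ) : ℂ) * Complex.sqrt z := by
  have hrc : (r : ℂ) ≠ 0 := by exact_mod_cast hr.ne'
  rw [sqrt_eq_exp (mul_ne_zero hrc hz), sqrt_eq_exp hz, Complex.log_ofReal_mul hr hz, add_div, Complex.exp_add]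
  congr 1
  have h : Real.sqrt r = Real.exp (Real.log r / 2) := by
    rw [Real.sqrt_eq_rpow, Real.rpow_def_of_pos hr]
    congr 1
    ring
  rw [h, Complex.ofReal_exp]
  push_cast
  rfl

private theorem sqrt_ne (z : ℂ) (hz : z ≠ 0) : Complex.sqrt z ≠ 0 := by
  rw [sqrt_eq_exp hz]
  exact Complex.exp_ne_zero _

private theorem s3 : (((Real.sqrt 3 : ℝ) : ℂ)) ^ 2 = 3 := by
  rw [← Complex.ofReal_pow, Real.sq_sqrt (by norm_num)]
  norm_num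

private theorem s3' : (((Real.sqrt 3 : ℝ) : ℂ)) ≠ 0 := by
  intro h
  have := s3
  rw [h] at this
  norm_num at this

private theorem alg_X (s t r E e τ : ℂ) (hs : s ^ 2 = Complex.I) (hs0 : s ≠ 0) (ht : t ^ 2 = τ) (ht0 : t ≠ 0)
    (hr : r ^ 2 = 3) (he : e ≠ 0) :
    (s⁻¹ * (r * t * E)) ^ 3 / (s⁻¹ * (t * e)) * τ ^ (-1 : ℤ) = -(Complex.I * r) * (3 * E ^ 3 / e) := by
  subst ht
  have h1 : (s⁻¹ * (r * t * E)) ^ 3 / (s⁻¹ * (t * e)) * (t ^ 2) ^ (-1 : ℤ) = r ^ 3 * E ^ 3 / (s ^ 2 * e) := by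
    rw [zpow_neg_one]
    field_simp
  rw [h1, hs]
  have h2 : r ^ 3 = 3 * r := by
    rw [pow_succ, hr]
  rw [h2]
  have hI := Complex.I_ne_zero
  field_simp
  rw [Complex.I_sq]
  ring

private theorem alg_Y (s t r E e τ : ℂ) (hs : s ^ 2 = Complex.I) (hs0 : s ≠ 0) (ht : t ^ 2 = τ) (ht0 : t ≠ 0)
    (hr : r ^ 2 = 3) (hr0 : r ≠ 0) (he : e ≠ 0) :
    3 * (s⁻¹ * (r⁻¹ * t * E)) ^ 3 / (s⁻¹ * (t * e)) * τ ^ (-1 : ℤ) = (Complex.I * r)⁻¹ * (E ^ 3 / e) := by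
  subst ht
  have h1 : 3 * (s⁻¹ * (r⁻¹ * t * E)) ^ 3 / (s⁻¹ * (t * e)) * (t ^ 2) ^ (-1 : ℤ) = 3 * E ^ 3 / (r ^ 3 * s ^ 2 * e) := by
    rw [zpow_neg_one]
    field_simp
  rw [h1, hs]
  have h2 : r ^ 3 = 3 * r := by
    rw [pow_succ, hr]
  rw [h2]
  have hI := Complex.I_ne_zero
  field_simp

theorem X_S : Xf ∣[(1 : ℤ)] ModularGroup.S = (-th) • Yf := by
  ext τ
  rw [SL_slash_apply, UpperHalfPlane.modular_S_smul, ModularGroup.denom_S]
  have hτ : (τ : ℂ) ≠ 0 := τ.ne_zero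
  simp only [Pi.smul_apply, smul_eq_mul, Xf, Yf, th]
  have e1 : (-(τ : ℂ))⁻¹ / 3 = -(3 * (τ : ℂ))⁻¹ := by
    field_simp
  have e2 : (-(τ : ℂ))⁻¹ = -(τ : ℂ)⁻¹ := by
    rw [inv_neg]
  rw [e1, e2, eta_inv _ (im_three τ), eta_inv _ τ.im_pos]
  have hs : Complex.sqrt (3 * (τ : ℂ)) = ((Real.sqrt 3 : ℝ) : ℂ) * Complex.sqrt τ := by
    have := sqrt_mul' 3 (by norm_num) (τ : ℂ) hτ
    rw [← this]
    push_cast
    rfl
  rw [hs]
  exact alg_X _ _ _ _ _ _ (sqrt_sq' Complex.I Complex.I_ne_zero) (sqrt_ne Complex.I Complex.I_ne_zero)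
    (sqrt_sq' (τ : ℂ) hτ) (sqrt_ne (τ : ℂ) hτ) s3 (ModularForm.eta_ne_zero τ.im_pos)

theorem Y_S : Yf ∣[(1 : ℤ)] ModularGroup.S = th⁻¹ • Xf := by
  ext τ
  rw [SL_slash_apply, UpperHalfPlane.modular_S_smul, ModularGroup.denom_S]
  have hτ : (τ : ℂ) ≠ 0 := τ.ne_zero
  simp only [Pi.smul_apply, smul_eq_mul, Xf, Yf, th]
  have e1 : 3 * (-(τ : ℂ))⁻¹ = -((τ : ℂ) / 3)⁻¹ := by
    field_simp
  have e2 : (-(τ : ℂ))⁻¹ = -(τ : ℂ)⁻¹ := by
    rw [inv_neg]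
  rw [e1, e2, eta_inv _ (im_third τ), eta_inv _ τ.im_pos]
  have hs : Complex.sqrt ((τ : ℂ) / 3) = (((Real.sqrt 3 : ℝ) : ℂ))⁻¹ * Complex.sqrt τ := by
    have h := sqrt_mul' (1 / 3) (by norm_num) (τ : ℂ) hτ
    have e3 : (((1 / 3 : ℝ)) : ℂ) * (τ : ℂ) = (τ : ℂ) / 3 := by
      push_cast
      ring
    rw [e3] at h
    rw [h]
    congr 1
    rw [Real.sqrt_div (by norm_num), Real.sqrt_one]
    push_cast
    rw [one_div]
  rw [hs]
  exact alg_Y _ _ _ _ _ _ (sqrt_sq' Complex.I Complex.I_ne_zero) (sqrt_ne Complex.I Complex.I_ne_zero)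
    (sqrt_sq' (τ : ℂ) hτ) (sqrt_ne (τ : ℂ) hτ) s3 s3' (ModularForm.eta_ne_zero τ.im_pos)

end Pool.Agent.Lib.MP_06b9d2_tls.An
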